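import Mathlib

/-!
# Two-letter words: the abstract part

For `φ ψ : A →+* A[X]` we study `Psi φ ψ : A →+* A[X][X]`, which sends `f` to
`f (c(t (μ - 1)) d(t μ) g)` when `φ f = f (c(X) g)` and `ψ f = f (d(X) g)`. Here `t` is the outer
variable and `μ` the inner one.
-/

open Polynomial

namespace Pool.Agent.Lib.MP_5bc52d_co.Key

section basic
variable {A : Type*} [CommRing A]

/-- `X ↦ t μ` -/
noncomputable def sig : A[X] →+* A[X][X] := eval₂RingHom ((C : A[X] →+* A[X][X]).comp C) (C X * X)

theorem sig_C (a : A) : sig (C a) = C (C a) := by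
  simp [sig]

theorem sig_X : sig (X : A[X]) = C X * X := by
  simp [sig]

theorem coeff_sig (p : A[X]) (k : ℕ) : (sig p).coeff k = C (p.coeff k) * X ^ k := by
  induction p using Polynomial.induction_on' with
  | add p q hp hq => rw [map_add, coeff_add, hp, hq, coeff_add, C_add, add_mul]
  | monomial n a =>
    rw [← C_mul_X_pow_eq_monomial, map_mul, map_pow, sig_C, sig_X, mul_pow, ← mul_assoc,
      ← C_pow, ← C_mul, coeff_C_mul_X_pow, coeff_C_mul_X_pow]
    split_ifs with h
    · rw [h]
    · rw [C_0, zero_mul]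

/-- `f (c(t (μ - 1)) d(t μ) g)` -/
noncomputable def Psi (φ ψ : A →+* A[X]) : A →+* A[X][X] :=
  (eval₂RingHom (sig.comp ψ) (C (X - 1) * X)).comp φ

theorem Psi_apply (φ ψ : A →+* A[X]) (f : A) :
    Psi φ ψ f = eval₂ (sig.comp ψ) (C (X - 1) * X) (φ f) := rfl

theorem Psi_eq_sum (φ ψ : A →+* A[X]) (f : A) {N : ℕ} (hN : (φ f).natDegree < N) :
    Psi φ ψ f = ∑ i ∈ Finset.range N,
      sig (ψ ((φ f).coeff i)) * (C (X - 1) * X) ^ i := by
  rw [Psi_apply, eval₂_eq_sum_range' _ hN]
  rfl

/-- at `μ = 0` -/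
theorem Psi_zero {φ ψ : A →+* A[X]} (hψ : ∀ f, (ψ f).coeff 0 = f) (f : A) :
    (Psi φ ψ f).map (evalRingHom 0) = (φ f).comp (-X) := by
  have h1 : ((mapRingHom (evalRingHom (0 : A))).comp (eval₂RingHom (sig.comp ψ)
      (C (X - 1) * X))) = eval₂RingHom C (-X) := by
    apply Polynomial.ringHom_ext
    · intro a
      simp only [RingHom.comp_apply, coe_eval₂RingHom, eval₂_C, coe_mapRingHom]
      ext k
      rw [coeff_map, coeff_sig, coeff_C]
      cases k with
      | zero => simp [hψ]
      | succ k => simp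
    · simp
  exact congrArg (fun χ : A[X] →+* A[X] => χ (φ f)) h1

/-- at `μ = 1` -/
theorem Psi_one {φ ψ : A →+* A[X]} (hφ : ∀ f, (φ f).coeff 0 = f) (f : A) :
    (Psi φ ψ f).map (evalRingHom 1) = ψ f := by
  have h1 : ((mapRingHom (evalRingHom (1 : A))).comp (eval₂RingHom (sig.comp ψ)
      (C (X - 1) * X))) = eval₂RingHom ψ 0 := by
    apply Polynomial.ringHom_ext
    · intro a
      simp only [RingHom.comp_apply, coe_eval₂RingHom, eval₂_C, coe_mapRingHom]
      ext k
      rw [coeff_map, coeff_sig]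
      simp
    · simp
  have h2 := congrArg (fun χ : A[X] →+* A[X] => χ (φ f)) h1
  have h3 : eval₂ ψ 0 (φ f) = ψ ((φ f).coeff 0) := by
    rw [eval₂_at_zero]
  rw [hφ] at h3
  exact h2.trans h3

theorem natDegree_Psi_le {φ ψ : A →+* A[X]} {f : A} {b : ℕ} (hφ : (φ f).natDegree ≤ b)
    (h : ∀ i ≤ b, (ψ ((φ f).coeff i)).natDegree ≤ b - i) : (Psi φ ψ f).natDegree ≤ b := by
  rw [Psi_eq_sum φ ψ f (N := b + 1) (by omega)]
  apply natDegree_sum_le_of_forall_le
  intro i hi
  rw [Finset.mem_range] at hi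
  have h1 : (sig (ψ ((φ f).coeff i))).natDegree ≤ b - i := by
    rw [natDegree_le_iff_coeff_eq_zero]
    intro k hk
    rw [coeff_sig, coeff_eq_zero_of_natDegree_lt (lt_of_le_of_lt (h i (by omega)) hk), C_0,
      zero_mul]
  have h2 : ((C (X - 1 : A[X]) * X : A[X][X]) ^ i).natDegree ≤ i := by
    refine (natDegree_pow_le).trans ?_
    have : (C (X - 1 : A[X]) * X : A[X][X]).natDegree ≤ 1 :=
      (natDegree_C_mul_le _ _).trans natDegree_X_le
    calc i * (C (X - 1 : A[X]) * X : A[X][X]).natDegree ≤ i * 1 := Nat.mul_le_mul_left _ this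
      _ = i := mul_one i
  refine natDegree_mul_le.trans ?_
  omega

theorem coeff_swap (F : A[X][X]) (i j : ℕ) :
    ((Bivariate.swap F).coeff i).coeff j = (F.coeff j).coeff i := by
  induction F using Polynomial.induction_on' with
  | add p q hp hq => rw [map_add, coeff_add, coeff_add, hp, hq, coeff_add, coeff_add]
  | monomial n a =>
    induction a using Polynomial.induction_on' with
    | add p q hp hq =>
      rw [map_add (monomial n) p q, map_add, coeff_add, coeff_add, hp, hq, coeff_add, coeff_add]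
    | monomial m r =>
      rw [Bivariate.swap_monomial_monomial, coeff_monomial, coeff_monomial]
      by_cases h1 : m = i
      · by_cases h2 : n = j
        · subst h1
          subst h2
          simp
        · simp only [h1, h2, if_true, if_false, coeff_zero, coeff_monomial]
      · by_cases h2 : n = j
        · simp only [h1, h2, if_true, if_false, coeff_zero, coeff_monomial]
        · simp only [h1, h2, if_false, coeff_zero]

/-- If the product has small inner degree and one factor has an outer coefficient of that inner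
degree, then the other factor does not involve the inner variable. -/
theorem flat_of_mul [IsDomain A] {F G : A[X][X]} {n : ℕ} (hG : G ≠ 0)
    (h : ∀ k, ((F * G).coeff k).natDegree ≤ n) (hF : ∃ k, n ≤ (F.coeff k).natDegree)
    (hF0 : F ≠ 0) (k : ℕ) : (G.coeff k).natDegree = 0 := by
  have hinj : Function.Injective (Bivariate.swap (R := A)) := AlgEquiv.injective _
  have h1 : ∀ E : A[X][X], ∀ k, (E.coeff k).natDegree ≤ (Bivariate.swap E).natDegree := by
    intro E k
    rw [natDegree_le_iff_coeff_eq_zero]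
    intro i hi
    rw [← coeff_swap, coeff_eq_zero_of_natDegree_lt hi, coeff_zero]
  have h2 : (Bivariate.swap (F * G)).natDegree ≤ n := by
    rw [natDegree_le_iff_coeff_eq_zero]
    intro i hi
    ext j
    rw [coeff_swap, coeff_zero]
    exact coeff_eq_zero_of_natDegree_lt (lt_of_le_of_lt (h j) hi)
  have h3 : Bivariate.swap F ≠ 0 := fun h => hF0 (hinj (h.trans (map_zero _).symm))
  have h4 : Bivariate.swap G ≠ 0 := fun h => hG (hinj (h.trans (map_zero _).symm))
  rw [map_mul, natDegree_mul h3 h4] at h2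
  obtain ⟨l, hl⟩ := hF
  have h5 := h1 F l
  have h6 := h1 G k
  omega

theorem isCoprime_X_sub {p : A[X]} {a : A} (h : IsUnit (p.eval a)) :
    IsCoprime p (X - C a) := by
  obtain ⟨q, hq⟩ := X_sub_C_dvd_sub_C_eval (p := p) (a := a)
  obtain ⟨u, hu⟩ := h
  refine ⟨C (↑u⁻¹ : A), -C (↑u⁻¹ : A) * q, ?_⟩
  have h1 : p = (X - C a) * q + C (p.eval a) := by
    rw [← hq]; ring
  have h2 : (C (↑u⁻¹ : A) : A[X]) * C (p.eval a) = 1 := by
    rw [← C_mul, ← hu, Units.inv_mul, C_1]
  calc C (↑u⁻¹ : A) * p + -C (↑u⁻¹ : A) * q * (X - C a)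
      = C (↑u⁻¹ : A) * (p - (X - C a) * q) := by ring
    _ = C (↑u⁻¹ : A) * C (p.eval a) := by rw [← hq]; ring
    _ = 1 := h2

end basic

end Pool.Agent.Lib.MP_5bc52d_co.Key
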