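import Mathlib
import Pool.Agent.Lib.MP_5bc52d_co.Key.Two

/-!
# The key lemma, abstract form

A factor which does not vanish at either letter has a constant two-letter value, and vanishes at
`c(-T) g`.
-/

open Polynomial

namespace Pool.Agent.Lib.MP_5bc52d_co.Key

set_option linter.unusedSectionVars false

section
variable {A : Type*} [CommRing A] [IsDomain A]

theorem coeff_Psi_eval {φ ψ : A →+* A[X]} (hφ : ∀ f, (φ f).coeff 0 = f)
    (hψ : ∀ f, (ψ f).coeff 0 = f) {H : A} {b : ℕ} :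
    ((Psi φ ψ H).coeff b).eval 0 = (-1) ^ b * (φ H).coeff b ∧
      ((Psi φ ψ H).coeff b).eval 1 = (ψ H).coeff b := by
  constructor
  · have h1 := congrArg (fun p : A[X] => p.coeff b) (Psi_zero (φ := φ) hψ H)
    simp only [coeff_map, coe_evalRingHom] at h1
    rw [h1, neg_eq_neg_one_mul, ← C_1, ← C_neg, comp_C_mul_X_coeff, mul_comm]
  · have h1 := congrArg (fun p : A[X] => p.coeff b) (Psi_one (ψ := ψ) hφ H)
    simp only [coeff_map, coe_evalRingHom] at h1
    exact h1

theorem key_flat {φ ψ : A →+* A[X]} (hφ : ∀ f, (φ f).coeff 0 = f)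
    (hψ : ∀ f, (ψ f).coeff 0 = f) {K G H : A} (hK : K = G * H)
    {N a c b : ℕ} {κ : A} (hκ : κ ≠ 0)
    (h1 : (Psi φ ψ K).natDegree ≤ N) (h2 : (Psi φ ψ K).coeff N = C κ * ((X - 1) ^ a * X ^ c))
    (h3 : ∀ k, ((Psi φ ψ K).coeff k).natDegree ≤ a + c)
    (hH : (Psi φ ψ H).natDegree ≤ b) (hu0 : IsUnit ((φ H).coeff b))
    (hu1 : IsUnit ((ψ H).coeff b)) (k : ℕ) : ((Psi φ ψ H).coeff k).natDegree = 0 := by
  obtain ⟨e0, e1⟩ := coeff_Psi_eval (b := b) hφ hψ (H := H)
  set p : A[X] := (Psi φ ψ H).coeff b with hp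
  have hX1 : (X - 1 : A[X]) ≠ 0 := by
    rw [← C_1]
    exact X_sub_C_ne_zero 1
  have hp0 : p ≠ 0 := by
    intro h
    rw [h, eval_zero] at e1
    exact hu1.ne_zero e1.symm
  have hu0' : IsUnit (p.eval 0) := by
    rw [e0]
    exact ((isUnit_one.neg).pow b).mul hu0
  have hu1' : IsUnit (p.eval 1) := by
    rw [e1]
    exact hu1
  have hHd : (Psi φ ψ H).natDegree = b :=
    le_antisymm hH (le_natDegree_of_ne_zero hp0)
  have hHl : (Psi φ ψ H).leadingCoeff = p := by
    rw [leadingCoeff, hHd]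
  have hr : C κ * ((X - 1) ^ a * X ^ c) ≠ (0 : A[X]) :=
    mul_ne_zero (C_ne_zero.mpr hκ) (mul_ne_zero (pow_ne_zero _ hX1) (pow_ne_zero _ X_ne_zero))
  have hKd : (Psi φ ψ K).natDegree = N := by
    apply le_antisymm h1
    apply le_natDegree_of_ne_zero
    rw [h2]
    exact hr
  have hKl : (Psi φ ψ K).leadingCoeff = C κ * ((X - 1) ^ a * X ^ c) := by
    rw [leadingCoeff, hKd, h2]
  have hmul : (Psi φ ψ G).leadingCoeff * p = C κ * ((X - 1) ^ a * X ^ c) := by
    rw [← hKl, hK, map_mul, leadingCoeff_mul, hHl]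
  have hdvd : p ∣ C κ * ((X - 1) ^ a * X ^ c) := ⟨(Psi φ ψ G).leadingCoeff, by
    rw [← hmul, mul_comm]⟩
  have c0 : IsCoprime p X := by
    have := isCoprime_X_sub hu0'
    rwa [C_0, sub_zero] at this
  have c1 : IsCoprime p (X - 1) := by
    have := isCoprime_X_sub hu1'
    rwa [C_1] at this
  have hcop : IsCoprime p ((X - 1) ^ a * X ^ c) := (c1.pow_right).mul_right (c0.pow_right)
  have hpκ : p ∣ C κ := hcop.dvd_of_dvd_mul_right hdvd
  have hpd : p.natDegree = 0 := by
    have := natDegree_le_of_dvd hpκ (C_ne_zero.mpr hκ)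
    rw [natDegree_C] at this
    omega
  have hq0 : (Psi φ ψ G).leadingCoeff ≠ 0 := by
    intro h
    rw [h, zero_mul] at hmul
    exact hr hmul.symm
  have hqd : (Psi φ ψ G).leadingCoeff.natDegree = a + c := by
    have h4 := congrArg natDegree hmul
    rw [natDegree_mul hq0 hp0, hpd, add_zero] at h4
    rw [h4, natDegree_C_mul hκ, natDegree_mul (pow_ne_zero _ hX1) (pow_ne_zero _ X_ne_zero),
      natDegree_pow, natDegree_X_pow]
    have : (X - 1 : A[X]).natDegree = 1 := by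
      rw [← C_1]
      exact natDegree_X_sub_C 1
    rw [this, mul_one]
  have hPG : Psi φ ψ G ≠ 0 := leadingCoeff_ne_zero.mp hq0
  have hPH : Psi φ ψ H ≠ 0 := by
    intro h
    apply hp0
    rw [hp, h, coeff_zero]
  refine flat_of_mul hPH (n := a + c) ?_ ⟨(Psi φ ψ G).natDegree, hqd.ge⟩ hPG k
  intro l
  rw [← map_mul, ← hK]
  exact h3 l

theorem map_eval_of_flat {F : A[X][X]} (hF : ∀ k, (F.coeff k).natDegree = 0) (x y : A) :
    F.map (evalRingHom x) = F.map (evalRingHom y) := by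
  ext k
  rw [coeff_map, coeff_map, coe_evalRingHom, coe_evalRingHom]
  rw [eq_C_of_natDegree_eq_zero (hF k), eval_C, eval_C]

theorem key_comp {φ ψ : A →+* A[X]} (hφ : ∀ f, (φ f).coeff 0 = f)
    (hψ : ∀ f, (ψ f).coeff 0 = f) {H : A}
    (hF : ∀ k, ((Psi φ ψ H).coeff k).natDegree = 0) : (φ H).comp (-X) = ψ H := by
  rw [← Psi_zero hψ, ← Psi_one hφ H]
  exact map_eval_of_flat hF 0 1

/-- `H (s(-T') w(..)g)`: the value at `-T` is fixed by `ψ` -/
theorem key_const {φ ψ : A →+* A[X]} (hφ : ∀ f, (φ f).coeff 0 = f)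
    (hψ : ∀ f, (ψ f).coeff 0 = f) {H T : A} (hT0 : T ≠ 0) (hT : ψ T = C T + X)
    (hF : ∀ k, ((Psi φ ψ H).coeff k).natDegree = 0) :
    (ψ ((ψ H).eval (-T))).natDegree = 0 := by
  have h1 : (ψ H).eval (-T) = (φ H).eval T := by
    rw [← key_comp hφ hψ hF, eval_comp]
    simp
  have h2 : ψ ((φ H).eval T) = eval₂ ψ (C T + X) (φ H) := by
    rw [← hT, eval₂_at_apply]
  have h3 : (ψ ((ψ H).eval (-T))).comp (C (-T) * X) = (Psi φ ψ H).eval (C (-T)) := by
    rw [h1, h2]
    have h4 : (compRingHom (C (-T) * X)).comp (eval₂RingHom ψ (C T + X)) =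
        (evalRingHom (C (-T))).comp (eval₂RingHom (sig.comp ψ) (C (X - 1) * X)) := by
      apply Polynomial.ringHom_ext
      · intro a
        simp only [RingHom.comp_apply, coe_eval₂RingHom, eval₂_C, coe_evalRingHom,
          coe_compRingHom_apply]
        generalize ψ a = p
        have h5 : (compRingHom (C (-T) * X)) = (evalRingHom (C (-T))).comp (sig (A := A)) := by
          apply Polynomial.ringHom_ext
          · intro a
            simp [sig_C]
          · simp [sig_X]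
        exact congrArg (fun χ : A[X] →+* A[X] => χ p) h5
      · simp
        ring
    exact congrArg (fun χ : A[X] →+* A[X] => χ (φ H)) h4
  have h4 : ((Psi φ ψ H).eval (C (-T))).natDegree ≤ 0 := by
    rw [eval_eq_sum_range]
    apply natDegree_sum_le_of_forall_le
    intro i _
    rw [← C_pow]
    refine (natDegree_mul_C_le _ _).trans ?_
    rw [hF i]
  rw [← h3, natDegree_comp, natDegree_C_mul_X _ (neg_ne_zero.mpr hT0), mul_one] at h4
  omega

end

end Pool.Agent.Lib.MP_5bc52d_co.Key
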