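import Mathlib
import Pool.Agent.Lib.MP_5bc52d_co.Cut.Peel
import Pool.Agent.Lib.MP_5bc52d_co.Key.Key

/-!
# The two-letter value of a partition generating function
-/

open Finset Polynomial

set_option linter.unusedSectionVars false

namespace Pool.Agent.Lib.MP_5bc52d_co.Key

open Splitting Cyc Cut

variable {P : Type*} [Fintype P] [DecidableEq P]

/-- the sets which can be placed on the two letters -/
def PlP (r r' : P → P → Prop) (w : P → ℤ) (U W : Finset P) : Prop :=
  W ⊆ U ∧ (∀ a ∈ U, ∀ b ∈ W, r a b → a ∈ W) ∧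
    ∀ x ∈ W, x ∈ AL r (-w) W ∨ x ∈ AL r' (-w) W

open Classical in
/-- the finset of placeable sets -/
noncomputable def Pl (r r' : P → P → Prop) (w : P → ℤ) (U : Finset P) : Finset (Finset P) :=
  U.powerset.filter (fun W => PlP r r' w U W)

theorem mem_Pl {r r' : P → P → Prop} {w : P → ℤ} {U W : Finset P} :
    W ∈ Pl r r' w U ↔ PlP r r' w U W := by
  classical
  rw [Pl, Finset.mem_filter, Finset.mem_powerset]
  exact ⟨fun h => h.2, fun h => ⟨h.1, h⟩⟩

/-- the elements which can be placed on either letter -/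
noncomputable def Fr (r r' : P → P → Prop) (w : P → ℤ) (W : Finset P) : Finset P :=
  AL r (-w) W ∩ AL r' (-w) W

/-- the largest placeable set -/
noncomputable def Jm (r : P → P → Prop) (w : P → ℤ) (U : Finset P) : Finset P :=
  AL r (-w) U ∪ AL r w (U \ AL r (-w) U)

section comb
variable {r r' : P → P → Prop} (ht : ∀ x y z, r x y → r y z → r x z)
  (hr : ∀ x y, r' x y ↔ r y x) {w : P → ℤ} {U : Finset P}
include ht hr

theorem left_sub {I I' : Finset P} (hI : Wk r (-w) U I) (hI' : I' ⊆ U) :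
    I ⊆ AL r (-w) (I ∪ I') := by
  intro x hx
  have hU : ∀ y ∈ I ∪ I', y ∈ U := fun y hy => by
    rcases Finset.mem_union.mp hy with h | h
    · exact hI.1 h
    · exact hI' h
  refine mem_AL.mpr ⟨Finset.mem_union_left _ hx, fun a ha b hb hab h => ?_⟩
  have hbI : b ∈ I := by
    rcases h with h | h
    · exact h ▸ hx
    · exact (hI.2 b (hU b hb) x hx h).1
  exact (hI.2 a (hU a ha) b hbI hab).2

theorem right_sub {I I' : Finset P} (hI : Wk r (-w) U I) (hI' : Wk r w (U \ I) I') :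
    I' ⊆ AL r' (-w) (I ∪ I') := by
  intro x hx
  have hxU := Finset.mem_sdiff.mp (hI'.1 hx)
  refine mem_AL.mpr ⟨Finset.mem_union_right _ hx, fun a ha b hb hab h => ?_⟩
  have hba : r b a := (hr _ _).mp hab
  have hbI : b ∉ I := by
    intro hbI
    rcases h with h | h
    · exact hxU.2 (h ▸ hbI)
    · exact hxU.2 (hI.2 x hxU.1 b hbI ((hr _ _).mp h)).1
  have hbI' : b ∈ I' := (Finset.mem_union.mp hb).resolve_left hbI
  have hbU := Finset.mem_sdiff.mp (hI'.1 hbI')
  have haI : a ∉ I := fun haI => hbI (hI.2 b hbU.1 a haI hba).1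
  have haI' : a ∈ I' := (Finset.mem_union.mp ha).resolve_left haI
  have h1 := (hI'.2 b (hI'.1 hbI') a haI' hba).2
  simp only [Pi.neg_apply]
  omega

theorem pair_mem {I I' : Finset P} (hI : Wk r (-w) U I) (hI' : Wk r w (U \ I) I') :
    I ∪ I' ∈ Pl r r' w U := by
  have hI'U : I' ⊆ U := hI'.1.trans Finset.sdiff_subset
  refine mem_Pl.mpr ⟨Finset.union_subset hI.1 hI'U, fun a ha b hb hab => ?_, fun x hx => ?_⟩
  · rcases Finset.mem_union.mp hb with h | h
    · exact Finset.mem_union_left _ (hI.2 a ha b h hab).1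
    · by_cases haI : a ∈ I
      · exact Finset.mem_union_left _ haI
      · exact Finset.mem_union_right _ (hI'.2 a (Finset.mem_sdiff.mpr ⟨ha, haI⟩) b h hab).1
  · rcases Finset.mem_union.mp hx with h | h
    · exact Or.inl (left_sub ht hr hI hI'U h)
    · exact Or.inr (right_sub ht hr hI hI' h)

theorem split_left {W F : Finset P} (hW : PlP r r' w U W) (hF : F ⊆ Fr r r' w W) :
    Wk r (-w) U ((W \ AL r' (-w) W) ∪ F) := by
  have hFL : ∀ x ∈ F, x ∈ AL r (-w) W ∧ x ∈ AL r' (-w) W := fun x hx =>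
    Finset.mem_inter.mp (hF hx)
  have hL : ∀ x ∈ (W \ AL r' (-w) W) ∪ F, x ∈ AL r (-w) W := by
    intro x hx
    rcases Finset.mem_union.mp hx with h | h
    · rw [Finset.mem_sdiff] at h
      exact (hW.2.2 x h.1).resolve_right h.2
    · exact (hFL x h).1
  refine ⟨fun x hx => hW.1 (AL_subset (hL x hx)), fun a ha b hb hab => ?_⟩
  have hbL := hL b hb
  have hbW : b ∈ W := AL_subset hbL
  have haW : a ∈ W := hW.2.1 a ha b hbW hab
  have h1 := (Wk_AL ht).2 a haW b hbL hab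
  refine ⟨?_, h1.2⟩
  by_contra haI
  have haH : a ∈ AL r' (-w) W := by
    by_contra h
    exact haI (Finset.mem_union_left _ (Finset.mem_sdiff.mpr ⟨haW, h⟩))
  have h2 := (mem_AL.mp haH).2 b hbW a haW ((hr _ _).mpr hab) (Or.inl rfl)
  have h3 := h1.2
  omega

theorem split_right {W F : Finset P} (hW : PlP r r' w U W) :
    Wk r w (U \ ((W \ AL r' (-w) W) ∪ F)) (W \ ((W \ AL r' (-w) W) ∪ F)) := by
  refine ⟨fun x hx => ?_, fun a ha b hb hab => ?_⟩
  · rw [Finset.mem_sdiff] at hx ⊢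
    exact ⟨hW.1 hx.1, hx.2⟩
  · rw [Finset.mem_sdiff] at ha hb
    have haW : a ∈ W := hW.2.1 a ha.1 b hb.1 hab
    refine ⟨Finset.mem_sdiff.mpr ⟨haW, ha.2⟩, ?_⟩
    have haH : a ∈ AL r' (-w) W := by
      by_contra h
      exact ha.2 (Finset.mem_union_left _ (Finset.mem_sdiff.mpr ⟨haW, h⟩))
    have h2 := (mem_AL.mp haH).2 b hb.1 a haW ((hr _ _).mpr hab) (Or.inl rfl)
    simp only [Pi.neg_apply] at h2
    omega

theorem card_split {W F : Finset P} (hW : PlP r r' w U W) (hF : F ⊆ Fr r r' w W) :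
    ((W \ AL r' (-w) W) ∪ F).card = (W \ AL r' (-w) W).card + F.card ∧
      (W \ ((W \ AL r' (-w) W) ∪ F)).card =
        (W \ AL r (-w) W).card + ((Fr r r' w W).card - F.card) := by
  have hFL : ∀ x ∈ F, x ∈ AL r (-w) W ∧ x ∈ AL r' (-w) W := fun x hx =>
    Finset.mem_inter.mp (hF hx)
  constructor
  · rw [Finset.card_union_of_disjoint]
    rw [Finset.disjoint_left]
    intro x hx hxF
    exact (Finset.mem_sdiff.mp hx).2 (hFL x hxF).2
  · rw [← Finset.card_sdiff_of_subset hF, ← Finset.card_union_of_disjoint]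
    · congr 1
      ext x
      simp only [Finset.mem_sdiff, Finset.mem_union, Fr, Finset.mem_inter, not_or, not_and,
        not_not]
      constructor
      · rintro ⟨hxW, h1, h2⟩
        have h3 := h1 hxW
        by_cases h4 : x ∈ AL r (-w) W
        · exact Or.inr ⟨⟨h4, h3⟩, h2⟩
        · exact Or.inl ⟨hxW, h4⟩
      · rintro (⟨hxW, h⟩ | ⟨⟨h1, h2⟩, h3⟩)
        · exact ⟨hxW, fun _ => (hW.2.2 x hxW).resolve_left h, fun hxF => h (hFL x hxF).1⟩
        · exact ⟨AL_subset h1, fun _ => h2, h3⟩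
    · rw [Finset.disjoint_left]
      intro x hx hx'
      exact (Finset.mem_sdiff.mp hx).2 (Finset.mem_inter.mp (Finset.mem_sdiff.mp hx').1).1

theorem inter_left {I I' : Finset P} (hI : Wk r (-w) U I) (hI' : Wk r w (U \ I) I') :
    ((I ∪ I') \ AL r' (-w) (I ∪ I')) ∪ (I ∩ AL r' (-w) (I ∪ I')) = I := by
  ext x
  simp only [Finset.mem_union, Finset.mem_sdiff, Finset.mem_inter]
  constructor
  · rintro (⟨h1, h2⟩ | ⟨h1, -⟩)
    · rcases h1 with h1 | h1
      · exact h1
      · exact absurd (right_sub ht hr hI hI' h1) h2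
    · exact h1
  · intro hx
    by_cases h : x ∈ AL r' (-w) (I ∪ I')
    · exact Or.inr ⟨hx, h⟩
    · exact Or.inl ⟨Or.inl hx, h⟩

/-- the double sum over splittings -/
theorem sum_split {B : Type*} [CommRing B] (f : Finset P → B) (α β : B) :
    ∑ I ∈ wks r (-w) U, ∑ I' ∈ wks r w (U \ I), f (I ∪ I') * (α ^ I.card * β ^ I'.card) =
      ∑ W ∈ Pl r r' w U, f W * (α ^ (W \ AL r' (-w) W).card *
        (β ^ (W \ AL r (-w) W).card * (α + β) ^ (Fr r r' w W).card)) := by
  have h1 : ∀ W ∈ Pl r r' w U, f W * (α ^ (W \ AL r' (-w) W).card *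
        (β ^ (W \ AL r (-w) W).card * (α + β) ^ (Fr r r' w W).card)) =
      ∑ F ∈ (Fr r r' w W).powerset, f W * (α ^ (W \ AL r' (-w) W).card *
        (β ^ (W \ AL r (-w) W).card * (α ^ F.card * β ^ ((Fr r r' w W).card - F.card)))) := by
    intro W _
    rw [← Finset.sum_pow_mul_eq_add_pow, Finset.mul_sum, Finset.mul_sum, Finset.mul_sum]
  rw [Finset.sum_congr rfl h1, Finset.sum_sigma', Finset.sum_sigma']
  refine Finset.sum_bij' (fun p _ => ⟨p.1 ∪ p.2, p.1 ∩ AL r' (-w) (p.1 ∪ p.2)⟩)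
    (fun q _ => ⟨(q.1 \ AL r' (-w) q.1) ∪ q.2, q.1 \ ((q.1 \ AL r' (-w) q.1) ∪ q.2)⟩)
    ?_ ?_ ?_ ?_ ?_
  · rintro ⟨I, I'⟩ hp
    rw [Finset.mem_sigma, mem_wks, mem_wks] at hp
    rw [Finset.mem_sigma, Finset.mem_powerset]
    refine ⟨pair_mem ht hr hp.1 hp.2, fun x hx => ?_⟩
    rw [Finset.mem_inter] at hx
    exact Finset.mem_inter.mpr
      ⟨left_sub ht hr hp.1 (hp.2.1.trans Finset.sdiff_subset) hx.1, hx.2⟩
  · rintro ⟨W, F⟩ hq
    rw [Finset.mem_sigma, Finset.mem_powerset, mem_Pl] at hq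
    rw [Finset.mem_sigma, mem_wks, mem_wks]
    exact ⟨split_left ht hr hq.1 hq.2, split_right ht hr hq.1⟩
  · rintro ⟨I, I'⟩ hp
    rw [Finset.mem_sigma, mem_wks, mem_wks] at hp
    have h2 := inter_left ht hr hp.1 hp.2
    have h3 : (I ∪ I') \ I = I' := by
      ext x
      simp only [Finset.mem_sdiff, Finset.mem_union]
      constructor
      · rintro ⟨h | h, h'⟩
        · exact absurd h h'
        · exact h
      · intro h
        exact ⟨Or.inr h, (Finset.mem_sdiff.mp (hp.2.1 h)).2⟩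
    simp only [h2, h3]
  · rintro ⟨W, F⟩ hq
    rw [Finset.mem_sigma, Finset.mem_powerset, mem_Pl] at hq
    have hFL : ∀ x ∈ F, x ∈ AL r (-w) W ∧ x ∈ AL r' (-w) W := fun x hx =>
      Finset.mem_inter.mp (hq.2 hx)
    have hsub : (W \ AL r' (-w) W) ∪ F ⊆ W := by
      apply Finset.union_subset Finset.sdiff_subset
      intro x hx
      exact AL_subset (hFL x hx).1
    have h2 : (W \ AL r' (-w) W) ∪ F ∪ (W \ ((W \ AL r' (-w) W) ∪ F)) = W :=
      Finset.union_sdiff_of_subset hsub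
    have h3 : ((W \ AL r' (-w) W) ∪ F) ∩ AL r' (-w) W = F := by
      ext x
      simp only [Finset.mem_inter, Finset.mem_union, Finset.mem_sdiff]
      constructor
      · rintro ⟨⟨-, h⟩ | h, h'⟩
        · exact absurd h' h
        · exact h
      · intro h
        exact ⟨Or.inr h, (hFL x h).2⟩
    simp only [h2, h3]
  · rintro ⟨I, I'⟩ hp
    rw [Finset.mem_sigma, mem_wks, mem_wks] at hp
    have h2 := inter_left ht hr hp.1 hp.2
    have hW : PlP r r' w U (I ∪ I') := mem_Pl.mp (pair_mem ht hr hp.1 hp.2)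
    have hF : I ∩ AL r' (-w) (I ∪ I') ⊆ Fr r r' w (I ∪ I') := by
      intro x hx
      rw [Finset.mem_inter] at hx
      exact Finset.mem_inter.mpr
        ⟨left_sub ht hr hp.1 (hp.2.1.trans Finset.sdiff_subset) hx.1, hx.2⟩
    have h3 : (I ∪ I') \ I = I' := by
      ext x
      simp only [Finset.mem_sdiff, Finset.mem_union]
      constructor
      · rintro ⟨h | h, h'⟩
        · exact absurd h h'
        · exact h
      · intro h
        exact ⟨Or.inr h, (Finset.mem_sdiff.mp (hp.2.1 h)).2⟩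
    obtain ⟨c1, c2⟩ := card_split ht hr hW hF
    rw [h2] at c1 c2
    rw [h3] at c2
    simp only
    rw [c1, c2, pow_add, pow_add]
    ring

theorem Jm_mem : Jm r w U ∈ Pl r r' w U := pair_mem ht hr (Wk_AL ht) (Wk_AL ht)

theorem subset_Jm {W : Finset P} (hW : PlP r r' w U W) : W ⊆ Jm r w U := by
  have h1 := split_left (F := ∅) ht hr hW (Finset.empty_subset _)
  have h2 := split_right (F := ∅) ht hr hW
  set I : Finset P := (W \ AL r' (-w) W) ∪ ∅ with hI
  have hIL : I ⊆ AL r (-w) U := Wk_subset_AL h1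
  intro x hx
  rw [Jm, Finset.mem_union]
  by_cases hxL : x ∈ AL r (-w) U
  · exact Or.inl hxL
  · right
    have hxI : x ∈ W \ I := Finset.mem_sdiff.mpr ⟨hx, fun h => hxL (hIL h)⟩
    have hxA := Wk_subset_AL h2 hxI
    rw [mem_AL] at hxA ⊢
    refine ⟨Finset.mem_sdiff.mpr ⟨hW.1 hx, hxL⟩, fun a ha b hb hab h => ?_⟩
    rw [Finset.mem_sdiff] at ha hb
    exact hxA.2 a (Finset.mem_sdiff.mpr ⟨ha.1, fun h => ha.2 (hIL h)⟩) b
      (Finset.mem_sdiff.mpr ⟨hb.1, fun h => hb.2 (hIL h)⟩) hab h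

theorem AL_mono_sub {q : P → P → Prop} {v : P → ℤ} {W V : Finset P} (h : W ⊆ V) :
    W \ AL q v W ⊆ V \ AL q v V := by
  intro x hx
  rw [Finset.mem_sdiff] at hx ⊢
  refine ⟨h hx.1, fun hx' => hx.2 ?_⟩
  rw [mem_AL] at hx' ⊢
  exact ⟨hx.1, fun a ha b hb => hx'.2 a (h ha) b (h hb)⟩

theorem card_eq {W : Finset P} (hW : PlP r r' w U W) :
    (W \ AL r' (-w) W).card + (W \ AL r (-w) W).card + (Fr r r' w W).card = W.card := by
  obtain ⟨h1, h2⟩ := card_split (F := ∅) ht hr hW (Finset.empty_subset _)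
  have h3 : (W \ AL r' (-w) W) ∪ ∅ ⊆ W := by
    rw [Finset.union_empty]
    exact Finset.sdiff_subset
  have h4 := Finset.card_sdiff_of_subset h3
  have h5 := Finset.card_le_card h3
  simp only [Finset.card_empty] at h1 h2
  omega

end comb

end Pool.Agent.Lib.MP_5bc52d_co.Key
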