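import Mathlib
import Pool.Agent.Lib.MP_5bc52d_co.Key.Word

/-!
# The two-letter value of a partition generating function: algebra
-/

open Finset Polynomial

set_option linter.unusedSectionVars false

namespace Pool.Agent.Lib.MP_5bc52d_co.Key

open Splitting Cyc Cut

variable {P : Type*} [Fintype P] [DecidableEq P] {A : Type*} [CommRing A]

/-- `φ` peels off initial parts, with sign `ε` -/
def PeelE (Γ : Finset P → A) (ε : A) (r : P → P → Prop) (w : P → ℤ) (φ : A →+* A[X]) : Prop :=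
  ∀ U, φ (Γ U) = ∑ I ∈ wks r w U, C (ε ^ I.card * Γ (U \ I)) * X ^ I.card

theorem PeelE.peel {Γ : Finset P → A} {ε : A} {r : P → P → Prop} {w : P → ℤ}
    {φ : A →+* A[X]} (hε : ε = 1 ∨ ε = -1) (h : PeelE Γ ε r w φ) : Peel Γ r w φ := ⟨ε, hε, h⟩

section
variable {Γ : Finset P → A} {ε : A} (hε : ε = 1 ∨ ε = -1) {r r' : P → P → Prop}
  (ht : ∀ x y z, r x y → r y z → r x z) (hr : ∀ x y, r' x y ↔ r y x) {w : P → ℤ}
  {φ ψ : A →+* A[X]} (hφ : PeelE Γ ε r (-w) φ) (hψ : PeelE Γ (-ε) r w ψ)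
include hε ht hr hφ hψ

theorem Psi_Gam (U : Finset P) :
    Psi φ ψ (Γ U) = ∑ W ∈ Pl r r' w U,
      C (C (Γ (U \ W) * (ε ^ (W \ AL r' (-w) W).card * ((-ε) ^ (W \ AL r (-w) W).card *
          (-ε) ^ (Fr r r' w W).card))) *
        ((X - 1) ^ (W \ AL r' (-w) W).card * X ^ (W \ AL r (-w) W).card)) * X ^ W.card := by
  have hψε : ψ ε = C ε := by
    rcases hε with h | h
    · rw [h, map_one, C_1]
    · rw [h, map_neg, map_one, C_neg, C_1]
  have h1 : Psi φ ψ (Γ U) = ∑ I ∈ wks r (-w) U, ∑ I' ∈ wks r w (U \ I),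
      C (C (Γ (U \ (I ∪ I')))) * ((C (C ε) * (C (X - 1) * X)) ^ I.card *
        (C (C (-ε)) * (C X * X)) ^ I'.card) := by
    rw [Psi_apply, hφ U, eval₂_finsetSum]
    apply Finset.sum_congr rfl
    intro I _
    rw [eval₂_mul, eval₂_C, eval₂_pow, eval₂_X, RingHom.comp_apply, map_mul, map_pow, hψε,
      hψ (U \ I), map_mul, map_pow, sig_C, map_sum, Finset.mul_sum, Finset.sum_mul]
    apply Finset.sum_congr rfl
    intro I' _
    rw [map_mul, map_pow, sig_C, sig_X, Finset.sdiff_sdiff_left', C_mul, C_mul, C_pow, C_pow]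
    have h2 : (U \ I) ∩ (U \ I') = U \ (I ∪ I') := by
      ext x
      simp only [Finset.mem_inter, Finset.mem_sdiff, Finset.mem_union]
      tauto
    rw [h2]
    ring
  rw [h1, sum_split ht hr (fun W => C (C (Γ (U \ W))))]
  apply Finset.sum_congr rfl
  intro W hW
  have h2 : (C (C ε) * (C (X - 1) * X) + C (C (-ε)) * (C X * X) : A[X][X]) =
      C (C (-ε)) * X := by
    simp only [C_sub, C_1, C_neg]
    ring
  rw [h2, ← card_eq ht hr (mem_Pl.mp hW)]
  simp only [C_mul, C_pow, mul_pow, pow_add]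
  ring

theorem Psi_Gam_natDegree (U : Finset P) :
    (Psi φ ψ (Γ U)).natDegree ≤ (Jm r w U).card := by
  rw [Psi_Gam hε ht hr hφ hψ U]
  apply natDegree_sum_le_of_forall_le
  intro W hW
  refine (natDegree_C_mul_X_pow_le _ _).trans ?_
  exact Finset.card_le_card (subset_Jm ht hr (mem_Pl.mp hW))

theorem Psi_Gam_coeff (U : Finset P) (k : ℕ) :
    ((Psi φ ψ (Γ U)).coeff k).natDegree ≤
      (Jm r w U \ AL r' (-w) (Jm r w U)).card + (Jm r w U \ AL r (-w) (Jm r w U)).card := by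
  rw [Psi_Gam hε ht hr hφ hψ U, finsetSum_coeff]
  apply natDegree_sum_le_of_forall_le
  intro W hW
  have hsub := subset_Jm ht hr (mem_Pl.mp hW)
  rw [coeff_C_mul_X_pow]
  split_ifs
  · refine (natDegree_C_mul_le _ _).trans ?_
    refine natDegree_mul_le.trans ?_
    have h1 : ((X - 1 : A[X]) ^ (W \ AL r' (-w) W).card).natDegree ≤ (W \ AL r' (-w) W).card := by
      refine natDegree_pow_le.trans ?_
      have : (X - 1 : A[X]).natDegree ≤ 1 := by
        rw [← C_1]
        exact natDegree_X_sub_C_le 1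
      calc (W \ AL r' (-w) W).card * (X - 1 : A[X]).natDegree
          ≤ (W \ AL r' (-w) W).card * 1 := Nat.mul_le_mul_left _ this
        _ = (W \ AL r' (-w) W).card := mul_one _
    have h2 : ((X : A[X]) ^ (W \ AL r (-w) W).card).natDegree ≤ (W \ AL r (-w) W).card :=
      natDegree_X_pow_le _
    have h3 := Finset.card_le_card (AL_mono_sub ht hr (q := r') (v := -w) hsub)
    have h4 := Finset.card_le_card (AL_mono_sub ht hr (q := r) (v := -w) hsub)
    omega
  · rw [natDegree_zero]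
    omega

theorem Psi_Gam_top (U : Finset P) : ∃ κ : A, Associated κ (Γ (U \ Jm r w U)) ∧
    (Psi φ ψ (Γ U)).coeff (Jm r w U).card = C κ *
      ((X - 1) ^ (Jm r w U \ AL r' (-w) (Jm r w U)).card *
        X ^ (Jm r w U \ AL r (-w) (Jm r w U)).card) := by
  have hεu : IsUnit ε := by
    rcases hε with rfl | rfl
    · exact isUnit_one
    · exact isUnit_one.neg
  refine ⟨Γ (U \ Jm r w U) * (ε ^ (Jm r w U \ AL r' (-w) (Jm r w U)).card *
    ((-ε) ^ (Jm r w U \ AL r (-w) (Jm r w U)).card *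
      (-ε) ^ (Fr r r' w (Jm r w U)).card)), ?_, ?_⟩
  rotate_left
  · rw [Psi_Gam hε ht hr hφ hψ U, finsetSum_coeff, Finset.sum_eq_single (Jm r w U)]
    · rw [coeff_C_mul_X_pow, if_pos rfl]
    · intro W hW hne
      rw [coeff_C_mul_X_pow, if_neg]
      intro h1
      apply hne
      exact Finset.eq_of_subset_of_card_le (subset_Jm ht hr (mem_Pl.mp hW)) h1.le
    · intro h1
      exact absurd (Jm_mem ht hr) h1
  · exact associated_mul_unit_left _ _
      ((hεu.pow _).mul ((hεu.neg.pow _).mul (hεu.neg.pow _)))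

end

end Pool.Agent.Lib.MP_5bc52d_co.Key
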