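import Mathlib
import Pool.Agent.Lib.MP_5bc52d_co.Gen

/-!
# Signed sums over the down-closed subsets of a forest
-/

open Finset

set_option linter.unusedSectionVars false

namespace Pool.Agent.Lib.MP_5bc52d_co.Key

variable {P : Type*} [Fintype P] [DecidableEq P]

open Classical in
/-- the down-closed subsets of `L` containing `D` -/
noncomputable def dsets (r : P → P → Prop) (L D : Finset P) : Finset (Finset P) :=
  L.powerset.filter (fun I => D ⊆ I ∧ ∀ a ∈ L, ∀ b ∈ I, r a b → a ∈ I)

theorem mem_dsets {r : P → P → Prop} {L D I : Finset P} :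
    I ∈ dsets r L D ↔ I ⊆ L ∧ D ⊆ I ∧ ∀ a ∈ L, ∀ b ∈ I, r a b → a ∈ I := by
  classical
  rw [dsets, Finset.mem_filter, Finset.mem_powerset]

/-- no element has two upper covers inside `L` -/
def OneUp (r : P → P → Prop) (L : Finset P) : Prop :=
  ∀ x ∈ L, ∀ y ∈ L, ∀ z ∈ L, r x y → r x z → (∀ t ∈ L, r x t → ¬ r t y) →
    (∀ t ∈ L, r x t → ¬ r t z) → y = z

section
variable {r : P → P → Prop} (ht : ∀ x y z, r x y → r y z → r x z) (hi : ∀ x, ¬ r x x)
include ht hi

theorem exists_cov {L : Finset P} {x y : P} (hy : y ∈ L) (hxy : r x y) :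
    ∃ p ∈ L, r x p ∧ (p = y ∨ r p y) ∧ ∀ t ∈ L, r x t → ¬ r t p := by
  have : IsTrans P r := ⟨ht⟩
  have : Std.Irrefl r := ⟨hi⟩
  have hwf : WellFounded r := Finite.wellFounded_of_trans_of_irrefl _
  obtain ⟨p, ⟨hp1, hp2, hp3⟩, hp4⟩ :=
    hwf.has_min {p : P | p ∈ L ∧ r x p ∧ (p = y ∨ r p y)} ⟨y, hy, hxy, Or.inl rfl⟩
  refine ⟨p, hp1, hp2, hp3, fun t htL hxt htp => ?_⟩
  refine hp4 t ⟨htL, hxt, ?_⟩ htp
  rcases hp3 with h | h
  · exact Or.inr (h ▸ htp)
  · exact Or.inr (ht _ _ _ htp h)

theorem exists_parent {L : Finset P} (hL : OneUp r L) {x : P} (hx : x ∈ L)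
    (h : ∃ y ∈ L, r x y) : ∃ p ∈ L, r x p ∧ ∀ y ∈ L, r x y → (p = y ∨ r p y) := by
  obtain ⟨y, hy, hxy⟩ := h
  obtain ⟨p, hp, hxp, -, hpc⟩ := exists_cov ht hi hy hxy
  refine ⟨p, hp, hxp, fun z hz hxz => ?_⟩
  obtain ⟨q, hq, hxq, hqz, hqc⟩ := exists_cov ht hi hz hxz
  have : p = q := hL x hx p hp q hq hxp hxq hpc hqc
  rw [this]
  exact hqz

theorem exists_bot {L : Finset P} (hL : L.Nonempty) : ∃ x ∈ L, ∀ t ∈ L, ¬ r t x := by
  have : IsTrans P r := ⟨ht⟩
  have : Std.Irrefl r := ⟨hi⟩
  have hwf : WellFounded r := Finite.wellFounded_of_trans_of_irrefl _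
  obtain ⟨x, hx, hx'⟩ := hwf.has_min {x : P | x ∈ L} hL
  exact ⟨x, hx, fun t htL => hx' t htL⟩

omit ht hi in
/-- removing a minimal element of `D` -/
theorem sum_erase {L D : Finset P} {x : P} (hxL : x ∈ L) (hmin : ∀ t ∈ L, ¬ r t x)
    (hxD : x ∈ D) :
    ∑ I ∈ dsets r L D, (-1 : ℤ) ^ I.card =
      - ∑ I ∈ dsets r (L.erase x) (D.erase x), (-1 : ℤ) ^ I.card := by
  rw [← Finset.sum_neg_distrib]
  refine Finset.sum_bij' (fun I _ => I.erase x) (fun I _ => insert x I) ?_ ?_ ?_ ?_ ?_
  · intro I hI
    rw [mem_dsets] at hI ⊢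
    refine ⟨Finset.erase_subset_erase x hI.1, Finset.erase_subset_erase x hI.2.1,
      fun a ha b hb hab => ?_⟩
    rw [Finset.mem_erase] at ha hb ⊢
    exact ⟨ha.1, hI.2.2 a ha.2 b hb.2 hab⟩
  · intro I hI
    rw [mem_dsets] at hI ⊢
    refine ⟨?_, ?_, fun a ha b hb hab => ?_⟩
    · intro y hy
      rcases Finset.mem_insert.mp hy with h | h
      · exact h ▸ hxL
      · exact (Finset.mem_erase.mp (hI.1 h)).2
    · intro y hy
      rw [Finset.mem_insert]
      by_cases h : y = x
      · exact Or.inl h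
      · exact Or.inr (hI.2.1 (Finset.mem_erase.mpr ⟨h, hy⟩))
    · rw [Finset.mem_insert] at hb ⊢
      by_cases h : a = x
      · exact Or.inl h
      · right
        rcases hb with hb | hb
        · exact absurd (hb ▸ hab) (hmin a ha)
        · exact hI.2.2 a (Finset.mem_erase.mpr ⟨h, ha⟩) b hb hab
  · intro I hI
    rw [mem_dsets] at hI
    exact Finset.insert_erase (hI.2.1 hxD)
  · intro I hI
    rw [mem_dsets] at hI
    exact Finset.erase_insert (fun h => (Finset.mem_erase.mp (hI.1 h)).1 rfl)
  · intro I hI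
    rw [mem_dsets] at hI
    have h1 := Finset.card_erase_add_one (hI.2.1 hxD)
    rw [← h1, pow_succ]
    ring

omit ht hi in
/-- the sets which do not meet the part above a minimal `x ∉ D` cancel -/
theorem sum_toggle {L D : Finset P} {x : P} (hxL : x ∈ L) (hmin : ∀ t ∈ L, ¬ r t x)
    (hxD : x ∉ D) (S : Finset (Finset P))
    (hS : ∀ I, I ∈ S ↔ I ∈ dsets r L D ∧ ∀ y ∈ I, ¬ r x y) :
    ∑ I ∈ S, (-1 : ℤ) ^ I.card = 0 := by
  refine Finset.sum_involution (fun I _ => if x ∈ I then I.erase x else insert x I) ?_ ?_ ?_ ?_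
  · intro I hI
    by_cases h : x ∈ I
    · simp only [if_pos h]
      rw [← Finset.card_erase_add_one h, pow_succ]
      ring
    · simp only [if_neg h]
      rw [Finset.card_insert_of_notMem h, pow_succ]
      ring
  · intro I hI _
    by_cases h : x ∈ I
    · simp only [if_pos h]
      intro h1
      rw [← h1] at h
      exact (Finset.mem_erase.mp h).1 rfl
    · simp only [if_neg h]
      intro h1
      rw [← h1] at h
      exact h (Finset.mem_insert_self x I)
  · intro I hI
    have hI' := (hS I).mp hI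
    rw [mem_dsets] at hI'
    obtain ⟨⟨h1, h2, h3⟩, h4⟩ := hI'
    rw [hS, mem_dsets]
    by_cases h : x ∈ I
    · simp only [if_pos h]
      refine ⟨⟨fun y hy => h1 (Finset.mem_erase.mp hy).2, fun y hy => ?_,
        fun a ha b hb hab => ?_⟩, fun y hy => h4 y (Finset.mem_erase.mp hy).2⟩
      · exact Finset.mem_erase.mpr ⟨fun h5 => hxD (h5 ▸ hy), h2 hy⟩
      · rw [Finset.mem_erase] at hb ⊢
        refine ⟨fun h5 => ?_, h3 a ha b hb.2 hab⟩
        exact h4 b hb.2 (h5 ▸ hab)
    · simp only [if_neg h]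
      refine ⟨⟨fun y hy => ?_, fun y hy => Finset.mem_insert_of_mem (h2 hy),
        fun a ha b hb hab => ?_⟩, fun y hy => ?_⟩
      · rcases Finset.mem_insert.mp hy with h5 | h5
        · exact h5 ▸ hxL
        · exact h1 h5
      · rcases Finset.mem_insert.mp hb with h5 | h5
        · exact absurd (h5 ▸ hab) (hmin a ha)
        · exact Finset.mem_insert_of_mem (h3 a ha b h5 hab)
      · rcases Finset.mem_insert.mp hy with h5 | h5
        · rw [h5]
          exact hmin x hxL
        · exact h4 y h5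
  · intro I hI
    by_cases h : x ∈ I
    · simp only [if_pos h, Finset.notMem_erase, if_false]
      exact Finset.insert_erase h
    · simp only [if_neg h, Finset.mem_insert_self, if_true]
      exact Finset.erase_insert h

theorem forest_sum (n : ℕ) : ∀ (L D : Finset P), L.card = n → D ⊆ L → OneUp r L →
    ∃ s : ℤ, (s = 0 ∨ s = 1) ∧ ∑ I ∈ dsets r L D, (-1 : ℤ) ^ I.card = (-1) ^ L.card * s := by
  classical
  induction n with
  | zero =>
    intro L D hL hD _
    have hL' : L = ∅ := Finset.card_eq_zero.mp hL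
    subst hL'
    have hD' : D = ∅ := Finset.subset_empty.mp hD
    subst hD'
    refine ⟨1, Or.inr rfl, ?_⟩
    have h1 : dsets r (∅ : Finset P) ∅ = {∅} := by
      ext I
      rw [mem_dsets, Finset.mem_singleton]
      constructor
      · exact fun h => Finset.subset_empty.mp h.1
      · rintro rfl
        exact ⟨Finset.Subset.refl _, Finset.Subset.refl _,
          fun a ha => absurd ha (Finset.notMem_empty a)⟩
    rw [h1]
    simp
  | succ n ih =>
    intro L D hL hD hone
    have hne : L.Nonempty := Finset.card_pos.mp (by omega)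
    obtain ⟨x, hxL, hmin⟩ := exists_bot ht hi hne
    have hone' : OneUp r (L.erase x) := by
      intro a ha y hy z hz hay haz hyc hzc
      refine hone a (Finset.mem_erase.mp ha).2 y (Finset.mem_erase.mp hy).2 z
        (Finset.mem_erase.mp hz).2 hay haz ?_ ?_
      · intro t htL hat
        refine hyc t (Finset.mem_erase.mpr ⟨?_, htL⟩) hat
        rintro rfl
        exact hmin a (Finset.mem_erase.mp ha).2 hat
      · intro t htL hat
        refine hzc t (Finset.mem_erase.mpr ⟨?_, htL⟩) hat
        rintro rfl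
        exact hmin a (Finset.mem_erase.mp ha).2 hat
    have hcard : (L.erase x).card = n := by
      rw [Finset.card_erase_of_mem hxL, hL]
      omega
    have hstep : ∀ D' : Finset P, D' ⊆ L → x ∈ D' → ∃ s : ℤ, (s = 0 ∨ s = 1) ∧
        ∑ I ∈ dsets r L D', (-1 : ℤ) ^ I.card = (-1) ^ L.card * s := by
      intro D' hD' hxD'
      obtain ⟨s, hs, hs'⟩ := ih (L.erase x) (D'.erase x) hcard
        (Finset.erase_subset_erase x hD') hone'
      refine ⟨s, hs, ?_⟩
      rw [sum_erase hxL hmin hxD', hs', hcard, hL, pow_succ]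
      ring
    by_cases hxD : x ∈ D
    · exact hstep D hD hxD
    · have hsplit : ∑ I ∈ dsets r L D, (-1 : ℤ) ^ I.card =
          ∑ I ∈ (dsets r L D).filter (fun I => ∃ y ∈ I, r x y), (-1 : ℤ) ^ I.card +
            ∑ I ∈ (dsets r L D).filter (fun I => ¬ ∃ y ∈ I, r x y), (-1 : ℤ) ^ I.card :=
        (Finset.sum_filter_add_sum_filter_not _ _ _).symm
      have hzero : ∑ I ∈ (dsets r L D).filter (fun I => ¬ ∃ y ∈ I, r x y),
          (-1 : ℤ) ^ I.card = 0 := by
        apply sum_toggle hxL hmin hxD
        intro I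
        rw [Finset.mem_filter]
        refine and_congr_right fun _ => ?_
        push Not
        rfl
      rw [hsplit, hzero, add_zero]
      by_cases hup : ∃ y ∈ L, r x y
      · obtain ⟨p, hpL, hxp, hp⟩ := exists_parent ht hi hone hxL hup
        have heq : (dsets r L D).filter (fun I => ∃ y ∈ I, r x y) =
            dsets r L (insert x (insert p D)) := by
          ext I
          rw [Finset.mem_filter, mem_dsets, mem_dsets]
          constructor
          · rintro ⟨⟨h1, h2, h3⟩, y, hyI, hxy⟩
            have hpI : p ∈ I := by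
              rcases hp y (h1 hyI) hxy with h | h
              · exact h ▸ hyI
              · exact h3 p hpL y hyI h
            refine ⟨h1, ?_, h3⟩
            intro z hz
            rcases Finset.mem_insert.mp hz with h | h
            · exact h ▸ h3 x hxL p hpI hxp
            · rcases Finset.mem_insert.mp h with h | h
              · exact h ▸ hpI
              · exact h2 h
          · rintro ⟨h1, h2, h3⟩
            refine ⟨⟨h1, fun z hz => h2 ?_, h3⟩, p, h2 ?_, hxp⟩
            · exact Finset.mem_insert_of_mem (Finset.mem_insert_of_mem hz)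
            · exact Finset.mem_insert_of_mem (Finset.mem_insert_self p D)
        rw [heq]
        apply hstep
        · intro z hz
          rcases Finset.mem_insert.mp hz with h | h
          · exact h ▸ hxL
          · rcases Finset.mem_insert.mp h with h | h
            · exact h ▸ hpL
            · exact hD h
        · exact Finset.mem_insert_self x _
      · refine ⟨0, Or.inl rfl, ?_⟩
        rw [Finset.filter_false_of_mem, Finset.sum_empty, mul_zero]
        intro I hI h
        obtain ⟨y, hyI, hxy⟩ := h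
        exact hup ⟨y, (mem_dsets.mp hI).1 hyI, hxy⟩

omit ht hi in
theorem sum_self (L : Finset P) :
    ∑ I ∈ dsets r L L, (-1 : ℤ) ^ I.card = (-1) ^ L.card := by
  have h1 : dsets r L L = {L} := by
    ext I
    rw [mem_dsets, Finset.mem_singleton]
    constructor
    · exact fun h => Finset.Subset.antisymm h.1 h.2.1
    · rintro rfl
      exact ⟨Finset.Subset.refl _, Finset.Subset.refl _, fun a ha _ _ _ => ha⟩
  rw [h1, Finset.sum_singleton]

end

end Pool.Agent.Lib.MP_5bc52d_co.Key
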