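import Mathlib
import Pool.Agent.Lib.MP_5bc52d_co.Cut.Inst
import Pool.Agent.Lib.MP_5bc52d_co.Key.Forest
import Pool.Agent.Lib.MP_5bc52d_co.Key.PsiG

/-!
# The value at `c(-T) g` is nonzero when the initial part is a forest
-/

open Finset Polynomial

set_option linter.unusedSectionVars false

namespace Pool.Agent.Lib.MP_5bc52d_co.Key

open Splitting Cyc Cut

variable {P : Type*} [Fintype P] [DecidableEq P] [PartialOrder P]

theorem coeff_GP_all (S : Finset P) (m : ℕ →₀ ℕ) (p : (P → ℕ) → Prop) (hp : ∀ f, p f) :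
    MvPowerSeries.coeff m (GP S p) = ((maps S m).card : ℚ) := by
  classical
  rw [coeff_GP]
  congr 2
  exact Finset.filter_true_of_mem (fun f _ => hp f)

theorem coeff_GP_true (S : Finset P) (m : ℕ →₀ ℕ) :
    MvPowerSeries.coeff m (GP S (fun _ => True)) = ((maps S m).card : ℚ) :=
  coeff_GP_all S m _ (fun _ => trivial)

/-- all maps on one element -/
theorem GP_one_eq (x y : P) : GP {x} (fun _ : P → ℕ => True) = GP {y} (fun _ => True) := by
  ext m
  rw [coeff_GP_true, coeff_GP_true]
  congr 1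
  have key : ∀ (a b : P) (f : P → ℕ), f ∈ maps {a} m →
      (fun v => if v = b then f a else 0) ∈ maps {b} m := by
    intro a b f hf
    rw [mem_maps] at hf ⊢
    refine ⟨fun v hv => ?_, ?_⟩
    · rw [if_neg (fun h => hv (Finset.mem_singleton.mpr h))]
    · rw [← hf.2, ct, ct, Finset.sum_singleton, Finset.sum_singleton, if_pos rfl]
  refine Finset.card_bij' (fun f _ => fun v => if v = y then f x else 0)
    (fun f _ => fun v => if v = x then f y else 0) (fun f hf => key x y f hf)
    (fun f hf => key y x f hf) ?_ ?_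
  · intro f hf
    rw [mem_maps] at hf
    funext v
    by_cases hv : v = x
    · simp [hv]
    · simp only [if_neg hv]
      exact (hf.1 v (fun h => hv (Finset.mem_singleton.mp h))).symm
  · intro f hf
    rw [mem_maps] at hf
    funext v
    by_cases hv : v = y
    · simp [hv]
    · simp only [if_neg hv]
      exact (hf.1 v (fun h => hv (Finset.mem_singleton.mp h))).symm

theorem GP_true (x : P) (I : Finset P) :
    GP I (fun _ : P → ℕ => True) = GP {x} (fun _ => True) ^ I.card := by
  induction I using Finset.induction_on with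
  | empty =>
    rw [Finset.card_empty, pow_zero]
    ext m
    rw [coeff_GP_true, MvPowerSeries.coeff_one]
    have h1 : maps (∅ : Finset P) m = if m = 0 then {fun _ => 0} else ∅ := by
      ext f
      rw [mem_maps]
      split_ifs with h
      · rw [Finset.mem_singleton]
        constructor
        · intro hf
          funext v
          exact hf.1 v (Finset.notMem_empty v)
        · rintro rfl
          exact ⟨fun _ _ => rfl, by rw [h]; rfl⟩
      · constructor
        · intro hf
          exact absurd hf.2.symm h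
        · intro hf
          exact absurd hf (Finset.notMem_empty f)
    rw [h1]
    split_ifs <;> simp
  | insert a I ha ih =>
    rw [Finset.card_insert_of_notMem ha, pow_succ, mul_comm, ← ih, ← GP_one_eq a x,
      Finset.insert_eq]
    exact GP_mul (Finset.disjoint_singleton_left.mpr ha) (fun _ _ _ => Iff.rfl)
      (fun _ _ _ => Iff.rfl) (fun _ => by simp)

theorem Gam_one (ω : P → ℕ) (x : P) : Gam ω {x} = GP {x} (fun _ => True) := by
  rw [Gam_eq_GP]
  apply GP_congr
  intro f
  refine ⟨fun _ => trivial, fun _ a ha b hb hab => ?_⟩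
  rw [Finset.mem_singleton] at ha hb
  exact absurd hab (by rw [ha, hb]; exact lt_irrefl x)

theorem pow_mul_Gam (ω : P → ℕ) (x : P) {U I : Finset P} (hI : I ⊆ U) :
    Gam ω {x} ^ I.card * Gam ω (U \ I) = GP U (Par ω (U \ I)) := by
  rw [Gam_one, ← GP_true x I, Gam_eq_GP]
  conv_rhs => rw [← Finset.union_sdiff_of_subset hI]
  symm
  rw [Finset.union_sdiff_of_subset hI]
  conv_lhs => rw [← Finset.union_sdiff_of_subset hI]
  have h1 : I ∪ (U \ I) = U := Finset.union_sdiff_of_subset hI
  have h2 := GP_mul (S₁ := I) (S₂ := U \ I) Finset.disjoint_sdiff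
    (P := Par ω (U \ I)) (P₁ := fun _ => True) (P₂ := Par ω (U \ I))
    (fun _ _ _ => Iff.rfl) (Par_on ω _) (fun f => by simp)
  rw [h1] at h2 ⊢
  exact h2

/-- the values violating the conditions above the elements of `U` -/
theorem cert_coeff (ω : P → ℕ) (x : P) {r : P → P → Prop}
    (ht : ∀ x y z, r x y → r y z → r x z) (hi : ∀ x, ¬ r x x)
    {v : P → ℤ} (Ok : (P → ℕ) → P → P → Prop)
    (hOk : ∀ V f, Par ω V f ↔ ∀ a ∈ V, ∀ b ∈ V, r a b → Ok f a b) (U : Finset P)
    (hone : OneUp r (AL r v U))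
    (hbad : ∃ f : P → ℕ, (∀ a ∈ U \ AL r v U, ∀ b ∈ U \ AL r v U, r a b → Ok f a b) ∧
      ∀ a ∈ AL r v U, ∃ b ∈ U, r a b ∧ ¬ Ok f a b) :
    ∑ I ∈ wks r v U, (-1 : R) ^ I.card * (Gam ω {x} ^ I.card * Gam ω (U \ I)) ≠ 0 := by
  classical
  set L := AL r v U with hL
  set D : (P → ℕ) → Finset P := fun f => U.filter (fun a => ∃ b ∈ U, r a b ∧ ¬ Ok f a b) with hD
  have hW : ∀ I, I ∈ wks r v U ↔ I ⊆ L ∧ ∀ a ∈ L, ∀ b ∈ I, r a b → a ∈ I := by
    intro I
    rw [mem_wks]
    constructor
    · intro h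
      exact ⟨Wk_subset_AL h, fun a ha b hb hab => (h.2 a (AL_subset ha) b hb hab).1⟩
    · rintro ⟨h1, h2⟩
      refine ⟨h1.trans AL_subset, fun a ha b hb hab => ?_⟩
      have h3 := (Wk_AL ht).2 a ha b (h1 hb) hab
      exact ⟨h2 a h3.1 b hb hab, h3.2⟩
  -- the sets allowed by a map
  have hpar : ∀ f I, I ∈ wks r v U → (Par ω (U \ I) f ↔ D f ⊆ I) := by
    intro f I hI
    rw [mem_wks] at hI
    rw [hOk]
    constructor
    · intro h a ha
      rw [hD, Finset.mem_filter] at ha
      obtain ⟨haU, b, hbU, hab, hbad⟩ := ha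
      by_contra haI
      apply hbad
      refine h a (Finset.mem_sdiff.mpr ⟨haU, haI⟩) b (Finset.mem_sdiff.mpr ⟨hbU, ?_⟩) hab
      exact fun hbI => haI (hI.2 a haU b hbI hab).1
    · intro h a ha b hb hab
      by_contra hbad
      rw [Finset.mem_sdiff] at ha hb
      exact ha.2 (h (Finset.mem_filter.mpr ⟨ha.1, b, hb.1, hab, hbad⟩))
  have hfil : ∀ f, (wks r v U).filter (fun I => Par ω (U \ I) f) =
      (wks r v U).filter (fun I => D f ⊆ I) := by
    intro f
    apply Finset.filter_congr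
    intro I hI
    exact hpar f I hI
  have hval : ∀ f, ∃ s : ℤ, (s = 0 ∨ s = 1) ∧
      ∑ I ∈ (wks r v U).filter (fun I => Par ω (U \ I) f), (-1 : ℤ) ^ I.card =
        (-1) ^ L.card * s := by
    intro f
    rw [hfil]
    by_cases hDL : D f ⊆ L
    · have h1 : (wks r v U).filter (fun I => D f ⊆ I) = dsets r L (D f) := by
        ext I
        rw [Finset.mem_filter, hW, mem_dsets]
        tauto
      rw [h1]
      exact forest_sum ht hi _ L (D f) rfl hDL hone
    · refine ⟨0, Or.inl rfl, ?_⟩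
      rw [Finset.filter_false_of_mem, Finset.sum_empty, mul_zero]
      intro I hI h
      exact hDL (h.trans ((hW I).mp hI).1)
  choose s hs01 hs using hval
  obtain ⟨f₀, hf1, hf2⟩ := hbad
  -- make the map vanish outside `U`
  set f₁ : P → ℕ := fun v => if v ∈ U then f₀ v else 0 with hf₁
  have hone₁ : ∑ I ∈ (wks r v U).filter (fun I => Par ω (U \ I) f₁), (-1 : ℤ) ^ I.card =
      (-1) ^ L.card := by
    have h0 : ∀ I ∈ wks r v U, (Par ω (U \ I) f₁ ↔ Par ω (U \ I) f₀) := by
      intro I _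
      apply Par_on
      intro a ha
      rw [hf₁]
      exact if_pos (Finset.mem_sdiff.mp ha).1
    have h1 : (wks r v U).filter (fun I => Par ω (U \ I) f₁) =
        (wks r v U).filter (fun I => D f₀ ⊆ I) := by
      apply Finset.filter_congr
      intro I hI
      rw [h0 I hI, hpar f₀ I hI]
    have h2 : D f₀ = L := by
      ext a
      rw [hD, Finset.mem_filter]
      constructor
      · rintro ⟨haU, b, hbU, hab, hbad⟩
        by_contra haL
        apply hbad
        refine hf1 a (Finset.mem_sdiff.mpr ⟨haU, haL⟩) b (Finset.mem_sdiff.mpr ⟨hbU, ?_⟩) hab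
        exact fun hbL => haL ((Wk_AL ht).2 a haU b hbL hab).1
      · intro haL
        exact ⟨AL_subset haL, hf2 a haL⟩
    rw [h1, h2]
    have h3 : (wks r v U).filter (fun I => L ⊆ I) = dsets r L L := by
      ext I
      rw [Finset.mem_filter, hW, mem_dsets]
      tauto
    rw [h3, sum_self]
  have hs1 : s f₁ = 1 := by
    have h1 := hs f₁
    rw [hone₁] at h1
    have h2 : ((-1 : ℤ) ^ L.card) ≠ 0 := pow_ne_zero _ (by norm_num)
    have h3 : (-1 : ℤ) ^ L.card * 1 = (-1) ^ L.card * s f₁ := by rw [mul_one]; exact h1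
    exact (mul_left_cancel₀ h2 h3).symm
  intro h0
  set m := ct U f₁ with hm
  have h1 := congrArg (MvPowerSeries.coeff m) h0
  rw [map_sum, map_zero] at h1
  have h2 : ∀ I ∈ wks r v U, MvPowerSeries.coeff m
      ((-1 : R) ^ I.card * (Gam ω {x} ^ I.card * Gam ω (U \ I))) =
      ∑ f ∈ maps U m, if Par ω (U \ I) f then (((-1 : ℤ) ^ I.card : ℤ) : ℚ) else 0 := by
    intro I hI
    rw [pow_mul_Gam ω x (mem_wks.mp hI).1]
    have h3 : ((-1 : R) ^ I.card) = MvPowerSeries.C (((-1 : ℚ) ^ I.card)) := by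
      rw [map_pow, map_neg, map_one]
    rw [h3, MvPowerSeries.coeff_C_mul, coeff_GP, ← Finset.sum_filter, Finset.sum_const,
      nsmul_eq_mul]
    push_cast
    rw [mul_comm]
  rw [Finset.sum_congr rfl h2, Finset.sum_comm] at h1
  have h4 : ∀ f ∈ maps U m, (∑ I ∈ wks r v U,
      if Par ω (U \ I) f then (((-1 : ℤ) ^ I.card : ℤ) : ℚ) else 0) =
        (-1 : ℚ) ^ L.card * (s f : ℚ) := by
    intro f _
    rw [← Finset.sum_filter, ← Int.cast_sum, hs f]
    push_cast
    rfl
  rw [Finset.sum_congr rfl h4, ← Finset.mul_sum] at h1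
  have h5 : ((-1 : ℚ) ^ L.card) ≠ 0 := pow_ne_zero _ (by norm_num)
  have h6 := (mul_eq_zero.mp h1).resolve_left h5
  have h7 : ∀ f ∈ maps U m, (0 : ℚ) ≤ (s f : ℚ) := by
    intro f _
    rcases hs01 f with h | h
    · rw [h]; simp
    · rw [h]; simp
  rw [Finset.sum_eq_zero_iff_of_nonneg h7] at h6
  have h8 : f₁ ∈ maps U m := by
    rw [mem_maps]
    refine ⟨fun v hv => ?_, rfl⟩
    rw [hf₁]
    exact if_neg hv
  have h9 := h6 f₁ h8
  rw [hs1] at h9
  simp at h9

end Pool.Agent.Lib.MP_5bc52d_co.Key
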