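import Mathlib
import Pool.Agent.Lib.MP_5bc52d_co.Cut.Base
import Pool.Agent.Lib.MP_5bc52d_co.Key.Cert

/-!
# Two letters: the irreducibility rule
-/

open Finset Polynomial

set_option linter.unusedSectionVars false

namespace Pool.Agent.Lib.MP_5bc52d_co.Key

open Splitting Cyc Cut

section side
variable {P : Type*} [Fintype P] [DecidableEq P]
variable {Q : Subring R} (hQ : ∀ F : R, F ∈ Q ↔ IsQS F)

include hQ in
theorem natDegree_hom_le {φ : Q →+* Q[X]} (gφ : Graded Q φ) {b : ℕ} {f : Q}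
    (hf : f ∈ homQ Q b) : (φ f).natDegree ≤ b := by
  rw [natDegree_le_iff_coeff_eq_zero]
  intro k hk
  exact (gφ b f hf k).2 hk

include hQ in
theorem lead_coeff {φ : Q →+* Q[X]} (gφ : Graded Q φ) {b : ℕ} {f : Q} (hf : f ∈ homQ Q b)
    (hu : IsUnit (φ f).leadingCoeff) : IsUnit ((φ f).coeff b) := by
  have hD : IsDomain R := NoZeroDivisors.to_isDomain R
  have hDQ : IsDomain Q := inferInstance
  have hk := natDegree_hom_le hQ gφ hf
  have h1 := (gφ b f hf _).1 hk
  have h2 : b - (φ f).natDegree = 0 :=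
    homQ_unique hu.ne_zero h1 (isUnit_mem_homQ hQ hu)
  have h3 : (φ f).natDegree = b := by omega
  rw [leadingCoeff, h3] at hu
  exact hu

include hQ in
/-- the Psi degree of a homogeneous element -/
theorem Psi_hom_le {φ ψ : Q →+* Q[X]} (gφ : Graded Q φ) (gψ : Graded Q ψ) {b : ℕ} {f : Q}
    (hf : f ∈ homQ Q b) : (Psi φ ψ f).natDegree ≤ b := by
  apply natDegree_Psi_le (natDegree_hom_le hQ gφ hf)
  intro i hi
  exact natDegree_hom_le hQ gψ ((gφ b f hf i).1 hi)

variable {Γ : Finset P → Q} (hΓ : ∀ U, Γ U ≠ 0) (hhom : ∀ U, Γ U ∈ homQ Q U.card)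
  {r r' : P → P → Prop} (ht : ∀ x y z, r x y → r y z → r x z) (hr : ∀ x y, r' x y ↔ r y x)
  {v : P → ℤ} {φ ψ : Q →+* Q[X]} {ε : Q} (hε : ε = 1 ∨ ε = -1)
  (hφ : PeelE Γ ε r (-v) φ) (hψ : PeelE Γ (-ε) r v ψ)
  (φ0 : ∀ f, (φ f).coeff 0 = f) (ψ0 : ∀ f, (ψ f).coeff 0 = f)
  (gφ : Graded Q φ) (gψ : Graded Q ψ)
include hQ hΓ hhom ht hr hε hφ hψ φ0 ψ0 gφ gψ

omit hhom in
/-- both letters are detected by the same factor -/
theorem flat_hom {U : Finset P} {G H : Q} (hK : Γ U = G * H) {b : ℕ} (hH : H ∈ homQ Q b)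
    (hu0 : IsUnit ((φ H).coeff b)) (hu1 : IsUnit ((ψ H).coeff b)) (k : ℕ) :
    ((Psi φ ψ H).coeff k).natDegree = 0 := by
  have hD : IsDomain R := NoZeroDivisors.to_isDomain R
  have hDQ : IsDomain Q := inferInstance
  obtain ⟨κ, hκ, htop⟩ := Psi_Gam_top hε ht hr hφ hψ U
  have hκ0 : κ ≠ 0 := fun h => hΓ (U \ Jm r v U) (by
    obtain ⟨u, hu⟩ := hκ
    rw [← hu, h, zero_mul])
  exact key_flat φ0 ψ0 hK hκ0 (Psi_Gam_natDegree hε ht hr hφ hψ U) htop
    (Psi_Gam_coeff hε ht hr hφ hψ U) (Psi_hom_le hQ gφ gψ hH) hu0 hu1 k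

/-- the letters are detected by different factors -/
theorem Jm_eq {U : Finset P} {G H : Q} (hK : Γ U = G * H) {a b : ℕ} (hG : G ∈ homQ Q a)
    (hH : H ∈ homQ Q b) (hu0 : IsUnit ((φ G).coeff a)) (hu1 : IsUnit ((ψ H).coeff b)) :
    Jm r v U = U := by
  have hD : IsDomain R := NoZeroDivisors.to_isDomain R
  have hDQ : IsDomain Q := inferInstance
  have h1 : a ≤ (Psi φ ψ G).natDegree := by
    apply le_natDegree_of_ne_zero
    intro h
    have h2 := (coeff_Psi_eval (b := a) φ0 ψ0 (H := G)).1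
    rw [h, eval_zero] at h2
    exact mul_ne_zero (pow_ne_zero _ (neg_ne_zero.mpr one_ne_zero)) hu0.ne_zero h2.symm
  have h2 : b ≤ (Psi φ ψ H).natDegree := by
    apply le_natDegree_of_ne_zero
    intro h
    have h2 := (coeff_Psi_eval (b := b) φ0 ψ0 (H := H)).2
    rw [h, eval_zero] at h2
    exact hu1.ne_zero h2.symm
  have hG0 : Psi φ ψ G ≠ 0 := by
    intro h
    have h2 := (coeff_Psi_eval (b := a) φ0 ψ0 (H := G)).1
    rw [h, coeff_zero, eval_zero] at h2
    exact mul_ne_zero (pow_ne_zero _ (neg_ne_zero.mpr one_ne_zero)) hu0.ne_zero h2.symm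
  have hH0 : Psi φ ψ H ≠ 0 := by
    intro h
    have h2 := (coeff_Psi_eval (b := b) φ0 ψ0 (H := H)).2
    rw [h, coeff_zero, eval_zero] at h2
    exact hu1.ne_zero h2.symm
  have h3 : (Psi φ ψ (Γ U)).natDegree = (Psi φ ψ G).natDegree + (Psi φ ψ H).natDegree := by
    rw [hK, map_mul, natDegree_mul hG0 hH0]
  have h4 := Psi_Gam_natDegree hε ht hr hφ hψ U
  have h5 : a + b = U.card := by
    have := homQ_mul hG hH
    rw [← hK] at this
    exact homQ_unique (hΓ U) this (hhom U)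
  have h6 : Jm r v U ⊆ U := (mem_Pl.mp (Jm_mem ht hr)).1
  exact Finset.eq_of_subset_of_card_le h6 (by omega)

omit hhom in
/-- the value at `-T` of a factor which detects both letters -/
theorem value_zero {U : Finset P} {G H : Q} (hK : Γ U = G * H) {b : ℕ} (hb : b ≠ 0)
    (hH : H ∈ homQ Q b)
    (hu0 : IsUnit ((φ H).coeff b)) (hu1 : IsUnit ((ψ H).coeff b)) {T : Q} (hT0 : T ≠ 0)
    (hT1 : T ∈ homQ Q 1) (hT : ψ T = C T + X)
    (hpos : ∀ f : Q, f ≠ 0 → ¬ IsUnit f → 1 ≤ (ψ f).natDegree) :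
    (ψ H).eval (-T) = 0 ∧ (φ H).eval T = 0 := by
  have hD : IsDomain R := NoZeroDivisors.to_isDomain R
  have hDQ : IsDomain Q := inferInstance
  have hF := flat_hom hQ hΓ ht hr hε hφ hψ φ0 ψ0 gφ gψ hK hH hu0 hu1
  have h1 := key_const φ0 ψ0 hT0 hT hF
  have h2 : (ψ H).eval (-T) ∈ homQ Q b := by
    rw [eval_eq_sum_range' (n := b + 1) (Nat.lt_succ_of_le (natDegree_hom_le hQ gψ hH))]
    apply (homQ Q b).sum_mem
    intro k hk
    rw [Finset.mem_range] at hk
    have h3 : (-T) ^ k ∈ homQ Q k := by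
      induction k with
      | zero => rw [pow_zero]; exact one_mem_homQ
      | succ k ih =>
        rw [pow_succ]
        exact homQ_mul (ih (by omega)) ((homQ Q 1).neg_mem hT1)
    have h4 := homQ_mul ((gψ b H hH k).1 (by omega)) h3
    rwa [Nat.sub_add_cancel (by omega)] at h4
  have h3 : (ψ H).eval (-T) = 0 := by
    by_contra hne
    have h4 : ¬ IsUnit ((ψ H).eval (-T)) := by
      intro hu
      exact hb (homQ_unique hne h2 (isUnit_mem_homQ hQ hu))
    have h5 := hpos _ hne h4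
    omega
  refine ⟨h3, ?_⟩
  have h4 := congrArg (fun p : Q[X] => p.eval (-T)) (key_comp φ0 ψ0 hF)
  simp only [eval_comp, eval_neg, eval_X, neg_neg] at h4
  rw [h4, h3]

end side

section inst
variable {P : Type*} [Fintype P] [DecidableEq P] [PartialOrder P]
variable {Q : Subring R} (hQ : ∀ F : R, F ∈ Q ↔ IsQS F)

/-- the sign of a letter -/
noncomputable def sg (Q : Subring R) : Bool → Q
  | true => 1
  | false => -1

theorem sg_or (k : Bool) : sg Q k = 1 ∨ sg Q k = -1 := by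
  cases k
  · exact Or.inr rfl
  · exact Or.inl rfl

theorem sg_not (k : Bool) : sg Q (!k) = - sg Q k := by
  cases k
  · change (1 : Q) = - -1
    rw [neg_neg]
  · rfl

theorem peelE_lo {ω : P → ℕ} (hω : Function.Injective ω) (k : Bool) :
    PeelE (GamQ hQ ω) (sg Q k) (fun a b : P => a < b) (Cut.wt ω k) (lo hQ k) := by
  cases k
  · intro U
    have h := N_Gamma (bottom hQ) (GamQ hQ ω) (r := fun a b : P => a < b)
      (ω := fun p => (ω p : ℤ)) (fun x => lt_irrefl x)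
      (fun a b h => hω (by simpa using h)) (bottom_rec hQ ω hω) U
    change (bottom hQ).N _ = _
    rw [h]
    have h2 : (-fun p : P => (ω p : ℤ)) = Cut.wt ω false := by
      funext p
      simp [Cut.wt]
    rw [h2]
    apply Finset.sum_congr rfl
    intro I _
    rw [C_mul, C_pow]
    change _ = C (-1 : Q) ^ I.card * _ * _
    rw [C_neg, C_1]
    ring
  · intro U
    have h := E_Gamma (bottom hQ) (GamQ hQ ω) (r := fun a b : P => a < b)
      (ω := fun p => (ω p : ℤ)) (bottom_rec hQ ω hω) U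
    change (bottom hQ).E _ = _
    rw [h]
    apply Finset.sum_congr rfl
    intro I _
    change _ = C ((1 : Q) ^ I.card * _) * _
    rw [one_pow, one_mul]

theorem peelE_hi {ω : P → ℕ} (hω : Function.Injective ω) (k : Bool) :
    PeelE (GamQ hQ ω) (sg Q k) (fun a b : P => b < a) (Cut.wt ω (!k)) (hi hQ k) := by
  cases k
  · intro U
    have h := N_Gamma (top hQ) (GamQ hQ ω) (r := fun a b : P => b < a)
      (ω := fun p => -(ω p : ℤ)) (fun x => lt_irrefl x)
      (fun a b h => hω (by simpa using h)) (top_rec hQ ω hω) U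
    change (top hQ).N _ = _
    rw [h]
    have h2 : (-fun p : P => -(ω p : ℤ)) = Cut.wt ω (!false) := by
      funext p
      simp [Cut.wt]
    rw [h2]
    apply Finset.sum_congr rfl
    intro I _
    rw [C_mul, C_pow]
    change _ = C (-1 : Q) ^ I.card * _ * _
    rw [C_neg, C_1]
    ring
  · intro U
    have h := E_Gamma (top hQ) (GamQ hQ ω) (r := fun a b : P => b < a)
      (ω := fun p => -(ω p : ℤ)) (top_rec hQ ω hω) U
    change (top hQ).E _ = _
    rw [h]
    apply Finset.sum_congr rfl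
    intro I _
    change _ = C ((1 : Q) ^ I.card * _) * _
    rw [one_pow, one_mul]

theorem GamQ_empty (ω : P → ℕ) (x : P) : GamQ hQ ω ∅ = 1 := by
  apply Subtype.ext
  change Gam ω ∅ = 1
  have h1 := GP_true x (∅ : Finset P)
  rw [Finset.card_empty, pow_zero] at h1
  rw [← h1, Gam_eq_GP]
  apply GP_congr
  intro f
  exact ⟨fun _ => trivial, fun _ a ha => absurd ha (Finset.notMem_empty a)⟩

theorem map_T (ω : P → ℕ) (x : P) {r : P → P → Prop} (hi : ∀ x, ¬ r x x) {v : P → ℤ}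
    {ψ : Q →+* Q[X]} (hψ : PeelE (GamQ hQ ω) 1 r v ψ) :
    ψ (GamQ hQ ω {x}) = C (GamQ hQ ω {x}) + X := by
  classical
  rw [hψ]
  have h1 : wks r v ({x} : Finset P) = {∅, {x}} := by
    ext I
    rw [mem_wks, Finset.mem_insert, Finset.mem_singleton]
    constructor
    · intro h
      exact Finset.subset_singleton_iff.mp h.1
    · rintro (rfl | rfl)
      · exact ⟨Finset.empty_subset _, fun a _ b hb => absurd hb (Finset.notMem_empty b)⟩
      · refine ⟨Finset.Subset.refl _, fun a ha b hb hab => ?_⟩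
        rw [Finset.mem_singleton] at ha hb
        exact absurd hab (by rw [ha, hb]; exact hi x)
  rw [h1, Finset.sum_pair (Finset.singleton_ne_empty x).symm]
  simp only [one_mul, Finset.card_empty, pow_zero, mul_one, Finset.sdiff_empty,
    Finset.card_singleton, pow_one, Finset.sdiff_self]
  rw [GamQ_empty hQ ω x, C_1, one_mul]

/-- the certificate as a value -/
theorem value_ne_zero {ω : P → ℕ} (x : P) {r : P → P → Prop}
    (ht : ∀ x y z, r x y → r y z → r x z) (hi : ∀ x, ¬ r x x)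
    {v : P → ℤ} {φ : Q →+* Q[X]} {ε : Q} (hε : ε = 1 ∨ ε = -1)
    (hφ : PeelE (GamQ hQ ω) ε r v φ) (Ok : (P → ℕ) → P → P → Prop)
    (hOk : ∀ V f, Par ω V f ↔ ∀ a ∈ V, ∀ b ∈ V, r a b → Ok f a b) (U : Finset P)
    (hone : OneUp r (AL r v U))
    (hbad : ∃ f : P → ℕ, (∀ a ∈ U \ AL r v U, ∀ b ∈ U \ AL r v U, r a b → Ok f a b) ∧
      ∀ a ∈ AL r v U, ∃ b ∈ U, r a b ∧ ¬ Ok f a b) :
    (φ (GamQ hQ ω U)).eval (-(ε * GamQ hQ ω {x})) ≠ 0 := by
  intro h
  apply cert_coeff ω x ht hi (v := v) Ok hOk U hone hbad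
  have h1 : (φ (GamQ hQ ω U)).eval (-(ε * GamQ hQ ω {x})) =
      ∑ I ∈ wks r v U, (-1 : Q) ^ I.card *
        (GamQ hQ ω {x} ^ I.card * GamQ hQ ω (U \ I)) := by
    rw [hφ, eval_finsetSum]
    apply Finset.sum_congr rfl
    intro I _
    rw [eval_mul, eval_C, eval_pow, eval_X]
    have h2 : ε ^ I.card * (-(ε * GamQ hQ ω {x})) ^ I.card =
        (-1 : Q) ^ I.card * GamQ hQ ω {x} ^ I.card := by
      rw [← mul_pow, ← mul_pow]
      congr 1
      rcases hε with rfl | rfl <;> ring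
    calc ε ^ I.card * GamQ hQ ω (U \ I) * (-(ε * GamQ hQ ω {x})) ^ I.card
        = (ε ^ I.card * (-(ε * GamQ hQ ω {x})) ^ I.card) * GamQ hQ ω (U \ I) := by ring
      _ = (-1 : Q) ^ I.card * (GamQ hQ ω {x} ^ I.card * GamQ hQ ω (U \ I)) := by
          rw [h2, mul_assoc]
  rw [h1] at h
  have h3 := congrArg (fun q : Q => (q : R)) h
  have h4 : ((∑ I ∈ wks r v U, (-1 : Q) ^ I.card *
      (GamQ hQ ω {x} ^ I.card * GamQ hQ ω (U \ I)) : Q) : R) =
      ∑ I ∈ wks r v U, (-1 : R) ^ I.card * (Gam ω {x} ^ I.card * Gam ω (U \ I)) := by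
    rw [← Subring.subtype_apply, map_sum]
    apply Finset.sum_congr rfl
    intro I _
    rw [map_mul, map_mul, map_pow, map_pow, map_neg, map_one]
    rfl
  rw [← h4]
  exact h3

theorem exists_par (ω : P → ℕ) (V : Finset P) : ∃ f : P → ℕ, Par ω V f := by
  classical
  have h1 := Gam_ne_zero ω V
  rw [Gam_eq_GP] at h1
  obtain ⟨m, hm⟩ : ∃ m, MvPowerSeries.coeff m (GP V (Par ω V)) ≠ 0 := by
    by_contra hcon
    push Not at hcon
    exact h1 (MvPowerSeries.ext fun m => by rw [hcon m, map_zero])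
  rw [coeff_GP] at hm
  have h2 : ((maps V m).filter (Par ω V)).card ≠ 0 := fun h => hm (by rw [h]; simp)
  obtain ⟨f, hf⟩ := Finset.card_pos.mp (Nat.pos_of_ne_zero h2)
  exact ⟨f, (Finset.mem_filter.mp hf).2⟩

theorem value_lo {ω : P → ℕ} (hω : Function.Injective ω) (x : P) (k : Bool) (U : Finset P)
    (hone : OneUp (fun a b : P => a < b) (AL (fun a b : P => a < b) (Cut.wt ω k) U))
    (habove : ∀ a ∈ AL (fun a b : P => a < b) (Cut.wt ω k) U,
      ∃ b ∈ U, b ∉ AL (fun a b : P => a < b) (Cut.wt ω k) U ∧ a < b) :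
    (lo hQ k (GamQ hQ ω U)).eval (-(sg Q k * GamQ hQ ω {x})) ≠ 0 := by
  classical
  refine value_ne_zero hQ x (r := fun a b : P => a < b) (fun x y z h1 h2 => lt_trans h1 h2)
    (fun x => lt_irrefl x) (sg_or k) (peelE_lo hQ hω k) (fun f a b => f a ≤ f b ∧ (ω b < ω a → f a < f b))
    (fun V f => Iff.rfl) U hone ?_
  obtain ⟨f, hf⟩ := exists_par ω (U \ AL (fun a b : P => a < b) (Cut.wt ω k) U)
  refine ⟨fun v => if v ∈ AL (fun a b : P => a < b) (Cut.wt ω k) U then (∑ p, f p) + 1 else f v,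
    ?_, ?_⟩
  · intro a ha b hb hab
    have h1 := hf a ha b hb hab
    rw [Finset.mem_sdiff] at ha hb
    simp only [if_neg ha.2, if_neg hb.2]
    exact h1
  · intro a ha
    obtain ⟨b, hbU, hbL, hab⟩ := habove a ha
    refine ⟨b, hbU, hab, fun h => ?_⟩
    have h1 := h.1
    simp only [if_pos ha, if_neg hbL] at h1
    have h2 : f b ≤ ∑ p, f p := Finset.single_le_sum (fun _ _ => Nat.zero_le _) (Finset.mem_univ b)
    omega

theorem value_hi {ω : P → ℕ} (hω : Function.Injective ω) (x : P) (k : Bool) (U : Finset P)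
    (hone : OneUp (fun a b : P => b < a) (AL (fun a b : P => b < a) (Cut.wt ω (!k)) U))
    (hbelow : ∀ a ∈ AL (fun a b : P => b < a) (Cut.wt ω (!k)) U,
      ∃ b ∈ U, b ∉ AL (fun a b : P => b < a) (Cut.wt ω (!k)) U ∧ b < a) :
    (hi hQ k (GamQ hQ ω U)).eval (-(sg Q k * GamQ hQ ω {x})) ≠ 0 := by
  classical
  refine value_ne_zero hQ x (r := fun a b : P => b < a) (fun x y z h1 h2 => lt_trans h2 h1)
    (fun x => lt_irrefl x) (sg_or k) (peelE_hi hQ hω k) (fun f a b => f b ≤ f a ∧ (ω a < ω b → f b < f a))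
    (fun V f => ⟨fun h a ha b hb hab => h b hb a ha hab,
      fun h a ha b hb hab => h b hb a ha hab⟩) U hone ?_
  obtain ⟨f, hf⟩ := exists_par ω (U \ AL (fun a b : P => b < a) (Cut.wt ω (!k)) U)
  refine ⟨fun v => if v ∈ AL (fun a b : P => b < a) (Cut.wt ω (!k)) U then 0 else f v + 1,
    ?_, ?_⟩
  · intro a ha b hb hab
    have h1 := hf b hb a ha hab
    rw [Finset.mem_sdiff] at ha hb
    simp only [if_neg ha.2, if_neg hb.2]
    omega
  · intro a ha
    obtain ⟨b, hbU, hbL, hab⟩ := hbelow a ha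
    refine ⟨b, hbU, hab, fun h => ?_⟩
    have h1 := h.1
    simp only [if_pos ha, if_neg hbL] at h1
    omega

end inst

end Pool.Agent.Lib.MP_5bc52d_co.Key
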