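import Mathlib
import Pool.Agent.Lib.MP_5bc52d_co.Key.Rule

/-!
# The rule with two letters
-/

open Finset Polynomial

set_option linter.unusedSectionVars false

namespace Pool.Agent.Lib.MP_5bc52d_co.Key

open Splitting Cyc Cut

variable {P : Type*} [Fintype P] [DecidableEq P] [PartialOrder P]
variable {Q : Subring R} (hQ : ∀ F : R, F ∈ Q ↔ IsQS F)
include hQ

theorem lo_side {ω : P → ℕ} (hω : Function.Injective ω) (c : Bool) :
    PeelE (GamQ hQ ω) (sg Q (!c)) (fun a b : P => a < b) (-(Cut.wt ω c)) (lo hQ (!c)) ∧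
      PeelE (GamQ hQ ω) (-(sg Q (!c))) (fun a b : P => a < b) (Cut.wt ω c) (lo hQ c) := by
  constructor
  · rw [← wt_not]
    exact peelE_lo hQ hω (!c)
  · rw [← sg_not, Bool.not_not]
    exact peelE_lo hQ hω c

theorem hi_side {ω : P → ℕ} (hω : Function.Injective ω) (c : Bool) :
    PeelE (GamQ hQ ω) (sg Q (!c)) (fun a b : P => b < a) (-(Cut.wt ω (!c))) (hi hQ (!c)) ∧
      PeelE (GamQ hQ ω) (-(sg Q (!c))) (fun a b : P => b < a) (Cut.wt ω (!c)) (hi hQ c) := by
  constructor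
  · rw [← wt_not]
    exact peelE_hi hQ hω (!c)
  · rw [← sg_not, Bool.not_not]
    exact peelE_hi hQ hω c

/-- a factor detecting both letters kills all four values -/
theorem values_zero {ω : P → ℕ} (hω : Function.Injective ω) (x : P) {U : Finset P} {G H : Q}
    (hK : GamQ hQ ω U = G * H) {b : ℕ} (hb : b ≠ 0) (hH : H ∈ homQ Q b)
    (hu : ∀ c, IsUnit ((lo hQ c H).coeff b)) (c : Bool) :
    (lo hQ c (GamQ hQ ω U)).eval (-(sg Q c * GamQ hQ ω {x})) = 0 ∧
      (hi hQ c (GamQ hQ ω U)).eval (-(sg Q c * GamQ hQ ω {x})) = 0 := by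
  have hD : IsDomain R := NoZeroDivisors.to_isDomain R
  have hDQ : IsDomain Q := inferInstance
  have hT1 : GamQ hQ ω {x} ∈ homQ Q 1 := by
    have := GamQ_homQ hQ ω {x}
    rwa [Finset.card_singleton] at this
  have hs : -(sg Q (!true)) = (1 : Q) := by
    change -(-1 : Q) = 1
    rw [neg_neg]
  obtain ⟨l1, l2⟩ := lo_side hQ hω true
  obtain ⟨h1, h2⟩ := hi_side hQ hω true
  have l3 := map_T hQ ω x (r := fun a b : P => a < b) (fun x => lt_irrefl x) (hs ▸ l2)
  have h3 := map_T hQ ω x (r := fun a b : P => b < a) (fun x => lt_irrefl x) (hs ▸ h2)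
  have A := value_zero hQ (GamQ_ne_zero hQ ω) (r := fun a b : P => a < b)
    (r' := fun a b : P => b < a)
    (fun x y z h1 h2 => lt_trans h1 h2) (fun x y => Iff.rfl) (sg_or (!true)) l1 l2
    (lo_zero hQ (!true)) (lo_zero hQ true) (lo_graded hQ (!true)) (lo_graded hQ true) hK hb hH
    (hu (!true)) (hu true) (GamQ_ne_zero hQ ω {x}) hT1 l3 (lo_pos hQ true)
  have B := value_zero hQ (GamQ_ne_zero hQ ω) (r := fun a b : P => b < a)
    (r' := fun a b : P => a < b)
    (fun x y z h1 h2 => lt_trans h2 h1) (fun x y => Iff.rfl) (sg_or (!true)) h1 h2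
    (hi_zero hQ (!true)) (hi_zero hQ true) (hi_graded hQ (!true)) (hi_graded hQ true) hK hb hH
    (by rw [← lo_hi_pair hQ (!true) b H hH]; exact hu (!true))
    (by rw [← lo_hi_pair hQ true b H hH]; exact hu true)
    (GamQ_ne_zero hQ ω {x}) hT1 h3 (hi_pos hQ true)
  have et : -(sg Q true * GamQ hQ ω {x}) = -GamQ hQ ω {x} := by
    change -((1 : Q) * _) = _
    rw [one_mul]
  have ef : -(sg Q false * GamQ hQ ω {x}) = GamQ hQ ω {x} := by
    change -((-1 : Q) * _) = _
    rw [neg_one_mul, neg_neg]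
  rw [hK, map_mul, map_mul, eval_mul, eval_mul]
  cases c
  · rw [ef]
    exact ⟨by rw [show (lo hQ false H).eval (GamQ hQ ω {x}) = 0 from A.2, mul_zero],
      by rw [show (hi hQ false H).eval (GamQ hQ ω {x}) = 0 from B.2, mul_zero]⟩
  · rw [et]
    exact ⟨by rw [A.1, mul_zero], by rw [B.1, mul_zero]⟩

/-- factors detecting different letters: two letters carry everything -/
theorem Jm_all {ω : P → ℕ} (hω : Function.Injective ω) {U : Finset P} {G H : Q}
    (hK : GamQ hQ ω U = G * H) {a b : ℕ} (hG : G ∈ homQ Q a) (hH : H ∈ homQ Q b)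
    (hu0 : IsUnit ((lo hQ false G).coeff a)) (hu1 : IsUnit ((lo hQ true H).coeff b))
    (c : Bool) : Jm (fun a b : P => a < b) (Cut.wt ω c) U = U := by
  cases c
  · obtain ⟨l1, l2⟩ := lo_side hQ hω false
    exact Jm_eq hQ (GamQ_ne_zero hQ ω) (GamQ_homQ hQ ω) (r := fun a b : P => a < b)
      (r' := fun a b : P => b < a)
      (fun x y z h1 h2 => lt_trans h1 h2) (fun x y => Iff.rfl) (sg_or (!false)) l1 l2
      (lo_zero hQ (!false)) (lo_zero hQ false) (lo_graded hQ (!false)) (lo_graded hQ false)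
      (hK.trans (mul_comm _ _)) hH hG hu1 hu0
  · obtain ⟨l1, l2⟩ := lo_side hQ hω true
    exact Jm_eq hQ (GamQ_ne_zero hQ ω) (GamQ_homQ hQ ω) (r := fun a b : P => a < b)
      (r' := fun a b : P => b < a)
      (fun x y z h1 h2 => lt_trans h1 h2) (fun x y => Iff.rfl) (sg_or (!true)) l1 l2
      (lo_zero hQ (!true)) (lo_zero hQ true) (lo_graded hQ (!true)) (lo_graded hQ true)
      hK hG hH hu0 hu1

theorem letter_or {ω : P → ℕ} (hω : Function.Injective ω) {U : Finset P} {G H : Q}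
    (hK : GamQ hQ ω U = G * H) {a b : ℕ} (hG : G ∈ homQ Q a) (hH : H ∈ homQ Q b) (c : Bool)
    (hirr : Irreducible (GamQ hQ ω (U \ AL (fun a b : P => a < b) (Cut.wt ω c) U)) ∨
      Irreducible (GamQ hQ ω (U \ AL (fun a b : P => b < a) (Cut.wt ω (!c)) U))) :
    IsUnit ((lo hQ c G).coeff a) ∨ IsUnit ((lo hQ c H).coeff b) := by
  have hD : IsDomain R := NoZeroDivisors.to_isDomain R
  have hDQ : IsDomain Q := inferInstance
  rcases hirr with h | h
  · have h1 := Peel.lead (r := fun a b : P => a < b) (fun x y z h1 h2 => lt_trans h1 h2)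
      ((peelE_lo hQ hω c).peel (sg_or c)) (GamQ_ne_zero hQ ω) U
    have h2 : Irreducible (lo hQ c (GamQ hQ ω U)).leadingCoeff :=
      (Associated.irreducible_iff h1.2).mpr h
    have h3 : (lo hQ c (GamQ hQ ω U)).leadingCoeff =
        (lo hQ c G).leadingCoeff * (lo hQ c H).leadingCoeff := by
      rw [hK, map_mul, leadingCoeff_mul]
    rcases h2.isUnit_or_isUnit h3 with h4 | h4
    · exact Or.inl (lead_coeff hQ (lo_graded hQ c) hG h4)
    · exact Or.inr (lead_coeff hQ (lo_graded hQ c) hH h4)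
  · have h1 := Peel.lead (r := fun a b : P => b < a) (fun x y z h1 h2 => lt_trans h2 h1)
      ((peelE_hi hQ hω c).peel (sg_or c)) (GamQ_ne_zero hQ ω) U
    have h2 : Irreducible (hi hQ c (GamQ hQ ω U)).leadingCoeff :=
      (Associated.irreducible_iff h1.2).mpr h
    have h3 : (hi hQ c (GamQ hQ ω U)).leadingCoeff =
        (hi hQ c G).leadingCoeff * (hi hQ c H).leadingCoeff := by
      rw [hK, map_mul, leadingCoeff_mul]
    rcases h2.isUnit_or_isUnit h3 with h4 | h4
    · left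
      rw [lo_hi_pair hQ c a G hG]
      exact lead_coeff hQ (hi_graded hQ c) hG h4
    · right
      rw [lo_hi_pair hQ c b H hH]
      exact lead_coeff hQ (hi_graded hQ c) hH h4

/-- The rule with two letters. -/
theorem rule_two {ω : P → ℕ} (hω : Function.Injective ω) (U : Finset P) (x : P) (hx : x ∈ U)
    (hirr : ∀ c, Irreducible (GamQ hQ ω (U \ AL (fun a b : P => a < b) (Cut.wt ω c) U)) ∨
      Irreducible (GamQ hQ ω (U \ AL (fun a b : P => b < a) (Cut.wt ω (!c)) U)))
    (hB : ∃ c, Jm (fun a b : P => a < b) (Cut.wt ω c) U ≠ U)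
    (hcert : ∃ c, (lo hQ c (GamQ hQ ω U)).eval (-(sg Q c * GamQ hQ ω {x})) ≠ 0 ∨
      (hi hQ c (GamQ hQ ω U)).eval (-(sg Q c * GamQ hQ ω {x})) ≠ 0) :
    Irreducible (GamQ hQ ω U) := by
  have hD : IsDomain R := NoZeroDivisors.to_isDomain R
  have hDQ : IsDomain Q := inferInstance
  refine ⟨nonunit_of_nonempty hQ (GamQ_ne_zero hQ ω) (GamQ_homQ hQ ω) ⟨x, hx⟩,
    fun G H hK => ?_⟩
  by_contra hcon
  rw [not_or] at hcon
  have h0 : G * H ≠ 0 := by
    rw [← hK]
    exact GamQ_ne_zero hQ ω U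
  obtain ⟨a, b, -, hG, hH⟩ := homQ_factor hQ h0 (hK ▸ GamQ_homQ hQ ω U)
  have hG0 : G ≠ 0 := left_ne_zero_of_mul h0
  have hH0 : H ≠ 0 := right_ne_zero_of_mul h0
  have ha : a ≠ 0 := by
    rintro rfl
    exact hcon.1 (isUnit_of_homQ_zero hQ hG hG0)
  have hb : b ≠ 0 := by
    rintro rfl
    exact hcon.2 (isUnit_of_homQ_zero hQ hH hH0)
  have hno : ∀ {G H : Q} {b : ℕ}, GamQ hQ ω U = G * H → b ≠ 0 → H ∈ homQ Q b →
      (∀ c, IsUnit ((lo hQ c H).coeff b)) → False := by
    intro G H b hK hb hH hu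
    obtain ⟨c, hc⟩ := hcert
    have h1 := values_zero hQ hω x hK hb hH hu c
    rcases hc with h | h
    · exact h h1.1
    · exact h h1.2
  obtain ⟨c, hc⟩ := hB
  have hK' : GamQ hQ ω U = H * G := hK.trans (mul_comm _ _)
  rcases letter_or hQ hω hK hG hH true (hirr true) with h1 | h1
  · rcases letter_or hQ hω hK hG hH false (hirr false) with h2 | h2
    · exact hno hK' ha hG (fun c => by cases c; exacts [h2, h1])
    · exact hc (Jm_all hQ hω hK' hH hG h2 h1 c)
  · rcases letter_or hQ hω hK hG hH false (hirr false) with h2 | h2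
    · exact hc (Jm_all hQ hω hK hG hH h2 h1 c)
    · exact hno hK hb hH (fun c => by cases c; exacts [h2, h1])

end Pool.Agent.Lib.MP_5bc52d_co.Key
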