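import Mathlib
import Pool.Agent.Lib.MP_5bc52d_co.Key.Rule

/-!
# The overlap inequality

A factor which does not vanish at the letter `c` has degree at most the number of elements all of
whose relations have kind `c`.
-/

open Finset Polynomial

set_option linter.unusedSectionVars false

namespace Pool.Agent.Lib.MP_5bc52d_co.Key

open Splitting Cyc Cut

section abs
variable {A : Type*} [CommRing A]

/-- `f (c(t) g c(t))` -/
noncomputable def Dl (φ ψ : A →+* A[X]) : A →+* A[X] := (eval₂RingHom ψ X).comp φ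

theorem Dl_eq_sum (φ ψ : A →+* A[X]) (f : A) {N : ℕ} (hN : (φ f).natDegree < N) :
    Dl φ ψ f = ∑ i ∈ Finset.range N, ψ ((φ f).coeff i) * X ^ i := by
  change eval₂ ψ X (φ f) = _
  rw [eval₂_eq_sum_range' _ hN]

theorem natDegree_Dl_le (φ ψ : A →+* A[X]) (f : A) {m : ℕ}
    (h : ∀ i ≤ (φ f).natDegree, (ψ ((φ f).coeff i)).natDegree + i ≤ m) :
    (Dl φ ψ f).natDegree ≤ m := by
  rw [Dl_eq_sum φ ψ f (N := (φ f).natDegree + 1) (by omega)]
  apply natDegree_sum_le_of_forall_le
  intro i hi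
  rw [Finset.mem_range] at hi
  have h1 : (ψ ((φ f).coeff i) * X ^ i).natDegree ≤
      (ψ ((φ f).coeff i)).natDegree + ((X : A[X]) ^ i).natDegree := natDegree_mul_le
  have h2 : ((X : A[X]) ^ i).natDegree ≤ i := natDegree_X_pow_le i
  have h3 := h i (by omega)
  omega

end abs

section side
variable {P : Type*} [Fintype P] [DecidableEq P]
variable {Q : Subring R} (hQ : ∀ F : R, F ∈ Q ↔ IsQS F)

variable {Γ : Finset P → Q} (hΓ : ∀ U, Γ U ≠ 0)
  {r r' : P → P → Prop} (ht : ∀ x y z, r x y → r y z → r x z) (hr : ∀ x y, r' x y ↔ r y x)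
  {v v' : P → ℤ} {φ ψ : Q →+* Q[X]} {ε : Q} (hε : ε = 1 ∨ ε = -1)
  (hφ : PeelE Γ ε r v φ) (hψ : PeelE Γ ε r' v' ψ)

include hQ hΓ ht hr hε hφ hψ in
theorem le_natDegree_Dl (U : Finset P) :
    (AL r v U ∪ AL r' v' U).card ≤ (Dl φ ψ (Γ U)).natDegree := by
  classical
  have hD : IsDomain R := NoZeroDivisors.to_isDomain R
  have hDQ : IsDomain Q := inferInstance
  have ht' : ∀ x y z, r' x y → r' y z → r' x z := fun x y z h1 h2 =>
    (hr _ _).mpr (ht _ _ _ ((hr _ _).mp h2) ((hr _ _).mp h1))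
  have hψε : ψ ε = C ε := by
    rcases hε with h | h
    · rw [h, map_one, C_1]
    · rw [h, map_neg, map_one, C_neg, C_1]
  set k := (AL r v U ∪ AL r' v' U).card with hk
  -- the expansion
  have h1 : Dl φ ψ (Γ U) = ∑ I ∈ wks r v U, ∑ F ∈ wks r' v' (U \ I),
      C (ε ^ (I.card + F.card) * Γ ((U \ I) \ F)) * X ^ (I.card + F.card) := by
    change eval₂ ψ X (φ (Γ U)) = _
    rw [hφ U, eval₂_finsetSum]
    apply Finset.sum_congr rfl
    intro I _
    rw [eval₂_mul, eval₂_C, eval₂_pow, eval₂_X, map_mul, map_pow, hψε, hψ (U \ I),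
      Finset.mul_sum, Finset.sum_mul]
    apply Finset.sum_congr rfl
    intro F _
    rw [pow_add, pow_add, C_mul, C_mul, C_mul, C_pow, C_pow]
    ring
  have hsub : ∀ I F, I ∈ wks r v U → F ∈ wks r' v' (U \ I) →
      I ⊆ AL r v U ∧ F ⊆ AL r' v' U ∧ Disjoint I F := by
    intro I F hI hF
    rw [mem_wks] at hI hF
    refine ⟨Wk_subset_AL hI, Wk_subset_AL ⟨hF.1.trans Finset.sdiff_subset,
      fun a ha b hb hab => ?_⟩, ?_⟩
    · have haI : a ∉ I := by
        intro haI
        have hbU := Finset.mem_sdiff.mp (hF.1 hb)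
        exact hbU.2 (hI.2 b hbU.1 a haI ((hr _ _).mp hab)).1
      exact hF.2 a (Finset.mem_sdiff.mpr ⟨ha, haI⟩) b hb hab
    · rw [Finset.disjoint_left]
      intro x hxI hxF
      exact (Finset.mem_sdiff.mp (hF.1 hxF)).2 hxI
  have hterm : ∀ I ∈ wks r v U, ∀ F ∈ wks r' v' (U \ I),
      (C (ε ^ (I.card + F.card) * Γ ((U \ I) \ F)) * X ^ (I.card + F.card) : Q[X]).coeff k =
        if I ∪ F = AL r v U ∪ AL r' v' U then
          ε ^ k * Γ (U \ (AL r v U ∪ AL r' v' U)) else 0 := by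
    intro I hI F hF
    obtain ⟨s1, s2, s3⟩ := hsub I F hI hF
    have hc : I.card + F.card = (I ∪ F).card := (Finset.card_union_of_disjoint s3).symm
    rw [coeff_C_mul_X_pow]
    by_cases h : I ∪ F = AL r v U ∪ AL r' v' U
    · rw [if_pos h, if_pos (by rw [hc, h, hk]), hc, h, ← hk]
      have h2 : (U \ I) \ F = U \ (AL r v U ∪ AL r' v' U) := by
        rw [← h]
        ext x
        simp only [Finset.mem_sdiff, Finset.mem_union]
        tauto
      rw [h2]
    · rw [if_neg h, if_neg]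
      intro h2
      apply h
      apply Finset.eq_of_subset_of_card_le (Finset.union_subset_union s1 s2)
      rw [← hk, h2, hc]
  apply le_natDegree_of_ne_zero
  rw [h1, finsetSum_coeff]
  simp only [finsetSum_coeff]
  rw [Finset.sum_congr rfl (fun I hI => Finset.sum_congr rfl (fun F hF => hterm I hI F hF)),
    Finset.sum_sigma', ← Finset.sum_filter, Finset.sum_const, nsmul_eq_mul]
  apply mul_ne_zero
  · have hchar : CharZero Q := by
      refine ⟨fun m n h => ?_⟩
      have h2 := congrArg (fun q : Q => MvPowerSeries.constantCoeff (q : R)) h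
      simp only [Subring.coe_natCast, map_natCast] at h2
      exact_mod_cast h2
    rw [Nat.cast_ne_zero]
    refine (Finset.card_pos.mpr ⟨⟨AL r v U, AL r' v' U \ AL r v U⟩, ?_⟩).ne'
    rw [Finset.mem_filter, Finset.mem_sigma, mem_wks, mem_wks]
    refine ⟨⟨Wk_AL ht, ?_⟩, Finset.union_sdiff_self_eq_union⟩
    have h2 := AL_sdiff (r := r) (r' := r') hr (w' := v') (U := U) (A₀ := AL r v U)
      (fun a ha b hb hab => ((Wk_AL ht).2 a ha b hb hab).1)
    rw [← h2]
    exact Wk_AL ht'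
  · apply mul_ne_zero _ (hΓ _)
    apply pow_ne_zero
    rcases hε with h | h
    · rw [h]; exact one_ne_zero
    · rw [h]; exact neg_ne_zero.mpr one_ne_zero

include hQ hΓ ht hr hε hφ hψ in
/-- the overlap inequality -/
theorem overlap (φ0 : ∀ f, (φ f).coeff 0 = f) (ψ0 : ∀ f, (ψ f).coeff 0 = f)
    (gφ : Graded Q φ) (gψ : Graded Q ψ)
    (hcomm : ∀ (f : Q) (i j : ℕ), (ψ ((φ f).coeff i)).coeff j = (φ ((ψ f).coeff j)).coeff i)
    {U : Finset P} {G H : Q} (hK : Γ U = G * H) {b : ℕ} (hH : H ∈ homQ Q b)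
    (hu0 : IsUnit ((φ H).coeff b)) (hu1 : IsUnit ((ψ H).coeff b)) :
    b ≤ (AL r v U ∩ AL r' v' U).card := by
  have hD : IsDomain R := NoZeroDivisors.to_isDomain R
  have hDQ : IsDomain Q := inferInstance
  have ht' : ∀ x y z, r' x y → r' y z → r' x z := fun x y z h1 h2 =>
    (hr _ _).mpr (ht _ _ _ ((hr _ _).mp h2) ((hr _ _).mp h1))
  have hφi : Function.Injective φ := by
    intro f g hfg
    rw [← φ0 f, ← φ0 g, hfg]
  have hψi : Function.Injective ψ := by
    intro f g hfg
    rw [← ψ0 f, ← ψ0 g, hfg]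
  have hD0 : ∀ f : Q, f ≠ 0 → Dl φ ψ f ≠ 0 := by
    intro f hf h
    -- the constant coefficient of `Dl f` is `f`
    apply hf
    have h1 : (Dl φ ψ f).coeff 0 = f := by
      rw [Dl_eq_sum φ ψ f (N := (φ f).natDegree + 1) (by omega), finsetSum_coeff,
        Finset.sum_eq_single 0]
      · rw [pow_zero, mul_one, ψ0, φ0]
      · intro i _ hi
        rw [coeff_mul_X_pow', if_neg (by omega)]
      · intro h2
        exact absurd (Finset.mem_range.mpr (Nat.succ_pos _)) h2
    rw [← h1, h, coeff_zero]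
  have hG0 : G ≠ 0 := by rintro rfl; exact hΓ U (by rw [hK, zero_mul])
  have hH0 : H ≠ 0 := by rintro rfl; exact hΓ U (by rw [hK, mul_zero])
  have d1 : (φ H).natDegree = b := le_antisymm (natDegree_hom_le hQ gφ hH)
    (le_natDegree_of_ne_zero hu0.ne_zero)
  have d2 : (ψ H).natDegree = b := le_antisymm (natDegree_hom_le hQ gψ hH)
    (le_natDegree_of_ne_zero hu1.ne_zero)
  have e1 := ((PeelE.peel hε hφ).lead ht hΓ U).1
  have e2 := ((PeelE.peel hε hψ).lead ht' hΓ U).1
  rw [hK, map_mul, natDegree_mul (fun h => hG0 (hφi (h.trans (map_zero _).symm)))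
    (fun h => hH0 (hφi (h.trans (map_zero _).symm))), d1] at e1
  rw [hK, map_mul, natDegree_mul (fun h => hG0 (hψi (h.trans (map_zero _).symm)))
    (fun h => hH0 (hψi (h.trans (map_zero _).symm))), d2] at e2
  have e3 : (Dl φ ψ H).natDegree ≤ b := by
    apply natDegree_Dl_le
    intro i hi
    rw [d1] at hi
    have := natDegree_hom_le hQ gψ ((gφ b H hH i).1 hi)
    omega
  have e4 : (Dl φ ψ G).natDegree ≤ (φ G).natDegree + (ψ G).natDegree := by
    apply natDegree_Dl_le
    intro i hi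
    have := natDegree_coeff_le (φ := φ) (ψ := ψ) hcomm G i
    omega
  have e5 := le_natDegree_Dl hQ hΓ ht hr hε hφ hψ U
  rw [hK, map_mul, natDegree_mul (hD0 G hG0) (hD0 H hH0)] at e5
  have e6 := Finset.card_union_add_card_inter (AL r v U) (AL r' v' U)
  omega

end side

end Pool.Agent.Lib.MP_5bc52d_co.Key
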