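import Mathlib
import Pool.Agent.Lib.MP_5bc52d_co.Key.Final
import Pool.Agent.Lib.MP_5bc52d_co.Key.Overlap

/-!
# The two letters are detected by the same factor
-/

open Finset Polynomial

set_option linter.unusedSectionVars false

namespace Pool.Agent.Lib.MP_5bc52d_co.Key

open Splitting Cyc Cut

variable {P : Type*} [Fintype P] [DecidableEq P] [PartialOrder P]

/-- `U` is connected -/
def Conn (U : Finset P) : Prop :=
  ∀ S : Finset P, S ⊆ U → S.Nonempty → (∀ x ∈ S, ∀ y ∈ U, (x < y ∨ y < x) → y ∈ S) → S = U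

/-- the elements all of whose relations have kind `c` -/
noncomputable def Xc (ω : P → ℕ) (c : Bool) (U : Finset P) : Finset P :=
  AL (fun a b : P => a < b) (Cut.wt ω c) U ∩ AL (fun a b : P => b < a) (Cut.wt ω (!c)) U

theorem Xc_rel {ω : P → ℕ} {c : Bool} {U : Finset P} {x y : P} (hx : x ∈ Xc ω c U) (hy : y ∈ U)
    : (x < y → Cut.wt ω c x < Cut.wt ω c y) ∧ (y < x → Cut.wt ω c y < Cut.wt ω c x) := by
  rw [Xc, Finset.mem_inter, mem_AL, mem_AL] at hx
  constructor
  · intro h
    have h1 := hx.2.2 y hy x hx.1.1 h (Or.inl rfl)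
    rw [wt_not, Pi.neg_apply, Pi.neg_apply] at h1
    omega
  · intro h
    exact hx.1.2 y hy x hx.1.1 h (Or.inl rfl)

variable {Q : Subring R} (hQ : ∀ F : R, F ∈ Q ↔ IsQS F)
include hQ

theorem deg_le_Xc {ω : P → ℕ} (hω : Function.Injective ω) {U : Finset P} {G H : Q}
    (hK : GamQ hQ ω U = G * H) {b : ℕ} (hH : H ∈ homQ Q b) (c : Bool)
    (hu : IsUnit ((lo hQ c H).coeff b)) : b ≤ (Xc ω c U).card :=
  overlap hQ (GamQ_ne_zero hQ ω) (r := fun a b : P => a < b) (r' := fun a b : P => b < a)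
    (fun x y z h1 h2 => lt_trans h1 h2) (fun x y => Iff.rfl) (sg_or c) (peelE_lo hQ hω c)
    (peelE_hi hQ hω c) (lo_zero hQ c) (hi_zero hQ c) (lo_graded hQ c) (hi_graded hQ c)
    (lo_hi_comm hQ c c) hK hH hu (by rw [← lo_hi_pair hQ c b H hH]; exact hu)

theorem no_caseB {ω : P → ℕ} (hω : Function.Injective ω) {U : Finset P} (hconn : Conn U)
    {G H : Q} (hK : GamQ hQ ω U = G * H) {a b : ℕ} (ha : a ≠ 0) (hb : b ≠ 0)
    (hG : G ∈ homQ Q a) (hH : H ∈ homQ Q b)
    (hu0 : IsUnit ((lo hQ false G).coeff a)) (hu1 : IsUnit ((lo hQ true H).coeff b)) :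
    False := by
  have hD : IsDomain R := NoZeroDivisors.to_isDomain R
  have hDQ : IsDomain Q := inferInstance
  have h1 := deg_le_Xc hQ hω (hK.trans (mul_comm _ _)) hG false hu0
  have h2 := deg_le_Xc hQ hω hK hH true hu1
  have h3 : a + b = U.card := by
    have := homQ_mul hG hH
    rw [← hK] at this
    exact homQ_unique (GamQ_ne_zero hQ ω U) this (GamQ_homQ hQ ω U)
  have hsub : ∀ c, Xc ω c U ⊆ U := fun c x hx => AL_subset (Finset.mem_inter.mp hx).1
  -- no element lies in both sets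
  have hneg : ∀ x y : P, Cut.wt ω true x < Cut.wt ω true y →
      Cut.wt ω false x < Cut.wt ω false y → False := by
    intro x y h4 h5
    have h6 : Cut.wt ω false = -Cut.wt ω true := wt_not ω true
    rw [h6, Pi.neg_apply, Pi.neg_apply] at h5
    omega
  have hdis : Disjoint (Xc ω true U) (Xc ω false U) := by
    rw [Finset.disjoint_left]
    intro x hx hx'
    have h4 : ({x} : Finset P) = U := by
      apply hconn {x} (Finset.singleton_subset_iff.mpr (hsub _ hx)) (Finset.singleton_nonempty x)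
      intro z hz y hy h
      rw [Finset.mem_singleton] at hz
      subst hz
      exfalso
      rcases h with h | h
      · exact hneg z y ((Xc_rel hx hy).1 h) ((Xc_rel hx' hy).1 h)
      · exact hneg y z ((Xc_rel hx hy).2 h) ((Xc_rel hx' hy).2 h)
    have h5 : U.card = 1 := by rw [← h4, Finset.card_singleton]
    omega
  have hall : Xc ω true U ∪ Xc ω false U = U := by
    apply Finset.eq_of_subset_of_card_le (Finset.union_subset (hsub _) (hsub _))
    rw [Finset.card_union_of_disjoint hdis]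
    omega
  have hne : (Xc ω true U).Nonempty := Finset.card_pos.mp (by omega)
  have h4 : Xc ω true U = U := by
    apply hconn _ (hsub _) hne
    intro x hx y hy h
    have hy' : y ∈ Xc ω true U ∪ Xc ω false U := hall.symm ▸ hy
    rcases Finset.mem_union.mp hy' with h5 | h5
    · exact h5
    · exfalso
      rcases h with h | h
      · exact hneg x y ((Xc_rel hx hy).1 h) ((Xc_rel h5 (hsub _ hx)).2 h)
      · exact hneg y x ((Xc_rel hx hy).2 h) ((Xc_rel h5 (hsub _ hx)).1 h)
  have h5 : Xc ω false U = ∅ := by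
    rw [← Finset.disjoint_self_iff_empty]
    exact Finset.disjoint_of_subset_left (by rw [h4]; exact hsub _) hdis
  rw [h5, Finset.card_empty] at h1
  omega

/-- If both letters are detected, a proper factor makes the values at `-T` vanish. -/
theorem two_letters {ω : P → ℕ} (hω : Function.Injective ω) (U : Finset P) (hconn : Conn U)
    (x : P) (hx : x ∈ U)
    (hirr : ∀ c, Irreducible (GamQ hQ ω (U \ AL (fun a b : P => a < b) (Cut.wt ω c) U)) ∨
      Irreducible (GamQ hQ ω (U \ AL (fun a b : P => b < a) (Cut.wt ω (!c)) U)))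
    (hcert : (∃ G H : Q, ∃ b : ℕ, GamQ hQ ω U = G * H ∧ ¬ IsUnit G ∧ b ≠ 0 ∧ H ∈ homQ Q b ∧
      ∀ c, IsUnit ((lo hQ c H).coeff b)) → False) :
    Irreducible (GamQ hQ ω U) := by
  have hD : IsDomain R := NoZeroDivisors.to_isDomain R
  have hDQ : IsDomain Q := inferInstance
  refine ⟨nonunit_of_nonempty hQ (GamQ_ne_zero hQ ω) (GamQ_homQ hQ ω) ⟨x, hx⟩,
    fun G H hK => ?_⟩
  by_contra hcon
  rw [not_or] at hcon
  have h0 : G * H ≠ 0 := by
    rw [← hK]
    exact GamQ_ne_zero hQ ω U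
  obtain ⟨a, b, -, hG, hH⟩ := homQ_factor hQ h0 (hK ▸ GamQ_homQ hQ ω U)
  have hG0 : G ≠ 0 := left_ne_zero_of_mul h0
  have hH0 : H ≠ 0 := right_ne_zero_of_mul h0
  have ha : a ≠ 0 := by
    rintro rfl
    exact hcon.1 (isUnit_of_homQ_zero hQ hG hG0)
  have hb : b ≠ 0 := by
    rintro rfl
    exact hcon.2 (isUnit_of_homQ_zero hQ hH hH0)
  have hK' : GamQ hQ ω U = H * G := hK.trans (mul_comm _ _)
  rcases letter_or hQ hω hK hG hH true (hirr true) with h1 | h1
  · rcases letter_or hQ hω hK hG hH false (hirr false) with h2 | h2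
    · exact hcert ⟨H, G, a, hK', hcon.2, ha, hG, fun c => by cases c; exacts [h2, h1]⟩
    · exact no_caseB hQ hω hconn hK' hb ha hH hG h2 h1
  · rcases letter_or hQ hω hK hG hH false (hirr false) with h2 | h2
    · exact no_caseB hQ hω hconn hK ha hb hG hH h2 h1
    · exact hcert ⟨G, H, b, hK, hcon.1, hb, hH, fun c => by cases c; exacts [h2, h1]⟩

/-- The rule with two letters, with one nonzero value at `-T`. -/
theorem rule_cert {ω : P → ℕ} (hω : Function.Injective ω) (U : Finset P) (hconn : Conn U)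
    (x : P) (hx : x ∈ U)
    (hirr : ∀ c, Irreducible (GamQ hQ ω (U \ AL (fun a b : P => a < b) (Cut.wt ω c) U)) ∨
      Irreducible (GamQ hQ ω (U \ AL (fun a b : P => b < a) (Cut.wt ω (!c)) U)))
    (hcert : ∃ c, (lo hQ c (GamQ hQ ω U)).eval (-(sg Q c * GamQ hQ ω {x})) ≠ 0 ∨
      (hi hQ c (GamQ hQ ω U)).eval (-(sg Q c * GamQ hQ ω {x})) ≠ 0) :
    Irreducible (GamQ hQ ω U) := by
  apply two_letters hQ hω U hconn x hx hirr
  rintro ⟨G, H, b, hK, -, hb, hH, hu⟩
  obtain ⟨c, hc⟩ := hcert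
  have h1 := values_zero hQ hω x hK hb hH hu c
  rcases hc with h | h
  · exact h h1.1
  · exact h h1.2

end Pool.Agent.Lib.MP_5bc52d_co.Key
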