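import Mathlib
import Pool.Agent.Lib.MP_5bc52d_co.Key.Rule

/-!
# Numerical values on words and the number of admissible maps
-/

open Finset Polynomial

set_option linter.unusedSectionVars false

namespace Pool.Agent.Lib.MP_5bc52d_co.Key

open Splitting Cyc Cut

/-- the sign of a letter, as a rational number -/
def sq : Bool → ℚ
  | true => 1
  | false => -1

theorem sq_mul (c : Bool) : sq c * sq c = 1 := by
  cases c <;> norm_num [sq]

section words
variable {P : Type*} [Fintype P] [DecidableEq P] {A : Type*} [CommRing A]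

/-- the value on a word of length `n` with weights `l` -/
noncomputable def ev (cc : A →+* ℚ) (F : Bool → A →+* A[X]) :
    ℕ → (ℕ → Bool) → (ℕ → ℕ) → A →+* ℚ
  | 0, _, _ => cc
  | n + 1, t, l => (Polynomial.eval₂RingHom
      (ev cc F n (fun i => t (i + 1)) (fun i => l (i + 1))) (sq (t 0) * (l 0 : ℚ))).comp
      (F (t 0))

/-- the weighted number of ways to place `U` on a word of length `n` -/
noncomputable def Nw (r : P → P → Prop) (v : Bool → P → ℤ) :
    ℕ → (ℕ → Bool) → (ℕ → ℕ) → Finset P → ℕ
  | 0, _, _, U => if U = ∅ then 1 else 0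
  | n + 1, t, l, U => ∑ I ∈ wks r (v (t 0)) U,
      l 0 ^ I.card * Nw r v n (fun i => t (i + 1)) (fun i => l (i + 1)) (U \ I)

theorem ev_Gam {cc : A →+* ℚ} {F : Bool → A →+* A[X]} {Γ : Finset P → A} {s : Bool → A}
    {r : P → P → Prop} {v : Bool → P → ℤ} (hs1 : s true = 1) (hs2 : s false = -1)
    (hcc : ∀ U, cc (Γ U) = if U = ∅ then 1 else 0)
    (hF : ∀ c, PeelE Γ (s c) r (v c) (F c)) (n : ℕ) :
    ∀ (t : ℕ → Bool) (l : ℕ → ℕ) (U : Finset P),
      ev cc F n t l (Γ U) = (Nw r v n t l U : ℚ) := by
  induction n with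
  | zero =>
    intro t l U
    change cc (Γ U) = _
    rw [hcc, Nw]
    split_ifs <;> simp
  | succ n ih =>
    intro t l U
    change (Polynomial.eval₂RingHom (ev cc F n (fun i => t (i + 1)) (fun i => l (i + 1)))
      (sq (t 0) * (l 0 : ℚ))) (F (t 0) (Γ U)) = _
    rw [hF (t 0) U, map_sum, Nw, Nat.cast_sum]
    apply Finset.sum_congr rfl
    intro I _
    rw [coe_eval₂RingHom, eval₂_mul, eval₂_C, eval₂_pow, eval₂_X, map_mul, map_pow, ih]
    have h1 : (ev cc F n (fun i => t (i + 1)) (fun i => l (i + 1))) (s (t 0)) = sq (t 0) := by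
      cases t 0
      · rw [hs2, map_neg, map_one, sq]
      · rw [hs1, map_one, sq]
    rw [h1]
    set N := (Nw r v n (fun i => t (i + 1)) (fun i => l (i + 1)) (U \ I) : ℚ) with hN
    have h2 : sq (t 0) ^ I.card * N * (sq (t 0) * (l 0 : ℚ)) ^ I.card =
        (sq (t 0) * sq (t 0)) ^ I.card * ((l 0 : ℚ) ^ I.card * N) := by
      rw [mul_pow, mul_pow]; ring
    rw [h2, sq_mul, one_pow, one_mul, hN]
    push_cast
    rfl

theorem Nw_one {r : P → P → Prop} {v : Bool → P → ℤ} (hi : ∀ x, ¬ r x x) (x : P) (n : ℕ) :
    ∀ (t : ℕ → Bool) (l : ℕ → ℕ), Nw r v n t l {x} = ∑ i ∈ Finset.range n, l i := by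
  induction n with
  | zero =>
    intro t l
    rw [Nw, if_neg (Finset.singleton_ne_empty x), Finset.sum_range_zero]
  | succ n ih =>
    intro t l
    have h1 : wks r (v (t 0)) ({x} : Finset P) = {∅, {x}} := by
      ext I
      rw [mem_wks, Finset.mem_insert, Finset.mem_singleton]
      constructor
      · intro h
        exact Finset.subset_singleton_iff.mp h.1
      · rintro (rfl | rfl)
        · exact ⟨Finset.empty_subset _, fun a _ b hb => absurd hb (Finset.notMem_empty b)⟩
        · refine ⟨Finset.Subset.refl _, fun a ha b hb hab => ?_⟩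
          rw [Finset.mem_singleton] at ha hb
          exact absurd hab (by rw [ha, hb]; exact hi x)
    have h2 : ∀ (n : ℕ) (t : ℕ → Bool) (l : ℕ → ℕ), Nw r v n t l (∅ : Finset P) = 1 := by
      intro n
      induction n with
      | zero => intro t l; rw [Nw, if_pos rfl]
      | succ n ih =>
        intro t l
        have h3 : wks r (v (t 0)) (∅ : Finset P) = {∅} := by
          ext I
          rw [mem_wks, Finset.mem_singleton]
          constructor
          · exact fun h => Finset.subset_empty.mp h.1
          · rintro rfl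
            exact ⟨Finset.Subset.refl _, fun a ha => absurd ha (Finset.notMem_empty a)⟩
        rw [Nw, h3, Finset.sum_singleton, Finset.sdiff_empty, ih, Finset.card_empty, pow_zero,
          one_mul]
    rw [Nw, h1, Finset.sum_pair (Finset.singleton_ne_empty x).symm, Finset.sdiff_empty, ih,
      Finset.sdiff_self, h2, Finset.card_empty, pow_zero, one_mul, Finset.card_singleton,
      pow_one, mul_one, Finset.sum_range_succ']

/-! ### admissible maps -/

/-- the map `f` respects the relations inside `W`, on the word `t` -/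
def Adm (r : P → P → Prop) (v : Bool → P → ℤ) (t : ℕ → Bool) (W : Finset P) (f : P → ℕ) :
    Prop :=
  ∀ a ∈ W, ∀ b ∈ W, r a b → f a < f b ∨ (f a = f b ∧ v (t (f b)) a < v (t (f b)) b)

open Classical in
/-- the maps from `U` to the positions `0, …, n - 1` -/
noncomputable def box (U : Finset P) (n : ℕ) : Finset (P → ℕ) :=
  Fintype.piFinset (fun p => if p ∈ U then Finset.range n else {0})

theorem mem_box {U : Finset P} {n : ℕ} {f : P → ℕ} :
    f ∈ box U n ↔ (∀ p ∈ U, f p < n) ∧ ∀ p, p ∉ U → f p = 0 := by
  classical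
  rw [box, Fintype.mem_piFinset]
  constructor
  · intro h
    refine ⟨fun p hp => ?_, fun p hp => ?_⟩
    · have := h p
      rw [if_pos hp, Finset.mem_range] at this
      exact this
    · have := h p
      rw [if_neg hp, Finset.mem_singleton] at this
      exact this
  · intro h p
    split_ifs with hp
    · exact Finset.mem_range.mpr (h.1 p hp)
    · exact Finset.mem_singleton.mpr (h.2 p hp)

theorem sum_fiber {r : P → P → Prop} {v : Bool → P → ℤ} (t : ℕ → Bool) (l : ℕ → ℕ) (n : ℕ)
    {U W I : Finset P} (hI : I ⊆ U) (hW : W ⊆ U) [DecidablePred (Adm r v t W)]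
    [DecidablePred (Adm r v (fun i => t (i + 1)) (W \ I))]
    (hk : I ∩ W ∈ wks r (v (t 0)) W) :
    (∑ f ∈ ((box U (n + 1)).filter (Adm r v t W)).filter
        (fun f => U.filter (fun p => f p = 0) = I), ∏ p ∈ U, l (f p))
      = l 0 ^ I.card * ∑ g ∈ (box (U \ I) n).filter (Adm r v (fun i => t (i + 1)) (W \ I)),
        ∏ p ∈ U \ I, l (g p + 1) := by
  classical
  have hk' := mem_wks.mp hk
  rw [Finset.mul_sum]
  refine Finset.sum_bij' (fun f _ => fun p => f p - 1)
    (fun g _ => fun p => if p ∈ U \ I then g p + 1 else 0) ?_ ?_ ?_ ?_ ?_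
  · intro f hf
    simp only [Finset.mem_filter] at hf ⊢
    obtain ⟨⟨hb, ha⟩, hz⟩ := hf
    rw [mem_box] at hb ⊢
    have hz' : ∀ p ∈ U, (f p = 0 ↔ p ∈ I) := by
      intro p hp
      rw [← hz, Finset.mem_filter]
      exact ⟨fun h => ⟨hp, h⟩, fun h => h.2⟩
    refine ⟨⟨fun p hp => ?_, fun p hp => ?_⟩, ?_⟩
    · rw [Finset.mem_sdiff] at hp
      have h1 := hb.1 p hp.1
      have h2 : f p ≠ 0 := fun h => hp.2 ((hz' p hp.1).mp h)
      omega
    · rw [Finset.mem_sdiff, not_and_not_right] at hp
      by_cases hpU : p ∈ U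
      · rw [(hz' p hpU).mpr (hp hpU)]
      · rw [hb.2 p hpU]
    · intro a haW b hbW hab
      rw [Finset.mem_sdiff] at haW hbW
      have h1 : f a ≠ 0 := fun h => haW.2 ((hz' a (hW haW.1)).mp h)
      have h2 : f b ≠ 0 := fun h => hbW.2 ((hz' b (hW hbW.1)).mp h)
      rcases ha a haW.1 b hbW.1 hab with h | ⟨h, h'⟩
      · left
        simp only
        omega
      · right
        refine ⟨by simp only; omega, ?_⟩
        simp only
        rw [Nat.sub_add_cancel (by omega)]
        exact h'
  · intro g hg
    rw [Finset.mem_filter, mem_box] at hg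
    obtain ⟨hb, ha⟩ := hg
    rw [Finset.mem_filter, Finset.mem_filter, mem_box]
    refine ⟨⟨⟨fun p hp => ?_, fun p hp => ?_⟩, ?_⟩, ?_⟩
    · skip
      split_ifs with h
      · have := hb.1 p h
        omega
      · omega
    · skip
      rw [if_neg (fun h => hp (Finset.mem_sdiff.mp h).1)]
    · intro a haW b hbW hab
      simp only
      by_cases hbI : b ∈ I
      · have h1 := hk'.2 a haW b (Finset.mem_inter.mpr ⟨hbI, hbW⟩) hab
        have haI := (Finset.mem_inter.mp h1.1).1
        right
        rw [if_neg (fun h => (Finset.mem_sdiff.mp h).2 haI),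
          if_neg (fun h => (Finset.mem_sdiff.mp h).2 hbI)]
        exact ⟨rfl, h1.2⟩
      · rw [if_pos (Finset.mem_sdiff.mpr ⟨hW hbW, hbI⟩)]
        by_cases haI : a ∈ I
        · rw [if_neg (fun h => (Finset.mem_sdiff.mp h).2 haI)]
          left
          omega
        · rw [if_pos (Finset.mem_sdiff.mpr ⟨hW haW, haI⟩)]
          rcases ha a (Finset.mem_sdiff.mpr ⟨haW, haI⟩) b (Finset.mem_sdiff.mpr ⟨hbW, hbI⟩) hab
            with h | ⟨h, h'⟩
          · left
            omega
          · right
            exact ⟨by omega, h'⟩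
    · ext p
      rw [Finset.mem_filter]
      simp only
      constructor
      · rintro ⟨hp, h⟩
        by_contra hpI
        rw [if_pos (Finset.mem_sdiff.mpr ⟨hp, hpI⟩)] at h
        omega
      · intro hp
        exact ⟨hI hp, if_neg (fun h => (Finset.mem_sdiff.mp h).2 hp)⟩
  · intro f hf
    simp only [Finset.mem_filter] at hf
    obtain ⟨⟨hb, -⟩, hz⟩ := hf
    rw [mem_box] at hb
    funext p
    simp only
    split_ifs with h
    · rw [Finset.mem_sdiff, ← hz, Finset.mem_filter, not_and] at h
      have := h.2 h.1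
      omega
    · by_cases hpU : p ∈ U
      · have hpI : p ∈ I := by
          by_contra hcon
          exact h (Finset.mem_sdiff.mpr ⟨hpU, hcon⟩)
        rw [← hz, Finset.mem_filter] at hpI
        exact hpI.2.symm
      · exact (hb.2 p hpU).symm
  · intro g hg
    rw [Finset.mem_filter, mem_box] at hg
    funext p
    simp only
    split_ifs with h
    · rfl
    · exact (hg.1.2 p h).symm
  · intro f hf
    simp only [Finset.mem_filter] at hf
    obtain ⟨⟨hb, -⟩, hz⟩ := hf
    have h1 : ∏ p ∈ U, l (f p) = (∏ p ∈ U \ I, l (f p)) * ∏ p ∈ I, l (f p) :=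
      (Finset.prod_sdiff hI).symm
    have h2 : ∏ p ∈ I, l (f p) = l 0 ^ I.card := by
      rw [Finset.prod_congr rfl (g := fun _ => l 0), Finset.prod_const]
      intro p hp
      rw [← hz, Finset.mem_filter] at hp
      rw [hp.2]
    have h3 : ∏ p ∈ U \ I, l (f p) = ∏ p ∈ U \ I, l (f p - 1 + 1) := by
      apply Finset.prod_congr rfl
      intro p hp
      rw [Finset.mem_sdiff, ← hz, Finset.mem_filter, not_and] at hp
      have h4 := hp.2 hp.1
      rw [Nat.sub_add_cancel (Nat.one_le_iff_ne_zero.mpr h4)]
    rw [h1, h2, h3, mul_comm]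

theorem fiber_empty {r : P → P → Prop} {v : Bool → P → ℤ} (t : ℕ → Bool) (n : ℕ)
    {U W I : Finset P} (hW : W ⊆ U) [DecidablePred (Adm r v t W)]
    (hk : I ∩ W ∉ wks r (v (t 0)) W) :
    (((box U (n + 1)).filter (Adm r v t W)).filter
      (fun f => U.filter (fun p => f p = 0) = I)) = ∅ := by
  rw [Finset.eq_empty_iff_forall_notMem]
  intro f hf
  simp only [Finset.mem_filter] at hf
  obtain ⟨⟨hb, ha⟩, hz⟩ := hf
  apply hk
  rw [mem_wks]
  refine ⟨Finset.inter_subset_right, fun a haW b hbI hab => ?_⟩
  rw [Finset.mem_inter, ← hz, Finset.mem_filter] at hbI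
  have h1 := ha a haW b hbI.2 hab
  rw [hbI.1.2] at h1
  rcases h1 with h | ⟨h, h'⟩
  · omega
  · refine ⟨?_, h'⟩
    rw [Finset.mem_inter, ← hz, Finset.mem_filter]
    exact ⟨⟨hW haW, h⟩, haW⟩

theorem sum_adm {r : P → P → Prop} {v : Bool → P → ℤ} (n : ℕ) :
    ∀ (t : ℕ → Bool) (l : ℕ → ℕ) (U W : Finset P) (_ : W ⊆ U)
      [DecidablePred (Adm r v t W)],
      ∑ f ∈ (box U n).filter (Adm r v t W), ∏ p ∈ U, l (f p) =
        (∑ i ∈ Finset.range n, l i) ^ (U \ W).card * Nw r v n t l W := by
  classical
  induction n with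
  | zero =>
    intro t l U W hW _
    by_cases hU : U = ∅
    · have hW' : W = ∅ := Finset.subset_empty.mp (hU ▸ hW)
      subst hU
      subst hW'
      rw [Nw, if_pos rfl, Finset.sdiff_self, Finset.card_empty, pow_zero, mul_one]
      have h1 : (box (∅ : Finset P) 0).filter (Adm r v t ∅) = {fun _ => 0} := by
        ext f
        rw [Finset.mem_filter, mem_box, Finset.mem_singleton]
        constructor
        · rintro ⟨⟨-, h⟩, -⟩
          funext p
          exact h p (Finset.notMem_empty p)
        · rintro rfl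
          exact ⟨⟨fun p hp => absurd hp (Finset.notMem_empty p), fun _ _ => rfl⟩,
            fun a ha => absurd ha (Finset.notMem_empty a)⟩
      rw [h1, Finset.sum_singleton, Finset.prod_empty]
    · obtain ⟨x, hx⟩ := Finset.nonempty_iff_ne_empty.mpr hU
      have h1 : (box U 0).filter (Adm r v t W) = ∅ := by
        rw [Finset.eq_empty_iff_forall_notMem]
        intro f hf
        rw [Finset.mem_filter, mem_box] at hf
        exact absurd (hf.1.1 x hx) (Nat.not_lt_zero _)
      rw [h1, Finset.sum_empty, Finset.sum_range_zero]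
      by_cases hWU : W = U
      · subst hWU
        rw [Nw, if_neg hU, mul_zero]
      · have h2 : (U \ W).card ≠ 0 := by
          intro h
          apply hWU
          exact Finset.Subset.antisymm hW (Finset.sdiff_eq_empty_iff_subset.mp
            (Finset.card_eq_zero.mp h))
        rw [zero_pow h2, zero_mul]
  | succ n ih =>
    intro t l U W hW _
    set sg := ∑ i ∈ Finset.range n, l (i + 1) with hsg
    rw [← Finset.sum_fiberwise_of_maps_to (g := fun f => U.filter (fun p => f p = 0))
      (t := U.powerset) (fun f _ => Finset.mem_powerset.mpr (Finset.filter_subset _ _))]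
    have h1 : ∀ I ∈ U.powerset, (∑ f ∈ ((box U (n + 1)).filter (Adm r v t W)).filter
        (fun f => U.filter (fun p => f p = 0) = I), ∏ p ∈ U, l (f p)) =
        if I ∩ W ∈ wks r (v (t 0)) W then
          l 0 ^ I.card * (sg ^ ((U \ W) \ I).card *
            Nw r v n (fun i => t (i + 1)) (fun i => l (i + 1)) (W \ (I ∩ W))) else 0 := by
      intro I hI
      rw [Finset.mem_powerset] at hI
      split_ifs with hk
      · rw [sum_fiber t l n hI hW hk, ih _ (fun i => l (i + 1)) _ _
          (Finset.sdiff_subset_sdiff hW (Finset.Subset.refl _))]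
        have e1 : (U \ I) \ (W \ I) = (U \ W) \ I := by
          ext x
          simp only [Finset.mem_sdiff]
          tauto
        have e2 : W \ (I ∩ W) = W \ I := by
          ext x
          simp only [Finset.mem_sdiff, Finset.mem_inter]
          tauto
        rw [e1, e2]
      · rw [fiber_empty t n hW hk, Finset.sum_empty]
    rw [Finset.sum_congr rfl h1]
    have h2 : ∑ I ∈ U.powerset, (if I ∩ W ∈ wks r (v (t 0)) W then
          l 0 ^ I.card * (sg ^ ((U \ W) \ I).card *
            Nw r v n (fun i => t (i + 1)) (fun i => l (i + 1)) (W \ (I ∩ W))) else 0) =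
        ∑ q ∈ (wks r (v (t 0)) W) ×ˢ (U \ W).powerset,
          (l 0 ^ q.1.card * Nw r v n (fun i => t (i + 1)) (fun i => l (i + 1)) (W \ q.1)) *
            (l 0 ^ q.2.card * sg ^ ((U \ W).card - q.2.card)) := by
      rw [← Finset.sum_filter]
      refine Finset.sum_bij' (fun I _ => (I ∩ W, I \ W)) (fun q _ => q.1 ∪ q.2) ?_ ?_ ?_ ?_ ?_
      · intro I hI
        rw [Finset.mem_filter, Finset.mem_powerset] at hI
        rw [Finset.mem_product, Finset.mem_powerset]
        exact ⟨hI.2, Finset.sdiff_subset_sdiff hI.1 (Finset.Subset.refl _)⟩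
      · intro q hq
        rw [Finset.mem_product, Finset.mem_powerset] at hq
        obtain ⟨h3, h4⟩ := hq
        have h5 := (mem_wks.mp h3).1
        rw [Finset.mem_filter, Finset.mem_powerset]
        refine ⟨Finset.union_subset (h5.trans hW) (h4.trans Finset.sdiff_subset), ?_⟩
        have h6 : (q.1 ∪ q.2) ∩ W = q.1 := by
          ext x
          rw [Finset.mem_inter, Finset.mem_union]
          constructor
          · rintro ⟨h | h, hx⟩
            · exact h
            · exact absurd hx (Finset.mem_sdiff.mp (h4 h)).2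
          · intro h
            exact ⟨Or.inl h, h5 h⟩
        rw [h6]
        exact h3
      · intro I hI
        ext x
        simp only [Finset.mem_union, Finset.mem_inter, Finset.mem_sdiff]
        tauto
      · intro q hq
        rw [Finset.mem_product, Finset.mem_powerset] at hq
        obtain ⟨h3, h4⟩ := hq
        have h5 := (mem_wks.mp h3).1
        apply Prod.ext
        · ext x
          simp only [Finset.mem_inter, Finset.mem_union]
          constructor
          · rintro ⟨h | h, hx⟩
            · exact h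
            · exact absurd hx (Finset.mem_sdiff.mp (h4 h)).2
          · intro h
            exact ⟨Or.inl h, h5 h⟩
        · ext x
          simp only [Finset.mem_sdiff, Finset.mem_union]
          constructor
          · rintro ⟨h | h, hx⟩
            · exact absurd (h5 h) hx
            · exact h
          · intro h
            exact ⟨Or.inr h, (Finset.mem_sdiff.mp (h4 h)).2⟩
      · intro I hI
        rw [Finset.mem_filter, Finset.mem_powerset] at hI
        simp only
        have e1 : (U \ W) \ I = (U \ W) \ (I \ W) := by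
          ext x
          simp only [Finset.mem_sdiff]
          tauto
        have e2 : I.card = (I ∩ W).card + (I \ W).card :=
          (Finset.card_inter_add_card_sdiff I W).symm
        have e3 : I \ W ⊆ U \ W := Finset.sdiff_subset_sdiff hI.1 (Finset.Subset.refl _)
        rw [e1, Finset.card_sdiff_of_subset e3, e2, pow_add]
        ring
    rw [h2, Finset.sum_product, Nw, Finset.mul_sum]
    apply Finset.sum_congr rfl
    intro I _
    simp only
    rw [← Finset.mul_sum, mul_comm]
    congr 1
    rw [Finset.sum_pow_mul_eq_add_pow, hsg, Finset.sum_range_succ', add_comm]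

/-- the unweighted version -/
theorem card_adm {r : P → P → Prop} {v : Bool → P → ℤ} (n : ℕ) (t : ℕ → Bool)
    (U W : Finset P) (hW : W ⊆ U) [DecidablePred (Adm r v t W)] :
    ((box U n).filter (Adm r v t W)).card =
      n ^ (U \ W).card * Nw r v n t (fun _ => 1) W := by
  have h := sum_adm (r := r) (v := v) n t (fun _ => 1) U W hW
  simp only [Finset.prod_const_one, Finset.sum_const, Finset.card_range, smul_eq_mul,
    mul_one] at h
  exact h

end words

end Pool.Agent.Lib.MP_5bc52d_co.Key
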