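import Mathlib
import Pool.Agent.Lib.MP_5bc52d_co.Key.Eval

/-!
# Signed counts of maps over the terminal subsets of a forest
-/

open Finset Polynomial

set_option linter.unusedSectionVars false

namespace Pool.Agent.Lib.MP_5bc52d_co.Key

open Splitting Cyc Cut

section good
variable {P : Type*} [Fintype P] [DecidableEq P]

/-- the pair `a`, `b` is placed correctly by `f` -/
def Ok (v : Bool → P → ℤ) (t : ℕ → Bool) (f : P → ℕ) (a b : P) : Prop :=
  f a < f b ∨ (f a = f b ∧ v (t (f b)) a < v (t (f b)) b)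

open Classical in
/-- the elements at the top of a wrongly placed pair -/
noncomputable def Dv (r : P → P → Prop) (v : Bool → P → ℤ) (t : ℕ → Bool) (C : Finset P)
    (f : P → ℕ) : Finset P :=
  C.filter (fun b => ∃ a ∈ C, r a b ∧ ¬ Ok v t f a b)

theorem mem_Dv {r : P → P → Prop} {v : Bool → P → ℤ} {t : ℕ → Bool} {C : Finset P}
    {f : P → ℕ} {b : P} : b ∈ Dv r v t C f ↔ b ∈ C ∧ ∃ a ∈ C, r a b ∧ ¬ Ok v t f a b := by
  classical
  rw [Dv, Finset.mem_filter]

variable {r : P → P → Prop} {v : Bool → P → ℤ} {t : ℕ → Bool} {C B : Finset P}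

theorem adm_iff (hBC : B ⊆ C) (hup : ∀ a ∈ B, ∀ b ∈ C, r a b → b ∈ B) {V : Finset P}
    (hV : V ∈ dsets (fun a b => r b a) B ∅) (f : P → ℕ) :
    Adm r v t (C \ V) f ↔ Dv r v t C f ⊆ V := by
  rw [mem_dsets] at hV
  obtain ⟨h1, -, h3⟩ := hV
  constructor
  · intro h b hb
    rw [mem_Dv] at hb
    obtain ⟨hbC, a, haC, hab, hbad⟩ := hb
    by_contra hbV
    apply hbad
    refine h a (Finset.mem_sdiff.mpr ⟨haC, fun haV => hbV ?_⟩) b
      (Finset.mem_sdiff.mpr ⟨hbC, hbV⟩) hab
    exact h3 b (hup a (h1 haV) b hbC hab) a haV hab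
  · intro h a ha b hb hab
    by_contra hbad
    rw [Finset.mem_sdiff] at ha hb
    exact hb.2 (h (mem_Dv.mpr ⟨hb.1, a, ha.1, hab, hbad⟩))

/-- forcing an element into the sets -/
theorem force {D : Finset P} {c p : P} (hc : c ∈ B) (hcD : c ∉ D)
    (habove : ∀ z ∈ B, r c z → z ∈ D) (hpc : r p c)
    (hp : ∀ z ∈ B, r z c → z = p ∨ r z p) (hpB : p ∈ B) (hi : ∀ x, ¬ r x x) :
    ∑ V ∈ dsets (fun a b => r b a) B D, (-1 : ℤ) ^ V.card =
      ∑ V ∈ dsets (fun a b => r b a) B (insert p D), (-1 : ℤ) ^ V.card := by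
  classical
  rw [← Finset.sum_filter_add_sum_filter_not (dsets (fun a b => r b a) B D) (fun V => p ∈ V)]
  have h1 : (dsets (fun a b => r b a) B D).filter (fun V => p ∈ V) =
      dsets (fun a b => r b a) B (insert p D) := by
    ext V
    rw [Finset.mem_filter, mem_dsets, mem_dsets]
    constructor
    · rintro ⟨⟨h1, h2, h3⟩, h4⟩
      exact ⟨h1, Finset.insert_subset h4 h2, h3⟩
    · rintro ⟨h1, h2, h3⟩
      rw [Finset.insert_subset_iff] at h2
      exact ⟨⟨h1, h2.2, h3⟩, h2.1⟩
  have hcp : c ≠ p := fun h => hi p (h ▸ hpc)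
  have h2 : ∑ V ∈ (dsets (fun a b => r b a) B D).filter (fun V => ¬ p ∈ V),
      (-1 : ℤ) ^ V.card = 0 := by
    refine Finset.sum_involution (fun V _ => if c ∈ V then V.erase c else insert c V) ?_ ?_ ?_ ?_
    · intro V _
      by_cases h : c ∈ V
      · simp only [if_pos h]
        rw [← Finset.card_erase_add_one h, pow_succ]
        ring
      · simp only [if_neg h]
        rw [Finset.card_insert_of_notMem h, pow_succ]
        ring
    · intro V _ _
      by_cases h : c ∈ V
      · simp only [if_pos h]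
        intro h1
        rw [← h1] at h
        exact (Finset.mem_erase.mp h).1 rfl
      · simp only [if_neg h]
        intro h1
        rw [← h1] at h
        exact h (Finset.mem_insert_self c V)
    · intro V hV
      rw [Finset.mem_filter, mem_dsets] at hV
      obtain ⟨⟨h1, h2, h3⟩, h4⟩ := hV
      rw [Finset.mem_filter, mem_dsets]
      by_cases h : c ∈ V
      · simp only [if_pos h]
        refine ⟨⟨fun y hy => h1 (Finset.mem_erase.mp hy).2, fun y hy => ?_,
          fun a ha b hb hab => ?_⟩, fun hy => h4 (Finset.mem_erase.mp hy).2⟩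
        · exact Finset.mem_erase.mpr ⟨fun h5 => hcD (h5 ▸ hy), h2 hy⟩
        · rw [Finset.mem_erase] at hb ⊢
          refine ⟨fun h5 => ?_, h3 a ha b hb.2 hab⟩
          subst h5
          rcases hp b (h1 hb.2) hab with h6 | h6
          · exact h4 (h6 ▸ hb.2)
          · exact h4 (h3 p hpB b hb.2 h6)
      · simp only [if_neg h]
        refine ⟨⟨fun y hy => ?_, fun y hy => Finset.mem_insert_of_mem (h2 hy),
          fun a ha b hb hab => ?_⟩, fun hy => ?_⟩
        · rcases Finset.mem_insert.mp hy with h5 | h5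
          · exact h5 ▸ hc
          · exact h1 h5
        · rcases Finset.mem_insert.mp hb with h5 | h5
          · subst h5
            exact Finset.mem_insert_of_mem (h2 (habove a ha hab))
          · exact Finset.mem_insert_of_mem (h3 a ha b h5 hab)
        · rcases Finset.mem_insert.mp hy with h5 | h5
          · exact hcp h5.symm
          · exact h4 h5
    · intro V _
      by_cases h : c ∈ V
      · simp only [if_pos h, Finset.notMem_erase, if_false]
        exact Finset.insert_erase h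
      · simp only [if_neg h, Finset.mem_insert_self, if_true]
        exact Finset.erase_insert h
  rw [h1, h2, add_zero]

/-- a map is good when each root of `B` is wrongly placed, or has a correctly placed child
all of whose upper elements are wrongly placed -/
def Good (r : P → P → Prop) (v : Bool → P → ℤ) (t : ℕ → Bool) (C B : Finset P)
    (f : P → ℕ) : Prop :=
  Dv r v t C f ⊆ B ∧ ∀ p ∈ B, (∀ y ∈ B, ¬ r y p) → p ∈ Dv r v t C f ∨
    ∃ c ∈ B, c ∉ Dv r v t C f ∧ r p c ∧ (∀ z ∈ B, r z c → z = p) ∧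
      ∀ z ∈ B, r c z → z ∈ Dv r v t C f

theorem good_sum (ht : ∀ x y z, r x y → r y z → r x z) (hi : ∀ x, ¬ r x x) {f : P → ℕ}
    (hf : Good r v t C B f) :
    ∑ V ∈ dsets (fun a b => r b a) B (Dv r v t C f), (-1 : ℤ) ^ V.card = (-1) ^ B.card := by
  classical
  set D := Dv r v t C f with hD
  have key : ∀ S : Finset P, (∀ p ∈ S, p ∈ B ∧ ∀ y ∈ B, ¬ r y p) →
      ∑ V ∈ dsets (fun a b => r b a) B D, (-1 : ℤ) ^ V.card =
        ∑ V ∈ dsets (fun a b => r b a) B (S ∪ D), (-1 : ℤ) ^ V.card := by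
    intro S
    induction S using Finset.induction_on with
    | empty => intro _; rw [Finset.empty_union]
    | insert p S hpS ih =>
      intro hS
      have hS' : ∀ q ∈ S, q ∈ B ∧ ∀ y ∈ B, ¬ r y q := fun q hq =>
        hS q (Finset.mem_insert_of_mem hq)
      obtain ⟨hpB, hp⟩ := hS p (Finset.mem_insert_self p S)
      rw [ih hS', Finset.insert_union]
      rcases hf.2 p hpB hp with h | ⟨c, hcB, hcD, hpc, hcl, hcu⟩
      · rw [Finset.insert_eq_of_mem (Finset.mem_union_right _ h)]
      · refine force hcB ?_ (fun z hz hcz => Finset.mem_union_right _ (hcu z hz hcz)) hpc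
          (fun z hz hzc => Or.inl (hcl z hz hzc)) hpB hi
        intro h
        rcases Finset.mem_union.mp h with h | h
        · exact (hS' c h).2 p hpB hpc
        · exact hcD h
  rw [key (B.filter (fun p => ∀ y ∈ B, ¬ r y p)) (fun p hp => Finset.mem_filter.mp hp)]
  have h1 : dsets (fun a b => r b a) B (B.filter (fun p => ∀ y ∈ B, ¬ r y p) ∪ D) = {B} := by
    ext V
    rw [mem_dsets, Finset.mem_singleton]
    constructor
    · rintro ⟨h1, h2, h3⟩
      refine Finset.Subset.antisymm h1 fun x hx => ?_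
      by_cases hroot : ∀ y ∈ B, ¬ r y x
      · exact h2 (Finset.mem_union_left _ (Finset.mem_filter.mpr ⟨hx, hroot⟩))
      · push Not at hroot
        have : IsTrans P r := ⟨ht⟩
        have : Std.Irrefl r := ⟨hi⟩
        have hwf : WellFounded r := Finite.wellFounded_of_trans_of_irrefl _
        obtain ⟨y₀, hy₀, hy₀x⟩ := hroot
        obtain ⟨p, ⟨hpB, hpx⟩, hmin⟩ := hwf.has_min {p : P | p ∈ B ∧ r p x} ⟨y₀, hy₀, hy₀x⟩
        have hpV : p ∈ V := by
          refine h2 (Finset.mem_union_left _ (Finset.mem_filter.mpr ⟨hpB, fun y hy hyp => ?_⟩))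
          exact hmin y ⟨hy, ht _ _ _ hyp hpx⟩ hyp
        exact h3 x hx p hpV hpx
    · rintro rfl
      refine ⟨Finset.Subset.refl _, Finset.union_subset (Finset.filter_subset _ _) hf.1,
        fun a ha _ _ _ => ha⟩
  rw [h1, Finset.sum_singleton]

/-- the signed sum of the weighted numbers of placements -/
noncomputable def SS (r : P → P → Prop) (v : Bool → P → ℤ) (t : ℕ → Bool) (l : ℕ → ℕ) (n : ℕ)
    (C B : Finset P) : ℤ :=
  ∑ V ∈ dsets (fun a b => r b a) B ∅, (-1) ^ V.card *
    (((∑ i ∈ Finset.range n, l i : ℕ) : ℤ) ^ V.card * (Nw r v n t l (C \ V) : ℤ))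

theorem SS_eq (ht : ∀ x y z, r x y → r y z → r x z) (hi : ∀ x, ¬ r x x) (hBC : B ⊆ C)
    (hup : ∀ a ∈ B, ∀ b ∈ C, r a b → b ∈ B) (hone : OneUp (fun a b => r b a) B) (n : ℕ)
    (l : ℕ → ℕ) :
    ∃ g : ℕ, SS r v t l n C B = (-1) ^ B.card * g ∧
      (∀ f ∈ box C n, Good r v t C B f → ∏ p ∈ C, l (f p) ≤ g) := by
  classical
  have hval : ∀ f : P → ℕ, ∃ s : ℕ, ∑ V ∈ (dsets (fun a b => r b a) B ∅).filter
      (fun V => Adm r v t (C \ V) f), (-1 : ℤ) ^ V.card = (-1) ^ B.card * s ∧
      (Good r v t C B f → 0 < s) := by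
    intro f
    have h0 : (dsets (fun a b => r b a) B ∅).filter (fun V => Adm r v t (C \ V) f) =
        (dsets (fun a b => r b a) B ∅).filter (fun V => Dv r v t C f ⊆ V) := by
      apply Finset.filter_congr
      intro V hV
      exact adm_iff hBC hup hV f
    rw [h0]
    by_cases hDB : Dv r v t C f ⊆ B
    · have h1 : (dsets (fun a b => r b a) B ∅).filter (fun V => Dv r v t C f ⊆ V) =
          dsets (fun a b => r b a) B (Dv r v t C f) := by
        ext V
        rw [Finset.mem_filter, mem_dsets, mem_dsets]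
        constructor
        · rintro ⟨⟨h1, -, h3⟩, h4⟩
          exact ⟨h1, h4, h3⟩
        · rintro ⟨h1, h2, h3⟩
          exact ⟨⟨h1, Finset.empty_subset _, h3⟩, h2⟩
      rw [h1]
      obtain ⟨s, hs, hs'⟩ := forest_sum (r := fun a b => r b a)
        (fun x y z h1 h2 => ht _ _ _ h2 h1) hi _ B (Dv r v t C f) rfl hDB hone
      refine ⟨s.toNat, ?_, fun hg => ?_⟩
      · rw [hs']
        rcases hs with h | h <;> rw [h] <;> rfl
      · have h2 := good_sum ht hi hg
        rw [hs'] at h2
        rcases hs with h | h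
        · rw [h, mul_zero] at h2
          exact absurd h2.symm (pow_ne_zero _ (by norm_num))
        · rw [h]
          norm_num
    · refine ⟨0, ?_, fun hg => absurd hg.1 hDB⟩
      rw [Finset.filter_false_of_mem, Finset.sum_empty, Nat.cast_zero, mul_zero]
      intro V hV h
      exact hDB (h.trans (mem_dsets.mp hV).1)
  choose s hs hs' using hval
  refine ⟨∑ f ∈ box C n, s f * ∏ p ∈ C, l (f p), ?_, ?_⟩
  · have h1 : SS r v t l n C B = ∑ V ∈ dsets (fun a b => r b a) B ∅, ∑ f ∈ box C n,
        (if Adm r v t (C \ V) f then (-1 : ℤ) ^ V.card else 0) *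
          ((∏ p ∈ C, l (f p) : ℕ) : ℤ) := by
      rw [SS]
      apply Finset.sum_congr rfl
      intro V hV
      have hVC : V ⊆ C := (mem_dsets.mp hV).1.trans hBC
      have h2 := sum_adm (r := r) (v := v) n t l C (C \ V) Finset.sdiff_subset
      rw [Finset.sdiff_sdiff_eq_self hVC] at h2
      have h3 : ∑ f ∈ box C n, (if Adm r v t (C \ V) f then (-1 : ℤ) ^ V.card else 0) *
          ((∏ p ∈ C, l (f p) : ℕ) : ℤ) = ∑ f ∈ (box C n).filter (Adm r v t (C \ V)),
            (-1 : ℤ) ^ V.card * ((∏ p ∈ C, l (f p) : ℕ) : ℤ) := by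
        rw [Finset.sum_filter]
        apply Finset.sum_congr rfl
        intro f _
        split_ifs <;> ring
      rw [h3, ← Finset.mul_sum, ← Nat.cast_sum, h2]
      push_cast
      ring
    rw [h1, Finset.sum_comm]
    have h2 : ∀ f ∈ box C n, (∑ V ∈ dsets (fun a b => r b a) B ∅,
        (if Adm r v t (C \ V) f then (-1 : ℤ) ^ V.card else 0) *
          ((∏ p ∈ C, l (f p) : ℕ) : ℤ)) =
        (-1) ^ B.card * ((s f * ∏ p ∈ C, l (f p) : ℕ) : ℤ) := by
      intro f _
      rw [← Finset.sum_mul, ← Finset.sum_filter, hs f]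
      push_cast
      ring
    rw [Finset.sum_congr rfl h2, ← Finset.mul_sum]
    push_cast
    rfl
  · intro f hf hg
    calc ∏ p ∈ C, l (f p) ≤ s f * ∏ p ∈ C, l (f p) :=
          Nat.le_mul_of_pos_left _ (hs' f hg)
      _ ≤ _ := Finset.single_le_sum (f := fun f => s f * ∏ p ∈ C, l (f p))
          (fun _ _ => Nat.zero_le _) hf

end good

end Pool.Agent.Lib.MP_5bc52d_co.Key
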