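import Mathlib
import Pool.Agent.Lib.MP_5bc52d_co.Key.Good

/-!
# Longest chains and the certificate for a greatest element
-/

open Finset Polynomial

set_option linter.unusedSectionVars false

namespace Pool.Agent.Lib.MP_5bc52d_co.Key

open Splitting Cyc Cut

section chain
variable {P : Type*} [Fintype P] [DecidableEq P] {r : P → P → Prop}
  (ht : ∀ x y z, r x y → r y z → r x z) (hi : ∀ x, ¬ r x x)
include ht hi

/-- recursion along a well-founded relation, by maxima -/
theorem exists_sup (S : Finset P) (F : P → P → ℕ → ℕ) :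
    ∃ g : P → ℕ, ∀ y, (∀ z ∈ S, r z y → F y z (g z) ≤ g y) ∧
      (g y = 0 ∨ ∃ z ∈ S, r z y ∧ g y = F y z (g z)) := by
  classical
  have : IsTrans P r := ⟨ht⟩
  have : Std.Irrefl r := ⟨hi⟩
  have hwf : WellFounded r := Finite.wellFounded_of_trans_of_irrefl _
  set G : ∀ y : P, (∀ z : P, r z y → ℕ) → ℕ := fun y ih =>
    (S.filter (fun z => r z y)).attach.sup
      (fun z => F y z.1 (ih z.1 (Finset.mem_filter.mp z.2).2)) with hG
  refine ⟨hwf.fix G, fun y => ?_⟩
  have h1 : hwf.fix G y = (S.filter (fun z => r z y)).sup (fun z => F y z (hwf.fix G z)) := by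
    rw [hwf.fix_eq]
    exact Finset.sup_attach (S.filter (fun z => r z y)) (fun z => F y z (hwf.fix G z))
  constructor
  · intro z hz hzy
    rw [h1]
    exact Finset.le_sup (f := fun z => F y z (hwf.fix G z)) (Finset.mem_filter.mpr ⟨hz, hzy⟩)
  · rcases (S.filter (fun z => r z y)).eq_empty_or_nonempty with h | h
    · left
      rw [h1, h, Finset.sup_empty]
      rfl
    · right
      obtain ⟨z, hz, hz'⟩ := Finset.exists_mem_eq_sup _ h (fun z => F y z (hwf.fix G z))
      rw [Finset.mem_filter] at hz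
      exact ⟨z, hz.1, hz.2, h1.trans hz'⟩

end chain

section cert
variable {P : Type*} [Fintype P] [DecidableEq P] {r : P → P → Prop} {v : Bool → P → ℤ}

/-- there is a chain of `k` steps from `z` to `m` through `C`, of kinds `κ 0, …, κ (k - 1)` -/
def Has (r : P → P → Prop) (v : Bool → P → ℤ) (C : Finset P) (m : P) : (ℕ → Bool) → ℕ → P → Prop
  | _, 0, z => z = m
  | κ, k + 1, z => z ∈ C ∧ ∃ z', r z z' ∧ v (κ 0) z < v (κ 0) z' ∧
      Has r v C m (fun i => κ (i + 1)) k z'

variable {C B : Finset P} {m : P}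

theorem Has_congr {κ κ' : ℕ → Bool} {k : ℕ} {z : P} (h : ∀ i < k, κ i = κ' i)
    (hz : Has r v C m κ k z) : Has r v C m κ' k z := by
  induction k generalizing κ κ' z with
  | zero => exact hz
  | succ k ih =>
    obtain ⟨h1, z', h2, h3, h4⟩ := hz
    refine ⟨h1, z', h2, ?_, ih (fun i hik => h (i + 1) (by omega)) h4⟩
    rw [← h 0 (by omega)]
    exact h3

/-- a map on the complementary word cannot reach the top -/
theorem Has_le (hv : ∀ c p, v (!c) p = - v c p) {t : ℕ → Bool} {f : P → ℕ}
    (hf : Adm r v t (insert m C) f) {κ : ℕ → Bool} {k i : ℕ} {z : P}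
    (hz : Has r v C m κ k z) (hfz : i ≤ f z) (hκ : ∀ j < k, t (i + j) = !(κ j)) :
    i + k ≤ f m := by
  induction k generalizing κ i z with
  | zero =>
    rw [add_zero, ← (show z = m from hz)]
    exact hfz
  | succ k ih =>
    obtain ⟨h1, z', h2, h3, h4⟩ := hz
    have hz' : z' ∈ insert m C := by
      cases k with
      | zero => rw [show z' = m from h4]; exact Finset.mem_insert_self _ _
      | succ k => exact Finset.mem_insert_of_mem h4.1
    have h5 : i + 1 ≤ f z' := by
      rcases hf z (Finset.mem_insert_of_mem h1) z' hz' h2 with h | ⟨h, h'⟩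
      · omega
      · by_contra hcon
        have h6 : f z' = i := by omega
        rw [h6] at h'
        have h7 := hκ 0 (by omega)
        rw [add_zero] at h7
        rw [h7, hv, hv] at h'
        omega
    have h6 := ih (i := i + 1) (κ := fun i => κ (i + 1)) h4 h5 (fun j hj => by
      rw [← hκ (j + 1) (by omega)]
      congr 1
      omega)
    omega

theorem Has_v (ht : ∀ x y z, r x y → r y z → r x z) {c : Bool} {k : ℕ} {z : P}
    (hz : Has r v C m (fun _ => c) k z) : z = m ∨ v c z < v c m := by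
  induction k generalizing z with
  | zero => exact Or.inl hz
  | succ k ih =>
    obtain ⟨-, z', -, h3, h4⟩ := hz
    right
    rcases ih h4 with h | h
    · rw [← h]
      exact h3
    · exact h3.trans h

end cert

section main
variable {P : Type*} [Fintype P] [DecidableEq P] {r : P → P → Prop} {v : Bool → P → ℤ}
  (ht : ∀ x y z, r x y → r y z → r x z) (hi : ∀ x, ¬ r x x)
  (hv : ∀ c p, v (!c) p = - v c p) (hinj : Function.Injective (v true))
include ht hi hv hinj

omit ht hi in
theorem v_or (c : Bool) {a b : P} (hab : a ≠ b) (h : ¬ v c a < v c b) :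
    v (!c) a < v (!c) b := by
  have h1 : v true a ≠ v true b := fun h => hab (hinj h)
  rw [hv, hv]
  cases c
  · have h2 := hv true a
    have h3 := hv true b
    simp only [Bool.not_true] at h2 h3
    omega
  · omega

variable {C B : Finset P} {m : P} (hmC : m ∉ C) (hm : ∀ p ∈ C, r p m) {e : Bool}
  (hB : B = (AL (fun a b => r b a) (v (!e)) (insert m C)).erase m)
include hmC hm hB

omit hinj ht hi in
theorem B_sub : B ⊆ C := by
  intro x hx
  rw [hB, Finset.mem_erase, mem_AL, Finset.mem_insert] at hx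
  exact hx.2.1.resolve_left hx.1

omit hinj ht hi in
theorem B_top {x : P} (hx : x ∈ B) : v e x < v e m := by
  have hxC := B_sub hv hmC hm hB hx
  rw [hB, Finset.mem_erase, mem_AL] at hx
  have h1 := hx.2.2 m (Finset.mem_insert_self m C) x (Finset.mem_insert_of_mem hxC)
    (hm x hxC) (Or.inl rfl)
  rw [hv, hv] at h1
  omega

omit hinj in
theorem B_up {a b : P} (ha : a ∈ B) (hb : b ∈ C) (hab : r a b) : b ∈ B := by
  have ha' := ha
  rw [hB, Finset.mem_erase] at ha'
  have h1 := (Wk_AL (r := fun a b => r b a) (fun x y z h1 h2 => ht _ _ _ h2 h1)).2 b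
    (Finset.mem_insert_of_mem hb) a ha'.2 hab
  rw [hB, Finset.mem_erase]
  exact ⟨fun h => hmC (h ▸ hb), h1.1⟩

omit hinj in
theorem B_of_max {x : P} (hx : x ∈ C) (hmax : ∀ y ∈ C, ¬ r x y) (hxe : v e x < v e m) :
    x ∈ B := by
  rw [hB, Finset.mem_erase, mem_AL]
  refine ⟨fun h => hmC (h ▸ hx), Finset.mem_insert_of_mem hx, fun a ha b hb hab h => ?_⟩
  have hbm : ∀ y ∈ insert m C, r x y → y = m := by
    intro y hy hxy
    rcases Finset.mem_insert.mp hy with h1 | h1
    · exact h1
    · exact absurd hxy (hmax y h1)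
  have hnm : ∀ y ∈ insert m C, ¬ r m y := by
    intro y hy hmy
    rcases Finset.mem_insert.mp hy with h1 | h1
    · exact hi m (h1 ▸ hmy)
    · exact hi m (ht _ _ _ hmy (hm y h1))
  rcases h with h | h
  · subst h
    rw [hbm a ha hab, hv, hv]
    omega
  · have h1 := hbm b hb h
    subst h1
    exact absurd hab (hnm a ha)

/-- the greedy placement from above -/
theorem greedy {S : Finset P} (hS : S ⊆ C) {ρ : P → ℕ}
    (hρ : ∀ a ∈ insert m C, ∀ b ∈ insert m C, r a b → ρ a + 1 ≤ ρ b) (t : ℕ → Bool) :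
    ∃ h : P → ℕ, (∀ y ∈ S, h y < ρ m ∧ ρ y ≤ h y) ∧
      (∀ y ∈ S, ∀ z ∈ S, r y z → Ok v t h y z) ∧
      (∀ y ∈ S, (∀ z ∈ S, ¬ r y z) → h y = ρ m - 1) ∧
      ∀ y ∈ S, h y + 1 < ρ m → ∃ z ∈ S, r y z ∧ (h z = h y ∨ (h z = h y + 1 ∧
        ¬ v (t (h z)) y < v (t (h z)) z)) := by
  classical
  obtain ⟨g, hg⟩ := exists_sup (r := fun a b => r b a) (fun x y z h1 h2 => ht _ _ _ h2 h1) hi S
    (fun y z k => if v (t (ρ m - 1 - k)) y < v (t (ρ m - 1 - k)) z then k else k + 1)
  have : IsTrans P (fun a b => r b a) := ⟨fun x y z h1 h2 => ht _ _ _ h2 h1⟩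
  have : Std.Irrefl (fun a b : P => r b a) := ⟨hi⟩
  have hwf : WellFounded (fun a b : P => r b a) := Finite.wellFounded_of_trans_of_irrefl _
  have hrank : ∀ y ∈ C, ρ y + 1 ≤ ρ m := fun y hy =>
    hρ y (Finset.mem_insert_of_mem hy) m (Finset.mem_insert_self m C) (hm y hy)
  have hbound : ∀ y : P, y ∈ S → g y + ρ y + 1 ≤ ρ m := by
    intro y
    induction y using hwf.induction with
    | _ y ih =>
      intro hy
      rcases (hg y).2 with h | ⟨z, hz, hyz, h⟩
      · rw [h, zero_add]
        exact hrank y (hS hy)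
      · have h1 := ih z hyz hz
        have h2 := hρ y (Finset.mem_insert_of_mem (hS hy)) z (Finset.mem_insert_of_mem (hS hz)) hyz
        have h3 : g y ≤ g z + 1 := by
          rw [h]
          split_ifs <;> omega
        omega
  refine ⟨fun y => ρ m - 1 - g y, fun y hy => ?_, fun y hy z hz hyz => ?_, fun y hy hmax => ?_,
    fun y hy hlt => ?_⟩
  · have := hbound y hy
    simp only
    omega
  · have h1 := (hg y).1 z hz hyz
    have h2 := hbound y hy
    have h3 := hbound z hz
    rw [Ok]
    skip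
    by_cases hk : v (t (ρ m - 1 - g z)) y < v (t (ρ m - 1 - g z)) z
    · rw [if_pos hk] at h1
      by_cases h4 : g z = g y
      · right
        exact ⟨by omega, hk⟩
      · left
        omega
    · rw [if_neg hk] at h1
      left
      omega
  · rcases (hg y).2 with h | ⟨z, hz, hyz, h⟩
    · simp only
      rw [h, Nat.sub_zero]
    · exact absurd hyz (hmax z hz)
  · simp only at hlt ⊢
    have h0 := hbound y hy
    rcases (hg y).2 with h | ⟨z, hz, hyz, h⟩
    · omega
    · refine ⟨z, hz, hyz, ?_⟩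
      have h3 := hbound z hz
      by_cases hk : v (t (ρ m - 1 - g z)) y < v (t (ρ m - 1 - g z)) z
      · rw [if_pos hk] at h
        left
        omega
      · rw [if_neg hk] at h
        right
        exact ⟨by omega, hk⟩

end main

end Pool.Agent.Lib.MP_5bc52d_co.Key
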