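import Mathlib
import Pool.Agent.Lib.MP_5bc52d_co.Key.Chain

/-!
# No vanishing on the words of longest chains
-/

open Finset Polynomial

set_option linter.unusedSectionVars false

namespace Pool.Agent.Lib.MP_5bc52d_co.Key

open Splitting Cyc Cut

section main
variable {P : Type*} [Fintype P] [DecidableEq P] {r : P → P → Prop} {v : Bool → P → ℤ}
  (ht : ∀ x y z, r x y → r y z → r x z) (hi : ∀ x, ¬ r x x)
  (hv : ∀ c p, v (!c) p = - v c p) (hinj : Function.Injective (v true))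
  {C B : Finset P} {m : P} (hmC : m ∉ C) (hm : ∀ p ∈ C, r p m) {e : Bool}
  (hB : B = (AL (fun a b => r b a) (v (!e)) (insert m C)).erase m)
  {ρ : P → ℕ} (hρ : ∀ a ∈ insert m C, ∀ b ∈ insert m C, r a b → ρ a + 1 ≤ ρ b)
include ht hi hv hinj hmC hm hB hρ

omit hinj hB in
theorem Nw_zero {κ : ℕ → Bool} {k : ℕ} {z : P} (hz : Has r v C m κ k z) {t : ℕ → Bool}
    (hκ : ∀ j < k, t j = !(κ j)) : Nw r v k t (fun _ => 1) (insert m C) = 0 := by
  classical
  by_contra hne
  have h1 := card_adm (r := r) (v := v) k t (insert m C) (insert m C) (Finset.Subset.refl _)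
  rw [Finset.sdiff_self, Finset.card_empty, pow_zero, one_mul] at h1
  obtain ⟨f, hf⟩ := Finset.card_pos.mp (by rw [h1]; omega)
  rw [Finset.mem_filter, mem_box] at hf
  have h2 := Has_le hv hf.2 hz (Nat.zero_le (f z)) (fun j hj => by
    rw [zero_add]
    exact hκ j hj)
  have h3 := hf.1.1 m (Finset.mem_insert_self m C)
  omega

omit hinj hB in
theorem Nw_pos (t : ℕ → Bool) : Nw r v (ρ m + 1) t (fun _ => 1) (insert m C) ≠ 0 := by
  classical
  have h1 := card_adm (r := r) (v := v) (ρ m + 1) t (insert m C) (insert m C)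
    (Finset.Subset.refl _)
  rw [Finset.sdiff_self, Finset.card_empty, pow_zero, one_mul] at h1
  rw [← h1]
  apply Finset.card_ne_zero_of_mem (a := fun p => if p ∈ insert m C then ρ p else 0)
  rw [Finset.mem_filter, mem_box]
  refine ⟨⟨fun p hp => ?_, fun p hp => if_neg hp⟩, fun a ha b hb hab => ?_⟩
  · skip
    rw [if_pos hp]
    rcases Finset.mem_insert.mp hp with h | h
    · rw [h]
      omega
    · have := hρ p hp m (Finset.mem_insert_self m C) (hm p h)
      omega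
  · left
    simp only
    rw [if_pos ha, if_pos hb]
    have := hρ a ha b hb hab
    omega

/-- the chain forced by a value `0` of the greedy placement -/
theorem chain_of_zero {S : Finset P} (hS : S ⊆ C)
    (hSB : ∀ z ∈ S, (∀ y ∈ C, ¬ r z y) → z ∉ B) {κ t : ℕ → Bool}
    (hκ : ∀ j < ρ m, t j = !(κ j)) {h : P → ℕ} (h1 : ∀ y ∈ S, h y < ρ m ∧ ρ y ≤ h y)
    (h3 : ∀ y ∈ S, h y + 1 < ρ m → ∃ z ∈ S, r y z ∧ (h z = h y ∨ (h z = h y + 1 ∧
        ¬ v (t (h z)) y < v (t (h z)) z))) (d : ℕ) :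
    ∀ i : ℕ, i + d + 1 = ρ m → ∀ z ∈ S, h z = i → ρ z = i →
      Has r v C m (fun j => if i + j + 1 < ρ m then κ (i + j + 1) else !e) (d + 1) z := by
  induction d with
  | zero =>
    intro i hid z hz hzi hzr
    have hzC := hS hz
    have hmax : ∀ y ∈ C, ¬ r z y := by
      intro y hy hzy
      have h4 := hρ z (Finset.mem_insert_of_mem hzC) y (Finset.mem_insert_of_mem hy) hzy
      have h5 := hρ y (Finset.mem_insert_of_mem hy) m (Finset.mem_insert_self m C) (hm y hy)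
      omega
    have h4 : ¬ v e z < v e m := fun h5 =>
      hSB z hz hmax (B_of_max ht hi hv hmC hm hB hzC hmax h5)
    refine ⟨hzC, m, hm z hzC, ?_, rfl⟩
    have h5 : (if i + 0 + 1 < ρ m then κ (i + 0 + 1) else !e) = !e := if_neg (by omega)
    change v (if i + 0 + 1 < ρ m then κ (i + 0 + 1) else !e) z <
      v (if i + 0 + 1 < ρ m then κ (i + 0 + 1) else !e) m
    rw [h5]
    exact v_or hv hinj e (fun h => hmC (h ▸ hzC)) h4
  | succ d ih =>
    intro i hid z hz hzi hzr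
    obtain ⟨z', hz', hzz', h4⟩ := h3 z hz (by omega)
    have h5 := hρ z (Finset.mem_insert_of_mem (hS hz)) z' (Finset.mem_insert_of_mem (hS hz')) hzz'
    have h6 := (h1 z' hz').2
    rcases h4 with h4 | ⟨h4, h7⟩
    · omega
    · refine ⟨hS hz, z', hzz', ?_, ?_⟩
      · have h0 : (if i + 0 + 1 < ρ m then κ (i + 0 + 1) else !e) = κ (i + 1) :=
          if_pos (by omega)
        change v (if i + 0 + 1 < ρ m then κ (i + 0 + 1) else !e) z <
          v (if i + 0 + 1 < ρ m then κ (i + 0 + 1) else !e) z'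
        rw [h0]
        have h8 : h z' = i + 1 := by omega
        rw [h8, hκ (i + 1) (by omega)] at h7
        have h9 := v_or hv hinj (!(κ (i + 1))) (fun h => hi z (by nth_rw 2 [h]; exact hzz')) h7
        rw [Bool.not_not] at h9
        exact h9
      · have h8 := ih (i + 1) (by omega) z' hz' (by omega) (by omega)
        refine Has_congr (fun j _ => ?_) h8
        have e1 : i + 1 + j + 1 = i + (j + 1) + 1 := by omega
        simp only [e1]

/-- one step: from a longest chain of kinds `κ` to one of kinds `κ 1, κ 2, …, ē`, which starts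
below an element of `B` -/
theorem shift_step (hroot : ∀ p ∈ B, (∀ y ∈ C, ¬ r y p) → ∃ c ∈ B, r p c ∧
      (∀ z ∈ B, r z c → z = p) ∧ ∃ x ∈ C, r c x)
    {κ t : ℕ → Bool} (hκ : ∀ j < ρ m, t j = !(κ j)) (hpos : 0 < ρ m)
    (hno : ∀ f ∈ box C (ρ m), ¬ Good r v t C B f) :
    ∃ y b, y ∈ C ∧ b ∈ B ∧ r y b ∧ v (t 0) y < v (t 0) b ∧
      Has r v C m (fun j => if j + 1 < ρ m then κ (j + 1) else !e) (ρ m) y := by
  classical
  have hBC : B ⊆ C := B_sub hv hmC hm hB
  choose! c hc using hroot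
  -- the minimal elements of `C` in `B`, with their chosen covers
  set M : Finset P := B.filter (fun p => ∀ y ∈ C, ¬ r y p) with hM
  have hMmem : ∀ p, p ∈ M ↔ p ∈ B ∧ ∀ y ∈ C, ¬ r y p := fun p => by
    rw [hM, Finset.mem_filter]
  set S : Finset P := (C \ B) ∪ (M ∪ M.image c) with hS
  have hSmem : ∀ p, p ∈ S ↔ (p ∈ C ∧ p ∉ B) ∨ p ∈ M ∨ ∃ q ∈ M, c q = p := fun p => by
    rw [hS, Finset.mem_union, Finset.mem_sdiff, Finset.mem_union, Finset.mem_image]
  have hcM : ∀ q ∈ M, c q ∈ B ∧ r q (c q) ∧ (∀ z ∈ B, r z (c q) → z = q) ∧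
      ∃ x ∈ C, r (c q) x := fun q hq => hc q ((hMmem q).mp hq).1 ((hMmem q).mp hq).2
  have hSC : S ⊆ C := by
    intro p hp
    rcases (hSmem p).mp hp with h | h | ⟨q, hq, rfl⟩
    · exact h.1
    · exact hBC ((hMmem p).mp h).1
    · exact hBC (hcM q hq).1
  -- `S` is down-closed
  have hSdown : ∀ p ∈ S, ∀ y ∈ C, r y p → y ∈ S := by
    intro p hp y hy hyp
    rcases (hSmem p).mp hp with h | h | ⟨q, hq, rfl⟩
    · refine (hSmem y).mpr (Or.inl ⟨hy, fun hyB => h.2 ?_⟩)
      exact B_up ht hi hv hmC hm hB hyB h.1 hyp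
    · exact absurd hyp (((hMmem p).mp h).2 y hy)
    · by_cases hyB : y ∈ B
      · rw [(hcM q hq).2.2.1 y hyB hyp]
        exact (hSmem q).mpr (Or.inr (Or.inl hq))
      · exact (hSmem y).mpr (Or.inl ⟨hy, hyB⟩)
  obtain ⟨h, h1, h2, h2', h3⟩ := greedy ht hi hv hinj hmC hm hB hSC hρ t
  set f : P → ℕ := fun p => if p ∈ S then h p else 0 with hf
  have hfbox : f ∈ box C (ρ m) := by
    rw [mem_box]
    refine ⟨fun p _ => ?_, fun p hp => if_neg (fun hpS => hp (hSC hpS))⟩
    rw [hf]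
    simp only
    split_ifs with hpS
    · exact (h1 p hpS).1
    · exact hpos
  have hnot := hno f hfbox
  -- the wrongly placed tops are outside `S`
  have hDS : ∀ p ∈ Dv r v t C f, p ∉ S := by
    intro p hp hpS
    obtain ⟨_, a, haC, hap, hbad⟩ := mem_Dv.mp hp
    have haS := hSdown p hpS a haC hap
    apply hbad
    have h4 := h2 a haS p hpS hap
    rw [Ok] at h4 ⊢
    rw [hf]
    simp only [if_pos haS, if_pos hpS]
    exact h4
  have hDB : Dv r v t C f ⊆ B := by
    intro p hp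
    by_contra hpB
    exact hDS p hp ((hSmem p).mpr (Or.inl ⟨(mem_Dv.mp hp).1, hpB⟩))
  rw [Good, not_and] at hnot
  have hnot' := hnot hDB
  push Not at hnot'
  obtain ⟨b, hbB, hbroot, hbD, hb'⟩ := hnot'
  -- `b` is not minimal in `C`
  have hbmin : ¬ ∀ y ∈ C, ¬ r y b := by
    intro hmin
    have hbM : b ∈ M := (hMmem b).mpr ⟨hbB, hmin⟩
    obtain ⟨hcB, hbc, hcl, x, hx, hcx⟩ := hcM b hbM
    have hcS : c b ∈ S := (hSmem _).mpr (Or.inr (Or.inr ⟨b, hbM, rfl⟩))
    obtain ⟨z, hz, hcz, hzD⟩ := hb' (c b) hcB (fun hD => hDS _ hD hcS) hbc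
      (fun z hz hzc => hcl z hz hzc)
    apply hzD
    have hmaxS : ∀ z ∈ S, ¬ r (c b) z := by
      intro z hzS hcz'
      rcases (hSmem z).mp hzS with h4 | h4 | ⟨q, hq, rfl⟩
      · exact h4.2 (B_up ht hi hv hmC hm hB hcB h4.1 hcz')
      · exact ((hMmem z).mp h4).2 (c b) (hBC hcB) hcz'
      · have h5 := (hcM q hq).2.2.1 (c b) hcB hcz'
        have h6 := ((hMmem q).mp hq).2 b (hBC hbB)
        exact h6 (h5 ▸ hbc)
    have h4 := h2' (c b) hcS hmaxS
    have hzS : z ∉ S := fun hzS => hmaxS z hzS hcz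
    have h5 : 2 ≤ ρ m := by
      have h6 := hρ b (Finset.mem_insert_of_mem (hBC hbB)) (c b)
        (Finset.mem_insert_of_mem (hBC hcB)) hbc
      have h7 := hρ (c b) (Finset.mem_insert_of_mem (hBC hcB)) m (Finset.mem_insert_self m C)
        (hm _ (hBC hcB))
      omega
    rw [mem_Dv]
    refine ⟨hBC hz, c b, hBC hcB, hcz, ?_⟩
    rw [Ok, hf]
    simp only [if_pos hcS, if_neg hzS, h4]
    omega
  push Not at hbmin
  obtain ⟨y, hyC, hyb⟩ := hbmin
  have hyB : y ∉ B := fun h4 => hbroot y h4 hyb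
  have hyS : y ∈ S := (hSmem y).mpr (Or.inl ⟨hyC, hyB⟩)
  have hbS : b ∉ S := by
    intro hbS
    rcases (hSmem b).mp hbS with h4 | h4 | ⟨q, hq, h4⟩
    · exact h4.2 hbB
    · exact ((hMmem b).mp h4).2 y hyC hyb
    · exact hbroot q ((hMmem q).mp hq).1 (h4 ▸ (hcM q hq).2.1)
  have hok : Ok v t f y b := by
    by_contra hbad
    exact hbD (mem_Dv.mpr ⟨hBC hbB, y, hyC, hyb, hbad⟩)
  rw [Ok, hf] at hok
  simp only [if_pos hyS, if_neg hbS] at hok
  rcases hok with h4 | ⟨h4, h5⟩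
  · omega
  · refine ⟨y, b, hyC, hbB, hyb, h5, ?_⟩
    have h6 := (h1 y hyS).2
    have hSB : ∀ z ∈ S, (∀ y ∈ C, ¬ r z y) → z ∉ B := by
      intro z hz hmax hzB
      rcases (hSmem z).mp hz with h7 | h7 | ⟨q, hq, rfl⟩
      · exact h7.2 hzB
      · exact hmax _ (hBC (hcM z h7).1) (hcM z h7).2.1
      · obtain ⟨x, hx, hcx⟩ := (hcM q hq).2.2.2
        exact hmax x hx hcx
    have h7 := chain_of_zero ht hi hv hinj hmC hm hB hρ hSC hSB hκ h1 h3 (ρ m - 1) 0
      (by omega) y hyS h4 (by omega)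
    rw [Nat.sub_add_cancel hpos] at h7
    refine Has_congr (fun j _ => ?_) h7
    simp only [Nat.zero_add]

end main

end Pool.Agent.Lib.MP_5bc52d_co.Key
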