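import Mathlib
import Pool.Agent.Lib.MP_5bc52d_co.Key.Top

/-!
# The certificate for a greatest element
-/

open Finset Polynomial

set_option linter.unusedSectionVars false

namespace Pool.Agent.Lib.MP_5bc52d_co.Key

open Splitting Cyc Cut

section main
variable {P : Type*} [Fintype P] [DecidableEq P] {r : P → P → Prop} {v : Bool → P → ℤ}
  (ht : ∀ x y z, r x y → r y z → r x z) (hi : ∀ x, ¬ r x x)

include ht hi in
/-- in a forest, an element above a root has an element of the forest directly above the root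
with nothing else below -/
theorem exists_child {B : Finset P} (hone : OneUp (fun a b => r b a) B) {p c₀ : P} (hp : p ∈ B)
    (hroot : ∀ y ∈ B, ¬ r y p) (hc₀ : c₀ ∈ B) (hpc : r p c₀) :
    ∃ c ∈ B, r p c ∧ (∀ z ∈ B, r z c → z = p) ∧ (c = c₀ ∨ r c c₀) := by
  have ht' : ∀ x y z : P, r y x → r z y → r z x := fun x y z h1 h2 => ht _ _ _ h2 h1
  obtain ⟨c, hc, hpc', hcc, hmin⟩ := exists_cov ht hi hc₀ hpc
  refine ⟨c, hc, hpc', fun z hz hzc => ?_, hcc⟩
  obtain ⟨q, hq, hqc, hq'⟩ := exists_parent (r := fun a b => r b a) ht' hi hone hc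
    ⟨p, hp, hpc'⟩
  have h1 : q = p := by
    rcases hq' p hp hpc' with h | h
    · exact h
    · exact absurd hqc (hmin q hq h)
  rcases hq' z hz hzc with h | h
  · rw [← h, h1]
  · rw [h1] at h
    exact absurd h (hroot z hz)

variable (hv : ∀ c p, v (!c) p = - v c p) (hinj : Function.Injective (v true))
  {C B : Finset P} {m : P} (hmC : m ∉ C) (hm : ∀ p ∈ C, r p m) {e : Bool}
  (hB : B = (AL (fun a b => r b a) (v (!e)) (insert m C)).erase m)
include ht hi hv hinj hmC hm

/-- a longest chain and its kinds -/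
theorem exists_chain {ρ : P → ℕ} (hρ : ∀ a ∈ insert m C, ∀ b ∈ insert m C, r a b →
    ρ a + 1 ≤ ρ b) (hρ' : ∀ y, ρ y = 0 ∨ ∃ z ∈ insert m C, r z y ∧ ρ y = ρ z + 1) (d : ℕ) :
    d ≤ ρ m → ∃ κ : ℕ → Bool, ∃ z ∈ insert m C, ρ z + d = ρ m ∧ Has r v C m κ d z := by
  induction d with
  | zero =>
    intro _
    exact ⟨fun _ => true, m, Finset.mem_insert_self m C, rfl, rfl⟩
  | succ d ih =>
    intro hd
    obtain ⟨κ, z, hz, hzd, hhas⟩ := ih (by omega)
    rcases hρ' z with h | ⟨a, ha, haz, h⟩
    · omega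
    · have haC : a ∈ C := by
        rcases Finset.mem_insert.mp ha with h1 | h1
        · subst h1
          exfalso
          rcases Finset.mem_insert.mp hz with h2 | h2
          · exact hi a (by nth_rw 2 [← h2]; exact haz)
          · exact hi a (ht _ _ _ haz (hm z h2))
        · exact h1
      have haz' : a ≠ z := fun h1 => hi a (by nth_rw 2 [h1]; exact haz)
      obtain ⟨c, hc⟩ : ∃ c : Bool, v c a < v c z := by
        by_cases h1 : v true a < v true z
        · exact ⟨true, h1⟩
        · exact ⟨false, v_or hv hinj true haz' h1⟩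
      refine ⟨fun i => if i = 0 then c else κ (i - 1), a, ha, by omega, haC, z, haz, ?_, ?_⟩
      · simp only [if_true]
        exact hc
      · refine Has_congr (fun i _ => ?_) hhas
        simp

omit hinj ht hi hv hmC hm in
theorem card_box (U : Finset P) (n : ℕ) : (box U n).card = n ^ U.card := by
  classical
  rw [box, Fintype.card_piFinset]
  have h1 : ∀ p : P, (if p ∈ U then Finset.range n else {0}).card = if p ∈ U then n else 1 := by
    intro p
    split_ifs
    · exact Finset.card_range n
    · exact Finset.card_singleton 0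
  rw [Finset.prod_congr rfl (fun p _ => h1 p), Finset.prod_ite_mem, Finset.univ_inter,
    Finset.prod_const]

include hB in
/-- The degree argument: `B` has no relation. -/
theorem no_relation {ρ : P → ℕ} (hρ : ∀ a ∈ insert m C, ∀ b ∈ insert m C, r a b →
    ρ a + 1 ≤ ρ b) (hone : OneUp (fun a b => r b a) B)
    (hiso : ∀ q ∈ B, ∃ y ∈ C, r q y ∨ r y q)
    (hI : ∀ (n : ℕ) (t : ℕ → Bool) (l : ℕ → ℕ), (Nw r v n t l (insert m C) : ℤ) =
      ((∑ i ∈ Finset.range n, l i : ℕ) : ℤ) * SS r v t l n C B) :
    ∀ p ∈ B, ∀ q ∈ B, ¬ r p q := by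
  classical
  intro p₀ hp₀ q₀ hq₀ hpq₀
  have hBC : B ⊆ C := B_sub hv hmC hm hB
  have hup : ∀ a ∈ B, ∀ b ∈ C, r a b → b ∈ B := fun a ha b hb hab =>
    B_up ht hi hv hmC hm hB ha hb hab
  set S := (AL (fun a b => r b a) (v (!(!e))) (insert m C)).erase m with hS
  have hSC : S ⊆ C := B_sub (e := !e) hv hmC hm hS
  have hSup : ∀ a ∈ S, ∀ b ∈ C, r a b → b ∈ S := fun a ha b hb hab =>
    B_up (e := !e) ht hi hv hmC hm hS ha hb hab
  have hSB : ∀ x ∈ S, x ∉ B := by
    intro x h1 h2
    have h3 := B_top (e := !e) hv hmC hm hS h1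
    have h4 := B_top hv hmC hm hB h2
    rw [hv, hv] at h3
    omega
  set n := ρ m + 1 with hn
  set L := (n + 1) ^ (insert m C).card with hL
  have hLpos : 0 < L := by positivity
  set t : ℕ → Bool := fun i => if i = n then !e else true with htt
  set l : ℕ → ℕ := fun i => if i = n then L else 1 with hl
  have hprod : ∀ (D : Finset P) (f : P → ℕ), ∏ p ∈ D, l (f p) =
      L ^ (D.filter (fun p => f p = n)).card := by
    intro D f
    rw [hl]
    simp only
    rw [Finset.prod_ite, Finset.prod_const, Finset.prod_const_one, mul_one]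
  have hrank : ∀ p ∈ C, ρ p + 1 ≤ ρ m := fun p hp =>
    hρ p (Finset.mem_insert_of_mem hp) m (Finset.mem_insert_self m C) (hm p hp)
  -- the upper bound
  have hupper : Nw r v (n + 1) t l (insert m C) ≤ L * L ^ (S.card + 1) := by
    have h1 := sum_adm (r := r) (v := v) (n + 1) t l (insert m C) (insert m C)
      (Finset.Subset.refl _)
    rw [Finset.sdiff_self, Finset.card_empty, pow_zero, one_mul] at h1
    rw [← h1]
    have h2 : ∀ f ∈ (box (insert m C) (n + 1)).filter (Adm r v t (insert m C)),
        ∏ p ∈ insert m C, l (f p) ≤ L ^ (S.card + 1) := by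
      intro f hf
      rw [Finset.mem_filter, mem_box] at hf
      rw [hprod]
      apply Nat.pow_le_pow_right hLpos
      have hmS : m ∉ S := fun h => hmC (hSC h)
      rw [← Finset.card_insert_of_notMem hmS]
      apply Finset.card_le_card
      intro p hp
      rw [Finset.mem_filter] at hp
      by_cases hpm : p = m
      · exact hpm ▸ Finset.mem_insert_self p S
      · refine Finset.mem_insert_of_mem ?_
        rw [hS, Finset.mem_erase, mem_AL]
        refine ⟨hpm, hp.1, fun a ha b hb hab h => ?_⟩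
        have h3 : f b = n := by
          rcases h with h | h
          · rw [h]; exact hp.2
          · have h4 := hf.1.1 b hb
            rcases hf.2 p hp.1 b hb h with h5 | h5
            · omega
            · omega
        have h4 := hf.1.1 a ha
        rcases hf.2 b hb a ha hab with h5 | ⟨h5, h6⟩
        · omega
        · have h7 : f a = n := by omega
          rw [h7, htt] at h6
          simp only [if_true] at h6
          rw [Bool.not_not]
          rw [hv, hv] at h6
          omega
    calc ∑ f ∈ (box (insert m C) (n + 1)).filter (Adm r v t (insert m C)),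
          ∏ p ∈ insert m C, l (f p)
        ≤ ((box (insert m C) (n + 1)).filter (Adm r v t (insert m C))).card •
            L ^ (S.card + 1) := Finset.sum_le_card_nsmul _ _ _ h2
      _ ≤ L * L ^ (S.card + 1) := by
          rw [smul_eq_mul]
          apply Nat.mul_le_mul_right
          calc ((box (insert m C) (n + 1)).filter (Adm r v t (insert m C))).card
              ≤ (box (insert m C) (n + 1)).card := Finset.card_filter_le _ _
            _ = L := by rw [card_box, hL]
  -- the map
  set f : P → ℕ := fun p => if p ∉ C then 0 else if p ∈ S then n else if p ∈ B then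
    (if ∀ y ∈ B, ¬ r y p then 0 else n) else ρ p + 1 with hf
  have hfS : ∀ p ∈ S, f p = n := by
    intro p hp
    rw [hf]
    simp only
    rw [if_neg (fun h => h (hSC hp)), if_pos hp]
  have hfroot : ∀ p ∈ B, (∀ y ∈ B, ¬ r y p) → f p = 0 := by
    intro p hp hroot
    rw [hf]
    simp only
    rw [if_neg (fun h => h (hBC hp)), if_neg (fun h => hSB p h hp), if_pos hp, if_pos hroot]
  have hfB : ∀ p ∈ B, (¬ ∀ y ∈ B, ¬ r y p) → f p = n := by
    intro p hp hroot
    rw [hf]
    simp only
    rw [if_neg (fun h => h (hBC hp)), if_neg (fun h => hSB p h hp), if_pos hp, if_neg hroot]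
  have hfR : ∀ p ∈ C, p ∉ S → p ∉ B → f p = ρ p + 1 := by
    intro p hp hpS hpB
    rw [hf]
    simp only
    rw [if_neg (fun h => h hp), if_neg hpS, if_neg hpB]
  have hfle : ∀ p ∈ C, f p ≤ n := by
    intro p hp
    by_cases hpS : p ∈ S
    · rw [hfS p hpS]
    · by_cases hpB : p ∈ B
      · by_cases hroot : ∀ y ∈ B, ¬ r y p
        · rw [hfroot p hpB hroot]
          exact Nat.zero_le _
        · rw [hfB p hpB hroot]
      · rw [hfR p hp hpS hpB]
        have := hrank p hp
        omega
  have hfbox : f ∈ box C (n + 1) := by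
    rw [mem_box]
    refine ⟨fun p hp => Nat.lt_succ_of_le (hfle p hp), fun p hp => ?_⟩
    rw [hf]
    simp only
    rw [if_pos hp]
  have hDB : Dv r v t C f ⊆ B := by
    intro b hb
    obtain ⟨hbC, a, haC, hab, hbad⟩ := mem_Dv.mp hb
    by_contra hbB
    have haB : a ∉ B := fun h => hbB (hup a h b hbC hab)
    apply hbad
    by_cases hbS : b ∈ S
    · by_cases haS : a ∈ S
      · right
        rw [hfS a haS, hfS b hbS]
        refine ⟨rfl, ?_⟩
        rw [htt]
        simp only [if_true]
        rw [hS, Finset.mem_erase, mem_AL] at haS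
        have h1 := haS.2.2 b (Finset.mem_insert_of_mem hbC) a (Finset.mem_insert_of_mem haC) hab
          (Or.inl rfl)
        rw [Bool.not_not] at h1
        rw [hv, hv]
        omega
      · left
        rw [hfS b hbS, hfR a haC haS haB]
        have := hrank a haC
        omega
    · have haS : a ∉ S := fun h => hbS (hSup a h b hbC hab)
      left
      rw [hfR b hbC hbS hbB, hfR a haC haS haB]
      have := hρ a (Finset.mem_insert_of_mem haC) b (Finset.mem_insert_of_mem hbC) hab
      omega
  have hgood : Good r v t C B f := by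
    refine ⟨hDB, fun p hp hroot => ?_⟩
    by_cases hmin : ∀ y ∈ C, ¬ r y p
    · right
      -- there is an element of `B` above `p`
      obtain ⟨y, hy, hpy⟩ := hiso p hp
      have hpy' : r p y := hpy.resolve_right (hmin y hy)
      have hyB : y ∈ B := hup p hp y hy hpy'
      obtain ⟨c, hc, hpc, hcl, -⟩ := exists_child ht hi hone hp hroot hyB hpy'
      have hfc : f c = n := hfB c hc (fun h => h p hp hpc)
      refine ⟨c, hc, fun hcD => ?_, hpc, hcl, fun z hz hcz => ?_⟩
      · obtain ⟨-, a, haC, hac, hbad⟩ := mem_Dv.mp hcD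
        apply hbad
        left
        rw [hfc]
        by_cases haB : a ∈ B
        · rw [hcl a haB hac, hfroot p hp hroot]
          omega
        · have haS : a ∉ S := fun h => hSB c (hSup a h c (hBC hc) hac) hc
          rw [hfR a haC haS haB]
          have := hrank a haC
          omega
      · rw [mem_Dv]
        refine ⟨hBC hz, c, hBC hc, hcz, ?_⟩
        have hfz : f z = n := hfB z hz (fun h => h c hc hcz)
        rw [Ok, hfc, hfz, htt]
        simp only [if_true, lt_irrefl, false_or, true_and]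
        have h1 : v e c < v e z := by
          rw [hB, Finset.mem_erase, mem_AL] at hc
          have h2 := hc.2.2 z (Finset.mem_insert_of_mem (hBC hz)) c
            (Finset.mem_insert_of_mem (hBC (by rw [hB, Finset.mem_erase, mem_AL]; exact hc)))
            hcz (Or.inl rfl)
          rw [hv, hv] at h2
          omega
        rw [hv, hv]
        omega
    · left
      push Not at hmin
      obtain ⟨y, hy, hyp⟩ := hmin
      rw [mem_Dv]
      refine ⟨hBC hp, y, hy, hyp, ?_⟩
      have hyB : y ∉ B := fun h => hroot y h hyp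
      have hyS : y ∉ S := fun h => hSB p (hSup y h p (hBC hp) hyp) hp
      rw [Ok, hfroot p hp hroot, hfR y hy hyS hyB]
      omega
  obtain ⟨g, hg1, hg2⟩ := SS_eq (v := v) (t := t) ht hi hBC hup hone (n + 1) l
  have h1 := hI (n + 1) t l
  rw [hg1] at h1
  have hsum : ∑ i ∈ Finset.range (n + 1), l i = n + L := by
    rw [Finset.sum_range_succ]
    have e1 : ∑ i ∈ Finset.range n, l i = n := by
      rw [Finset.sum_congr rfl (g := fun _ => 1), Finset.sum_const, Finset.card_range,
        smul_eq_mul, mul_one]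
      intro i hi'
      rw [Finset.mem_range] at hi'
      rw [hl]
      exact if_neg (by omega)
    have e2 : l n = L := by
      rw [hl]
      exact if_pos rfl
    rw [e1, e2]
  rw [hsum] at h1
  have h2 := congrArg Int.natAbs h1
  rw [Int.natAbs_natCast, Int.natAbs_mul, Int.natAbs_natCast, Int.natAbs_mul,
    Int.natAbs_pow, Int.natAbs_neg, Int.natAbs_one, one_pow, one_mul, Int.natAbs_natCast] at h2
  have h3 := hg2 f hfbox hgood
  rw [hprod] at h3
  have h4 : S.card + 1 ≤ (C.filter (fun p => f p = n)).card := by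
    have hq₀S : q₀ ∉ S := fun h => hSB q₀ h hq₀
    rw [← Finset.card_insert_of_notMem hq₀S]
    apply Finset.card_le_card
    intro p hp
    rw [Finset.mem_filter]
    rcases Finset.mem_insert.mp hp with h | h
    · subst h
      exact ⟨hBC hq₀, hfB p hq₀ (fun h => h p₀ hp₀ hpq₀)⟩
    · exact ⟨hSC h, hfS p h⟩
  have h5 : L ^ (S.card + 1) ≤ g := le_trans (Nat.pow_le_pow_right hLpos h4) h3
  rw [h2] at hupper
  have h6 : (n + L) * L ^ (S.card + 1) ≤ L * L ^ (S.card + 1) :=
    le_trans (Nat.mul_le_mul_left _ h5) hupper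
  have h7 := Nat.le_of_mul_le_mul_right h6 (by positivity)
  omega

include hB in
/-- Under the identities for all words the set `B` is not a forest. -/
theorem no_forest (hone : OneUp (fun a b => r b a) B) (hCne : C.Nonempty)
    (hiso : ∀ q ∈ B, ∃ y ∈ C, r q y ∨ r y q)
    (hI : ∀ (n : ℕ) (t : ℕ → Bool) (l : ℕ → ℕ), (Nw r v n t l (insert m C) : ℤ) =
      ((∑ i ∈ Finset.range n, l i : ℕ) : ℤ) * SS r v t l n C B) : False := by
  classical
  obtain ⟨ρ, hρ0⟩ := exists_sup ht hi (insert m C) (fun _ _ k => k + 1)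
  have hρ : ∀ a ∈ insert m C, ∀ b ∈ insert m C, r a b → ρ a + 1 ≤ ρ b := fun a ha b _ hab =>
    (hρ0 b).1 a ha hab
  have hρ' : ∀ y, ρ y = 0 ∨ ∃ z ∈ insert m C, r z y ∧ ρ y = ρ z + 1 := fun y => (hρ0 y).2
  obtain ⟨x₀, hx₀⟩ := hCne
  have hpos : 0 < ρ m := by
    have := hρ x₀ (Finset.mem_insert_of_mem hx₀) m (Finset.mem_insert_self m C) (hm x₀ hx₀)
    omega
  have hBC : B ⊆ C := B_sub hv hmC hm hB
  have hup : ∀ a ∈ B, ∀ b ∈ C, r a b → b ∈ B := fun a ha b hb hab =>
    B_up ht hi hv hmC hm hB ha hb hab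
  have hnr := no_relation ht hi hv hinj hmC hm hB hρ hone hiso hI
  have hmix : ∀ p ∈ B, (∀ y ∈ C, ¬ r y p) → ∃ c ∈ B, r p c ∧
      (∀ z ∈ B, r z c → z = p) ∧ ∃ x ∈ C, r c x := by
    intro p hp hmin
    exfalso
    obtain ⟨y, hy, h | h⟩ := hiso p hp
    · exact hnr p hp y (hup p hp y hy h) h
    · exact hmin y hy h
  -- no good maps on the complementary words
  have hno : ∀ κ t : ℕ → Bool, (∃ z, Has r v C m κ (ρ m) z) → (∀ j < ρ m, t j = !(κ j)) →
      ∀ f ∈ box C (ρ m), ¬ Good r v t C B f := by
    rintro κ t ⟨z, hz⟩ hκ f hf hg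
    have h1 := hI (ρ m) t (fun _ => 1)
    rw [Nw_zero ht hi hv hmC hm hρ hz hκ, Nat.cast_zero] at h1
    obtain ⟨g, hg1, hg2⟩ := SS_eq (v := v) (t := t) ht hi hBC hup hone (ρ m) (fun _ => 1)
    have h2 := hg2 f hf hg
    rw [Finset.prod_const_one] at h2
    rw [hg1, Finset.sum_const, Finset.card_range, smul_eq_mul, mul_one] at h1
    have h3 : ((ρ m : ℕ) : ℤ) ≠ 0 := by exact_mod_cast hpos.ne'
    have h4 : ((g : ℕ) : ℤ) ≠ 0 := by
      have : g ≠ 0 := by omega
      exact_mod_cast this
    exact mul_ne_zero h3 (mul_ne_zero (pow_ne_zero _ (by norm_num)) h4) h1.symm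
  obtain ⟨κ₀, z₀, -, -, hz₀⟩ := exists_chain ht hi hv hinj hmC hm hρ hρ' (ρ m) le_rfl
  have hstep : ∀ j : ℕ, ∃ κ : ℕ → Bool, (∃ z, Has r v C m κ (ρ m) z) ∧
      ∀ i < ρ m, ρ m ≤ i + j → κ i = !e := by
    intro j
    induction j with
    | zero => exact ⟨κ₀, ⟨z₀, hz₀⟩, fun i h1 h2 => by omega⟩
    | succ j ih =>
      obtain ⟨κ, hκ1, hκ2⟩ := ih
      obtain ⟨y, b, -, -, -, -, hy⟩ := shift_step ht hi hv hinj hmC hm hB hρ hmix
        (κ := κ) (t := fun i => !(κ i)) (fun j _ => rfl) hpos
        (hno κ (fun i => !(κ i)) hκ1 (fun j _ => rfl))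
      refine ⟨fun j => if j + 1 < ρ m then κ (j + 1) else !e, ⟨y, hy⟩, fun i h1 h2 => ?_⟩
      simp only
      split_ifs with h3
      · exact hκ2 (i + 1) h3 (by omega)
      · rfl
  obtain ⟨κ, ⟨z, hz⟩, hκ⟩ := hstep (ρ m)
  have hz' : Has r v C m (fun _ => !e) (ρ m) z :=
    Has_congr (fun i h => hκ i h (by omega)) hz
  obtain ⟨y, b, hyC, hbB, hyb, hyb', hy⟩ := shift_step ht hi hv hinj hmC hm hB hρ hmix
    (κ := fun _ => !e) (t := fun _ => e) (fun j _ => by simp) hpos
    (hno (fun _ => !e) (fun _ => e) ⟨z, hz'⟩ (fun j _ => by simp))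
  have hy' : Has r v C m (fun _ => !e) (ρ m) y := Has_congr (fun i _ => by simp) hy
  have h1 := B_top hv hmC hm hB hbB
  rcases Has_v ht hy' with h2 | h2
  · exact hmC (h2 ▸ hyC)
  · rw [hv, hv] at h2
    omega

end main

end Pool.Agent.Lib.MP_5bc52d_co.Key
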