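import Mathlib
import Pool.Agent.Lib.MP_5bc52d_co.Key.TopCert

/-!
# The values at `-T` and the identities on words
-/

open Finset Polynomial

set_option linter.unusedSectionVars false

namespace Pool.Agent.Lib.MP_5bc52d_co.Key

open Splitting Cyc Cut

section top
variable {P : Type*} [Fintype P] [DecidableEq P] {r : P → P → Prop}
  (ht : ∀ x y z, r x y → r y z → r x z) (hi : ∀ x, ¬ r x x)
  {C : Finset P} {m : P} (hmC : m ∉ C) (hm : ∀ p ∈ C, r p m) {w : P → ℤ}
include ht hi hmC hm

/-- the final parts of a set with greatest element `m` -/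
theorem mem_wks_top {I : Finset P} :
    I ∈ wks (fun a b => r b a) w (insert m C) ↔ I = ∅ ∨
      ∃ V ∈ dsets (fun a b => r b a) ((AL (fun a b => r b a) w (insert m C)).erase m) ∅,
        I = insert m V := by
  classical
  have hnm : ∀ y ∈ insert m C, ¬ r m y := by
    intro y hy hmy
    rcases Finset.mem_insert.mp hy with h1 | h1
    · exact hi m (h1 ▸ hmy)
    · exact hi m (ht _ _ _ hmy (hm y h1))
  have ht' : ∀ x y z : P, r y x → r z y → r z x := fun x y z h1 h2 => ht _ _ _ h2 h1
  constructor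
  · intro hI
    rw [mem_wks] at hI
    rcases I.eq_empty_or_nonempty with h | ⟨x, hx⟩
    · exact Or.inl h
    · right
      have hmI : m ∈ I := by
        rcases Finset.mem_insert.mp (hI.1 hx) with h1 | h1
        · exact h1 ▸ hx
        · exact (hI.2 m (Finset.mem_insert_self m C) x hx (hm x h1)).1
      refine ⟨I.erase m, ?_, (Finset.insert_erase hmI).symm⟩
      rw [mem_dsets]
      refine ⟨Finset.erase_subset_erase m (Wk_subset_AL hI), Finset.empty_subset _,
        fun a ha b hb hab => ?_⟩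
      rw [Finset.mem_erase] at ha hb ⊢
      exact ⟨ha.1, (hI.2 a (AL_subset ha.2) b hb.2 hab).1⟩
  · rintro (rfl | ⟨V, hV, rfl⟩)
    · rw [mem_wks]
      exact ⟨Finset.empty_subset _, fun a _ b hb => absurd hb (Finset.notMem_empty b)⟩
    · rw [mem_dsets] at hV
      obtain ⟨h1, -, h3⟩ := hV
      rw [mem_wks]
      refine ⟨?_, fun a ha b hb hab => ?_⟩
      · intro x hx
        rcases Finset.mem_insert.mp hx with h | h
        · exact h ▸ Finset.mem_insert_self m C
        · exact AL_subset (Finset.mem_erase.mp (h1 h)).2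
      · rcases Finset.mem_insert.mp hb with h | h
        · subst h
          exact absurd hab (hnm a ha)
        · have h4 := (Wk_AL (r := fun a b => r b a) ht').2 a ha b
            (Finset.mem_erase.mp (h1 h)).2 hab
          refine ⟨?_, h4.2⟩
          by_cases ham : a = m
          · exact ham ▸ Finset.mem_insert_self m V
          · exact Finset.mem_insert_of_mem (h3 a (Finset.mem_erase.mpr ⟨ham, h4.1⟩) b h hab)

/-- splitting a sum over the final parts -/
theorem sum_wks_top {M : Type*} [AddCommMonoid M] (F : Finset P → M) :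
    ∑ I ∈ wks (fun a b => r b a) w (insert m C), F I = F ∅ +
      ∑ V ∈ dsets (fun a b => r b a) ((AL (fun a b => r b a) w (insert m C)).erase m) ∅,
        F (insert m V) := by
  classical
  have h1 : wks (fun a b => r b a) w (insert m C) = insert ∅
      ((dsets (fun a b => r b a) ((AL (fun a b => r b a) w (insert m C)).erase m) ∅).image
        (insert m)) := by
    ext I
    rw [mem_wks_top ht hi hmC hm, Finset.mem_insert, Finset.mem_image]
    constructor
    · rintro (h | ⟨V, hV, h⟩)
      · exact Or.inl h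
      · exact Or.inr ⟨V, hV, h.symm⟩
    · rintro (h | ⟨V, hV, h⟩)
      · exact Or.inl h
      · exact Or.inr ⟨V, hV, h.symm⟩
  rw [h1, Finset.sum_insert, Finset.sum_image]
  · intro V hV W hW h
    have h2 : m ∉ V := fun h3 => (Finset.mem_erase.mp ((mem_dsets.mp hV).1 h3)).1 rfl
    have h3 : m ∉ W := fun h3 => (Finset.mem_erase.mp ((mem_dsets.mp hW).1 h3)).1 rfl
    rw [← Finset.erase_insert h2, ← Finset.erase_insert h3, h]
  · intro h
    rw [Finset.mem_image] at h
    obtain ⟨V, -, h⟩ := h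
    exact Finset.insert_ne_empty m V h

end top

section val
variable {P : Type*} [Fintype P] [DecidableEq P] {A : Type*} [CommRing A]
  {Γ : Finset P → A} {s : Bool → A} {r : P → P → Prop} {v : Bool → P → ℤ}
  {F G : Bool → A →+* A[X]} {cc : A →+* ℚ}
  (ht : ∀ x y z, r x y → r y z → r x z) (hi : ∀ x, ¬ r x x)
  (hs1 : s true = 1) (hs2 : s false = -1)
  (hcc : ∀ U, cc (Γ U) = if U = ∅ then 1 else 0)
  (hF : ∀ c, PeelE Γ (s c) r (v c) (F c))
  (hG : ∀ c, PeelE Γ (s c) (fun a b => r b a) (v (!c)) (G c))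
  {C : Finset P} {m : P} (hmC : m ∉ C) (hm : ∀ p ∈ C, r p m)

theorem s_sq (hs1 : s true = 1) (hs2 : s false = -1) (c : Bool) : s c * s c = 1 := by
  cases c
  · rw [hs2]; ring
  · rw [hs1]; ring


/-- the value at `-T` of a terminal letter -/
theorem eval_hi {r₁ : P → P → Prop} {w : P → ℤ} {φ : A →+* A[X]} {ε : A} (hε : ε * ε = 1)
    (hφ : PeelE Γ ε r₁ w φ) (T : A) (U : Finset P) :
    (φ (Γ U)).eval (-(ε * T)) =
      ∑ I ∈ wks r₁ w U, (-1 : A) ^ I.card * (T ^ I.card * Γ (U \ I)) := by
  rw [hφ, eval_finsetSum]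
  apply Finset.sum_congr rfl
  intro I _
  rw [eval_mul, eval_C, eval_pow, eval_X]
  have h2 : ε ^ I.card * (-(ε * T)) ^ I.card = (-1 : A) ^ I.card * T ^ I.card := by
    rw [← mul_pow, ← mul_pow]
    congr 1
    linear_combination (-T) * hε
  calc ε ^ I.card * Γ (U \ I) * (-(ε * T)) ^ I.card
      = (ε ^ I.card * (-(ε * T)) ^ I.card) * Γ (U \ I) := by ring
    _ = (-1 : A) ^ I.card * (T ^ I.card * Γ (U \ I)) := by rw [h2, mul_assoc]

/-- The quotient by `T`, when `m` is the greatest element: `VV` for the set `B` inside `C`. -/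
noncomputable def VV (Γ : Finset P → A) (r : P → P → Prop) (T : A) (C B : Finset P) : A :=
  ∑ V ∈ dsets (fun a b => r b a) B ∅, (-1 : A) ^ V.card * (T ^ V.card * Γ (C \ V))

include ht hi hs1 hs2 hG hmC hm in
theorem eval_top (T : A) (e : Bool) :
    (G e (Γ (insert m C))).eval (-(s e * T)) = Γ (insert m C) -
      T * VV Γ r T C ((AL (fun a b => r b a) (v (!e)) (insert m C)).erase m) := by
  classical
  rw [eval_hi (s_sq hs1 hs2 e) (hG e) T, sum_wks_top ht hi hmC hm, VV, Finset.mul_sum,
    sub_eq_add_neg, ← Finset.sum_neg_distrib]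
  congr 1
  · rw [Finset.card_empty, pow_zero, pow_zero, one_mul, one_mul, Finset.sdiff_empty]
  · apply Finset.sum_congr rfl
    intro V hV
    have h1 := (mem_dsets.mp hV).1
    have hmV : m ∉ V := fun h => (Finset.mem_erase.mp (h1 h)).1 rfl
    have h2 : insert m C \ insert m V = C \ V := by
      ext x
      simp only [Finset.mem_sdiff, Finset.mem_insert, not_or]
      constructor
      · rintro ⟨h | h, h3, h4⟩
        · exact absurd h h3
        · exact ⟨h, h4⟩
      · rintro ⟨h3, h4⟩
        exact ⟨Or.inr h3, fun h5 => hmC (h5 ▸ h3), h4⟩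
    rw [Finset.card_insert_of_notMem hmV, h2]
    ring

include hs1 hs2 hcc hF hi in
theorem ev_VV (x : P) (n : ℕ) (t : ℕ → Bool) (l : ℕ → ℕ) (B : Finset P) :
    ev cc F n t l (VV Γ r (Γ {x}) C B) = (SS r v t l n C B : ℚ) := by
  rw [VV, map_sum, SS, Int.cast_sum]
  apply Finset.sum_congr rfl
  intro V _
  rw [map_mul, map_mul, map_pow, map_pow, map_neg, map_one, ev_Gam hs1 hs2 hcc hF,
    ev_Gam hs1 hs2 hcc hF, Nw_one hi]
  push_cast
  rfl

include ht hi hs1 hs2 hcc hF hG hmC hm in
/-- the identities on words -/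
theorem ident (x : P) (e : Bool)
    (h0 : (G e (Γ (insert m C))).eval (-(s e * Γ {x})) = 0) (n : ℕ) (t : ℕ → Bool)
    (l : ℕ → ℕ) :
    (Nw r v n t l (insert m C) : ℤ) = ((∑ i ∈ Finset.range n, l i : ℕ) : ℤ) *
      SS r v t l n C ((AL (fun a b => r b a) (v (!e)) (insert m C)).erase m) := by
  rw [eval_top ht hi hs1 hs2 hG hmC hm, sub_eq_zero] at h0
  have h1 := congrArg (ev cc F n t l) h0
  rw [map_mul, ev_VV hi hs1 hs2 hcc hF, ev_Gam hs1 hs2 hcc hF, ev_Gam hs1 hs2 hcc hF,
    Nw_one hi] at h1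
  exact_mod_cast h1

include ht hi hs1 hs2 hcc hF hG hmC hm in
/-- The value at `-T` is nonzero when the set `B` is a forest without isolated points of `C`. -/
theorem value_top (hv : ∀ c p, v (!c) p = - v c p) (hinj : Function.Injective (v true))
    (x : P) {e : Bool} {B : Finset P}
    (hB : B = (AL (fun a b => r b a) (v (!e)) (insert m C)).erase m)
    (hone : OneUp (fun a b => r b a) B) (hCne : C.Nonempty)
    (hiso : ∀ q ∈ B, ∃ y ∈ C, r q y ∨ r y q) :
    (G e (Γ (insert m C))).eval (-(s e * Γ {x})) ≠ 0 := by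
  intro h0
  refine no_forest ht hi hv hinj hmC hm hB hone hCne hiso (fun n t l => ?_)
  rw [hB]
  exact ident ht hi hs1 hs2 hcc hF hG hmC hm x e h0 n t l

end val

end Pool.Agent.Lib.MP_5bc52d_co.Key
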