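import Mathlib
import Pool.Agent.Lib.MP_5bc52d_co.Key.Val
import Pool.Agent.Lib.MP_5bc52d_co.Key.S2

/-!
# A greatest element over a disconnected set
-/

open Finset Polynomial

set_option linter.unusedSectionVars false

namespace Pool.Agent.Lib.MP_5bc52d_co.Key

open Splitting Cyc Cut

section comb
variable {P : Type*} [Fintype P] [DecidableEq P] {r : P → P → Prop} {A : Type*} [CommRing A]
  {Γ : Finset P → A} {T : A}

/-- an isolated point of `C` in `B` makes the sum vanish -/
theorem VV_zero (hΓ : ∀ U V : Finset P, Disjoint U V → (∀ x ∈ U, ∀ y ∈ V, ¬ r x y ∧ ¬ r y x) →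
    Γ (U ∪ V) = Γ U * Γ V) (hT : ∀ x, Γ {x} = T) {C B : Finset P} (hBC : B ⊆ C) {q : P}
    (hq : q ∈ B) (hiso : ∀ y ∈ C, ¬ r q y ∧ ¬ r y q) : VV Γ r T C B = 0 := by
  classical
  rw [VV]
  have hstep : ∀ V ∈ dsets (fun a b => r b a) B ∅, q ∉ V →
      Γ (C \ V) = T * Γ (C \ insert q V) := by
    intro V hV hqV
    have h1 : C \ V = {q} ∪ (C \ insert q V) := by
      ext x
      simp only [Finset.mem_sdiff, Finset.mem_union, Finset.mem_singleton, Finset.mem_insert,
        not_or]
      constructor
      · rintro ⟨h, h'⟩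
        by_cases hx : x = q
        · exact Or.inl hx
        · exact Or.inr ⟨h, hx, h'⟩
      · rintro (h | ⟨h, -, h'⟩)
        · exact h ▸ ⟨hBC hq, hqV⟩
        · exact ⟨h, h'⟩
    rw [h1, hΓ, hT]
    · rw [Finset.disjoint_singleton_left, Finset.mem_sdiff]
      exact fun h => h.2 (Finset.mem_insert_self q V)
    · intro x hx y hy
      rw [Finset.mem_singleton] at hx
      subst hx
      exact hiso y (Finset.mem_sdiff.mp hy).1
  refine Finset.sum_involution (fun V _ => if q ∈ V then V.erase q else insert q V) ?_ ?_ ?_ ?_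
  · intro V hV
    by_cases h : q ∈ V
    · simp only [if_pos h]
      have h1 : V.erase q ∈ dsets (fun a b => r b a) B ∅ := by
        rw [mem_dsets] at hV ⊢
        refine ⟨(Finset.erase_subset q V).trans hV.1, Finset.empty_subset _,
          fun a ha b hb hab => ?_⟩
        rw [Finset.mem_erase] at hb ⊢
        refine ⟨fun h5 => ?_, hV.2.2 a ha b hb.2 hab⟩
        exact (hiso b (hBC (hV.1 hb.2))).2 (h5 ▸ hab)
      have h2 := hstep _ h1 (Finset.notMem_erase q V)
      rw [Finset.insert_erase h] at h2
      rw [h2, ← Finset.card_erase_add_one h, pow_succ, pow_succ]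
      ring
    · simp only [if_neg h]
      rw [hstep V hV h, Finset.card_insert_of_notMem h, pow_succ, pow_succ]
      ring
  · intro V _ _
    by_cases h : q ∈ V
    · simp only [if_pos h]
      intro h1
      rw [← h1] at h
      exact (Finset.mem_erase.mp h).1 rfl
    · simp only [if_neg h]
      intro h1
      rw [← h1] at h
      exact h (Finset.mem_insert_self q V)
  · intro V hV
    rw [mem_dsets] at hV
    obtain ⟨h1, -, h3⟩ := hV
    rw [mem_dsets]
    by_cases h : q ∈ V
    · simp only [if_pos h]
      refine ⟨(Finset.erase_subset q V).trans h1, Finset.empty_subset _,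
        fun a ha b hb hab => ?_⟩
      rw [Finset.mem_erase] at hb ⊢
      refine ⟨fun h5 => ?_, h3 a ha b hb.2 hab⟩
      exact (hiso b (hBC (h1 hb.2))).2 (h5 ▸ hab)
    · simp only [if_neg h]
      refine ⟨fun y hy => ?_, Finset.empty_subset _, fun a ha b hb hab => ?_⟩
      · rcases Finset.mem_insert.mp hy with h5 | h5
        · exact h5 ▸ hq
        · exact h1 h5
      · rcases Finset.mem_insert.mp hb with h5 | h5
        · subst h5
          exact absurd hab (hiso a (hBC ha)).1
        · exact Finset.mem_insert_of_mem (h3 a ha b h5 hab)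
  · intro V _
    by_cases h : q ∈ V
    · simp only [if_pos h, Finset.notMem_erase, if_false]
      exact Finset.insert_erase h
    · simp only [if_neg h, Finset.mem_insert_self, if_true]
      exact Finset.erase_insert h

/-- the sum over a disjoint union of two parts is a product -/
theorem VV_mul (hΓ : ∀ U V : Finset P, Disjoint U V → (∀ x ∈ U, ∀ y ∈ V, ¬ r x y ∧ ¬ r y x) →
    Γ (U ∪ V) = Γ U * Γ V) {C₁ C₂ B : Finset P} (hd : Disjoint C₁ C₂)
    (hun : ∀ x ∈ C₁, ∀ y ∈ C₂, ¬ r x y ∧ ¬ r y x) (hB : B ⊆ C₁ ∪ C₂) :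
    VV Γ r T (C₁ ∪ C₂) B = VV Γ r T C₁ (B ∩ C₁) * VV Γ r T C₂ (B ∩ C₂) := by
  classical
  rw [VV, VV, VV, Finset.sum_mul_sum, ← Finset.sum_product']
  refine Finset.sum_bij' (fun V _ => (V ∩ C₁, V ∩ C₂)) (fun q _ => q.1 ∪ q.2) ?_ ?_ ?_ ?_ ?_
  · intro V hV
    rw [mem_dsets] at hV
    obtain ⟨h1, -, h3⟩ := hV
    rw [Finset.mem_product, mem_dsets, mem_dsets]
    refine ⟨⟨Finset.inter_subset_inter_right h1, Finset.empty_subset _, fun a ha b hb hab => ?_⟩,
      ⟨Finset.inter_subset_inter_right h1, Finset.empty_subset _, fun a ha b hb hab => ?_⟩⟩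
    · rw [Finset.mem_inter] at ha hb ⊢
      exact ⟨h3 a ha.1 b hb.1 hab, ha.2⟩
    · rw [Finset.mem_inter] at ha hb ⊢
      exact ⟨h3 a ha.1 b hb.1 hab, ha.2⟩
  · intro q hq
    rw [Finset.mem_product, mem_dsets, mem_dsets] at hq
    obtain ⟨⟨h1, -, h3⟩, h4, -, h6⟩ := hq
    rw [mem_dsets]
    refine ⟨Finset.union_subset (h1.trans Finset.inter_subset_left)
      (h4.trans Finset.inter_subset_left), Finset.empty_subset _, fun a ha b hb hab => ?_⟩
    rw [Finset.mem_union] at hb ⊢
    rcases hb with hb | hb
    · left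
      have hb1 := (Finset.mem_inter.mp (h1 hb)).2
      rcases Finset.mem_union.mp (hB ha) with h | h
      · exact h3 a (Finset.mem_inter.mpr ⟨ha, h⟩) b hb hab
      · exact absurd hab (hun b hb1 a h).1
    · right
      have hb1 := (Finset.mem_inter.mp (h4 hb)).2
      rcases Finset.mem_union.mp (hB ha) with h | h
      · exact absurd hab (hun a h b hb1).2
      · exact h6 a (Finset.mem_inter.mpr ⟨ha, h⟩) b hb hab
  · intro V hV
    have h1 := (mem_dsets.mp hV).1.trans hB
    ext x
    simp only [Finset.mem_union, Finset.mem_inter]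
    constructor
    · rintro (h | h)
      · exact h.1
      · exact h.1
    · intro h
      rcases Finset.mem_union.mp (h1 h) with h2 | h2
      · exact Or.inl ⟨h, h2⟩
      · exact Or.inr ⟨h, h2⟩
  · intro q hq
    rw [Finset.mem_product, mem_dsets, mem_dsets] at hq
    obtain ⟨⟨h1, -, -⟩, h4, -, -⟩ := hq
    have h1' : q.1 ⊆ C₁ := h1.trans Finset.inter_subset_right
    have h4' : q.2 ⊆ C₂ := h4.trans Finset.inter_subset_right
    apply Prod.ext
    · ext x
      simp only [Finset.mem_inter, Finset.mem_union]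
      constructor
      · rintro ⟨h | h, hx⟩
        · exact h
        · exact absurd (h4' h) (Finset.disjoint_left.mp hd hx)
      · exact fun h => ⟨Or.inl h, h1' h⟩
    · ext x
      simp only [Finset.mem_inter, Finset.mem_union]
      constructor
      · rintro ⟨h | h, hx⟩
        · exact absurd hx (Finset.disjoint_left.mp hd (h1' h))
        · exact h
      · exact fun h => ⟨Or.inr h, h4' h⟩
  · intro V hV
    have h1 := (mem_dsets.mp hV).1.trans hB
    simp only
    have e1 : (C₁ ∪ C₂) \ V = (C₁ \ (V ∩ C₁)) ∪ (C₂ \ (V ∩ C₂)) := by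
      ext x
      simp only [Finset.mem_sdiff, Finset.mem_union, Finset.mem_inter]
      tauto
    have e2 : V.card = (V ∩ C₁).card + (V ∩ C₂).card := by
      rw [← Finset.card_union_of_disjoint]
      · congr 1
        ext x
        simp only [Finset.mem_union, Finset.mem_inter]
        constructor
        · intro h
          rcases Finset.mem_union.mp (h1 h) with h2 | h2
          · exact Or.inl ⟨h, h2⟩
          · exact Or.inr ⟨h, h2⟩
        · rintro (h | h)
          · exact h.1
          · exact h.1
      · exact Finset.disjoint_of_subset_left Finset.inter_subset_right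
          (Finset.disjoint_of_subset_right Finset.inter_subset_right hd)
    rw [e1, hΓ, e2, pow_add, pow_add]
    · ring
    · exact Finset.disjoint_of_subset_left Finset.sdiff_subset
        (Finset.disjoint_of_subset_right Finset.sdiff_subset hd)
    · intro x hx y hy
      exact hun x (Finset.mem_sdiff.mp hx).1 y (Finset.mem_sdiff.mp hy).1

theorem VV_empty (C : Finset P) : VV Γ r T C ∅ = Γ C := by
  have h1 : dsets (fun a b => r b a) (∅ : Finset P) ∅ = {∅} := by
    ext I
    rw [mem_dsets, Finset.mem_singleton]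
    constructor
    · exact fun h => Finset.subset_empty.mp h.1
    · rintro rfl
      exact ⟨Finset.Subset.refl _, Finset.Subset.refl _,
        fun a ha => absurd ha (Finset.notMem_empty a)⟩
  rw [VV, h1, Finset.sum_singleton, Finset.card_empty, pow_zero, pow_zero, one_mul, one_mul,
    Finset.sdiff_empty]

end comb

section det
variable {P : Type*} [Fintype P] [DecidableEq P] {r : P → P → Prop}
variable {Q : Subring R} (hQ : ∀ F : R, F ∈ Q ↔ IsQS F)
  {Γ : Finset P → Q} {T : Q} (hT1 : T ∈ homQ Q 1) (hhom : ∀ U, Γ U ∈ homQ Q U.card)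

include hT1 hhom in
theorem VV_hom {C B : Finset P} (hBC : B ⊆ C) : VV Γ r T C B ∈ homQ Q C.card := by
  classical
  rw [VV]
  apply AddSubgroup.sum_mem
  intro V hV
  have h1 := (mem_dsets.mp hV).1.trans hBC
  have h2 : ∀ k : ℕ, T ^ k ∈ homQ Q k := by
    intro k
    induction k with
    | zero => rw [pow_zero]; exact one_mem_homQ
    | succ k ih => rw [pow_succ]; exact homQ_mul ih hT1
  have h3 := homQ_mul (h2 V.card) (hhom (C \ V))
  rw [Finset.card_sdiff_of_subset h1, Nat.add_sub_cancel' (Finset.card_le_card h1)] at h3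
  have h4 : (-1 : Q) ^ V.card = 1 ∨ (-1 : Q) ^ V.card = -1 := neg_one_pow_eq_or Q _
  rcases h4 with h | h
  · rw [h, one_mul]
    exact h3
  · rw [h, neg_one_mul]
    exact (homQ Q C.card).neg_mem h3

include hQ in
/-- top coefficients multiply -/
theorem coeff_mul_hom {φ : Q →+* Q[X]} (gφ : Graded Q φ) {a b : ℕ} {f g : Q}
    (hf : f ∈ homQ Q a) (hg : g ∈ homQ Q b) :
    (φ (f * g)).coeff (a + b) = (φ f).coeff a * (φ g).coeff b := by
  rw [map_mul]
  exact coeff_mul_add_eq_of_natDegree_le (natDegree_hom_le hQ gφ hf) (natDegree_hom_le hQ gφ hg)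

include hQ hT1 hhom in
/-- if the top coefficient of the sum is nonzero then some `C \ V` has all its relations of one
kind -/
theorem exists_wk {φ : Q →+* Q[X]} (gφ : Graded Q φ) {ε : Q} {w : P → ℤ}
    (hφ : PeelE Γ ε r w φ) {C B : Finset P} (hBC : B ⊆ C)
    (h : (φ (VV Γ r T C B)).coeff C.card ≠ 0) :
    ∃ V ∈ dsets (fun a b => r b a) B ∅, ∀ a ∈ C \ V, ∀ b ∈ C \ V, r a b → w a < w b := by
  classical
  by_contra hcon
  push Not at hcon
  apply h
  rw [VV, map_sum, finsetSum_coeff]
  apply Finset.sum_eq_zero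
  intro V hV
  have h1 := (mem_dsets.mp hV).1.trans hBC
  have h2 : ∀ k : ℕ, T ^ k ∈ homQ Q k := by
    intro k
    induction k with
    | zero => rw [pow_zero]; exact one_mem_homQ
    | succ k ih => rw [pow_succ]; exact homQ_mul ih hT1
  have h3 : C.card = V.card + (C \ V).card := by
    rw [Finset.card_sdiff_of_subset h1, Nat.add_sub_cancel' (Finset.card_le_card h1)]
  have h4 : (φ (Γ (C \ V))).coeff (C \ V).card = 0 := by
    rw [hφ, finsetSum_coeff]
    apply Finset.sum_eq_zero
    intro I hI
    rw [coeff_C_mul_X_pow, if_neg]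
    intro h5
    have h6 := mem_wks.mp hI
    have h7 : I = C \ V := Finset.eq_of_subset_of_card_le h6.1 h5.le
    obtain ⟨a, ha, b, hb, hab, hw⟩ := hcon V hV
    have h8 := (h6.2 a ha b (h7 ▸ hb) hab).2
    omega
  have h5 : (φ ((-1) ^ V.card * (T ^ V.card * Γ (C \ V)))).coeff C.card =
      (-1) ^ V.card * (φ (T ^ V.card * Γ (C \ V))).coeff C.card := by
    rw [map_mul, map_pow, map_neg, map_one]
    rcases neg_one_pow_eq_or Q[X] V.card with h6 | h6
    · rcases neg_one_pow_eq_or Q V.card with h7 | h7
      · rw [h6, h7, one_mul, one_mul]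
      · exfalso
        have := congrArg (fun p : Q[X] => p.eval 0) h6
        simp only [eval_pow, eval_neg, eval_one] at this
        rw [this] at h7
        have hc : (2 : Q) = 0 := by linear_combination h7
        have h8 := congrArg (fun q : Q => MvPowerSeries.constantCoeff (q : R)) hc
        have h9 : MvPowerSeries.constantCoeff ((2 : Q) : R) = (2 : ℚ) := by
          change MvPowerSeries.constantCoeff (2 : R) = 2
          exact map_ofNat _ 2
        simp only [h9] at h8
        change (2 : ℚ) = MvPowerSeries.constantCoeff (0 : R) at h8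
        rw [map_zero] at h8
        norm_num at h8
    · have h7 : (-1 : Q) ^ V.card = -1 := by
        have := congrArg (fun p : Q[X] => p.eval 0) h6
        simpa only [eval_pow, eval_neg, eval_one] using this
      rw [h6, h7, neg_one_mul, neg_one_mul, coeff_neg]
  rw [h5, h3, coeff_mul_hom hQ gφ (h2 V.card) (hhom (C \ V)), h4, mul_zero, mul_zero]

end det

end Pool.Agent.Lib.MP_5bc52d_co.Key
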