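import Mathlib
import Pool.Agent.Lib.MP_5bc52d_co.Key.Gamma

/-!
# A greatest element over a disconnected set: the contradiction
-/

open Finset Polynomial

set_option linter.unusedSectionVars false

namespace Pool.Agent.Lib.MP_5bc52d_co.Key

open Splitting Cyc Cut

section gam
variable {P : Type*} [Fintype P] [DecidableEq P] {r : P → P → Prop} {v : Bool → P → ℤ}
variable {Q : Subring R} (hQ : ∀ F : R, F ∈ Q ↔ IsQS F)
  {Γ : Finset P → Q} {T : Q}
  (ht : ∀ x y z, r x y → r y z → r x z) (hi : ∀ x, ¬ r x x)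
  (hv : ∀ c p, v (!c) p = - v c p) (hinj : Function.Injective (v true))
  (hΓ0 : ∀ U, Γ U ≠ 0) (hhom : ∀ U, Γ U ∈ homQ Q U.card) (hT1 : T ∈ homQ Q 1)
  (hT : ∀ x, Γ {x} = T)
  (hΓm : ∀ U V : Finset P, Disjoint U V → (∀ x ∈ U, ∀ y ∈ V, ¬ r x y ∧ ¬ r y x) →
    Γ (U ∪ V) = Γ U * Γ V)
  {F : Bool → Q →+* Q[X]} {s : Bool → Q} (hF : ∀ c, PeelE Γ (s c) r (v c) (F c))
  (gF : ∀ c, Graded Q (F c)) (hTu : ∀ c, IsUnit ((F c T).coeff 1))
  {C : Finset P} {m : P} (hmC : m ∉ C) (hm : ∀ p ∈ C, r p m) {B : Bool → Finset P}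
  (hB : ∀ e, B e = (AL (fun a b => r b a) (v (!e)) (insert m C)).erase m)
  (hVV : ∀ e, Γ (insert m C) = T * VV Γ r T C (B e))
  (hOr : ∀ (G H : Q) (a b : ℕ), Γ (insert m C) = G * H → G ∈ homQ Q a → H ∈ homQ Q b →
    ∀ c, IsUnit ((F c G).coeff a) ∨ IsUnit ((F c H).coeff b))
  (hNoB : ∀ (G H : Q) (a b : ℕ), Γ (insert m C) = G * H → a ≠ 0 → b ≠ 0 → G ∈ homQ Q a →
    H ∈ homQ Q b → IsUnit ((F false G).coeff a) → IsUnit ((F true H).coeff b) → False)
  (hX : ∀ (G H : Q) (b : ℕ) (c : Bool), Γ (insert m C) = G * H → H ∈ homQ Q b →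
    IsUnit ((F c H).coeff b) → b ≤ (AL r (v c) (insert m C) ∩
      AL (fun a b => r b a) (v (!c)) (insert m C)).card)
  {C₁ C₂ : Finset P} (hC : C = C₁ ∪ C₂) (hd : Disjoint C₁ C₂)
  (hun : ∀ x ∈ C₁, ∀ y ∈ C₂, ¬ r x y ∧ ¬ r y x) (hne₁ : C₁.Nonempty) (hne₂ : C₂.Nonempty)

include hQ ht hi hv hhom hT1 hΓm gF hTu hmC hm hB hVV hOr hNoB hC hd hun hne₁ hne₂

/-- one of the two factors is detected by both letters -/
theorem both (e : Bool) :
    (∀ c, IsUnit ((F c (VV Γ r T C₁ (B e ∩ C₁))).coeff C₁.card)) ∨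
      (∀ c, IsUnit ((F c (VV Γ r T C₂ (B e ∩ C₂))).coeff C₂.card)) := by
  have hBC : B e ⊆ C := B_sub hv hmC hm (hB e)
  have hfac : Γ (insert m C) = T * (VV Γ r T C₁ (B e ∩ C₁) * VV Γ r T C₂ (B e ∩ C₂)) := by
    rw [← VV_mul hΓm hd hun (hC ▸ hBC), ← hC]
    exact hVV e
  set G₁ := VV Γ r T C₁ (B e ∩ C₁) with hG₁
  set G₂ := VV Γ r T C₂ (B e ∩ C₂) with hG₂
  have h1 : G₁ ∈ homQ Q C₁.card := VV_hom hT1 hhom Finset.inter_subset_right
  have h2 : G₂ ∈ homQ Q C₂.card := VV_hom hT1 hhom Finset.inter_subset_right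
  have hn1 : C₁.card ≠ 0 := (Finset.card_pos.mpr hne₁).ne'
  have hn2 : C₂.card ≠ 0 := (Finset.card_pos.mpr hne₂).ne'
  have hdet : ∀ c (G : Q) (b : ℕ), G ∈ homQ Q b →
      (IsUnit ((F c (T * G)).coeff (1 + b)) ↔ IsUnit ((F c G).coeff b)) := by
    intro c G b hG
    rw [coeff_mul_hom hQ (gF c) hT1 hG]
    constructor
    · exact fun h => isUnit_of_mul_isUnit_right h
    · exact fun h => (hTu c).mul h
  have hor : ∀ c, IsUnit ((F c G₁).coeff C₁.card) ∨ IsUnit ((F c G₂).coeff C₂.card) := by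
    intro c
    rcases hOr (T * G₁) G₂ (1 + C₁.card) C₂.card (by rw [hfac]; ring) (homQ_mul hT1 h1) h2 c
      with h | h
    · exact Or.inl ((hdet c G₁ _ h1).mp h)
    · exact Or.inr h
  rcases hor false with h3 | h3
  · rcases hor true with h4 | h4
    · left
      intro c
      cases c
      exacts [h3, h4]
    · exfalso
      exact hNoB G₁ (T * G₂) C₁.card (1 + C₂.card) (by rw [hfac]; ring) hn1 (by omega) h1
        (homQ_mul hT1 h2) h3 ((hdet true G₂ _ h2).mpr h4)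
  · rcases hor true with h4 | h4
    · exfalso
      exact hNoB G₂ (T * G₁) C₂.card (1 + C₁.card) (by rw [hfac]; ring) hn2 (by omega) h2
        (homQ_mul hT1 h1) h3 ((hdet true G₁ _ h1).mpr h4)
    · right
      intro c
      cases c
      exacts [h3, h4]

omit ht hi hΓm hTu hmC hm hB hVV hOr hNoB hC hd hun hne₂ hne₁ in
include hF in
/-- a factor detected by both letters -/
theorem norel {D B' : Finset P} (hBD : B' ⊆ D)
    (hdet : ∀ c, IsUnit ((F c (VV Γ r T D B')).coeff D.card)) :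
    ∀ a ∈ D, ∀ b ∈ D, a ∉ B' → b ∉ B' → ¬ r a b := by
  intro a ha b hb haB hbB hab
  obtain ⟨V, hV, h1⟩ := exists_wk hQ hT1 hhom (gF true) (hF true) hBD (hdet true).ne_zero
  obtain ⟨V', hV', h2⟩ := exists_wk hQ hT1 hhom (gF false) (hF false) hBD (hdet false).ne_zero
  have h3 := h1 a (Finset.mem_sdiff.mpr ⟨ha, fun h => haB ((mem_dsets.mp hV).1 h)⟩) b
    (Finset.mem_sdiff.mpr ⟨hb, fun h => hbB ((mem_dsets.mp hV).1 h)⟩) hab
  have h4 := h2 a (Finset.mem_sdiff.mpr ⟨ha, fun h => haB ((mem_dsets.mp hV').1 h)⟩) b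
    (Finset.mem_sdiff.mpr ⟨hb, fun h => hbB ((mem_dsets.mp hV').1 h)⟩) hab
  have h5 := hv true a
  have h6 := hv true b
  simp only [Bool.not_true] at h5 h6
  omega

include hinj hΓ0 hT hF hX

theorem gamma_one {e : Bool}
    (hdet : ∀ c, IsUnit ((F c (VV Γ r T C₁ (B e ∩ C₁))).coeff C₁.card)) : False := by
  classical
  have ht' : ∀ x y z : P, r y x → r z y → r z x := fun x y z h1 h2 => ht _ _ _ h2 h1
  have hBC : ∀ e, B e ⊆ C := fun e => B_sub hv hmC hm (hB e)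
  have hC₁ : C₁ ⊆ C := by rw [hC]; exact Finset.subset_union_left
  have hC₂ : C₂ ⊆ C := by rw [hC]; exact Finset.subset_union_right
  have hdisj : ∀ x ∈ B e, x ∉ B (!e) := by
    intro x h1 h2
    have h3 := B_top hv hmC hm (hB e) h1
    have h4 := B_top hv hmC hm (hB (!e)) h2
    rw [hv, hv] at h4
    omega
  have hrel : ∀ x ∈ C₁, ∀ y ∈ C, (r x y ∨ r y x) → y ∈ C₁ := by
    intro x hx y hy h
    rw [hC] at hy
    rcases Finset.mem_union.mp hy with h1 | h1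
    · exact h1
    · rcases h with h | h
      · exact absurd h (hun x hx y h1).1
      · exact absurd h (hun x hx y h1).2
  -- no isolated points of `C` in `B`
  have hiso : ∀ e q, q ∈ B e → (∀ y ∈ C, ¬ r q y ∧ ¬ r y q) → False := by
    intro e q hq h
    have h1 := VV_zero hΓm hT (hBC e) hq h
    have h2 := hVV e
    rw [h1, mul_zero] at h2
    exact hΓ0 _ h2
  have hnr := norel hQ hv hhom hT1 hF gF Finset.inter_subset_right hdet
  -- (7)
  have hempty : B (!e) ∩ C₁ = ∅ := by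
    rw [Finset.eq_empty_iff_forall_notMem]
    intro q hq
    rw [Finset.mem_inter] at hq
    apply hiso (!e) q hq.1
    have hqe : q ∉ B e := fun h => hdisj q h hq.1
    intro y hy
    constructor
    · intro hqy
      have h1 : y ∈ B (!e) := B_up ht hi hv hmC hm (hB (!e)) hq.1 hy hqy
      have h2 : y ∉ B e := fun h => hdisj y h h1
      exact hnr q hq.2 y (hrel q hq.2 y hy (Or.inl hqy))
        (fun h => hqe (Finset.mem_inter.mp h).1) (fun h => h2 (Finset.mem_inter.mp h).1) hqy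
    · intro hyq
      have h2 : y ∉ B e := fun h => hqe (B_up ht hi hv hmC hm (hB e) h (hC₁ hq.2) hyq)
      exact hnr y (hrel q hq.2 y hy (Or.inr hyq)) q hq.2
        (fun h => h2 (Finset.mem_inter.mp h).1) (fun h => hqe (Finset.mem_inter.mp h).1) hyq
  have hmaxC : ∀ q ∈ C₁, (∀ y ∈ C₁, ¬ r q y) → q ∈ B e ∧ ¬ v (!e) q < v (!e) m := by
    intro q hq hmax
    have hmax' : ∀ y ∈ C, ¬ r q y := fun y hy hqy => hmax y (hrel q hq y hy (Or.inl hqy)) hqy
    have hn : ¬ v (!e) q < v (!e) m := by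
      intro h
      have h1 := B_of_max ht hi hv hmC hm (hB (!e)) (hC₁ hq) hmax' h
      exact (Finset.eq_empty_iff_forall_notMem.mp hempty) q (Finset.mem_inter.mpr ⟨h1, hq⟩)
    refine ⟨?_, hn⟩
    have h0 : q ≠ m := fun h => hmC (h ▸ hC₁ hq)
    have h1 := v_or hv hinj (!e) h0 hn
    rw [Bool.not_not] at h1
    exact B_of_max ht hi hv hmC hm (hB e) (hC₁ hq) hmax' h1
  rcases both hQ ht hi hv hhom hT1 hΓm gF hTu hmC hm hB hVV hOr hNoB hC hd hun hne₁ hne₂ (!e)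
    with h1 | h1
  · have h2 := norel hQ hv hhom hT1 hF gF Finset.inter_subset_right h1
    rw [hempty] at h2
    obtain ⟨q, hq⟩ := hne₁
    have h3 : ∀ y ∈ C, ¬ r q y ∧ ¬ r y q := by
      intro y hy
      constructor
      · intro h
        exact h2 q hq y (hrel q hq y hy (Or.inl h)) (Finset.notMem_empty _)
          (Finset.notMem_empty _) h
      · intro h
        exact h2 y (hrel q hq y hy (Or.inr h)) q hq (Finset.notMem_empty _)
          (Finset.notMem_empty _) h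
    exact hiso e q (hmaxC q hq (fun y hy => (h3 y (hC₁ hy)).1)).1 h3
  · have hfac : Γ (insert m C) = VV Γ r T C₁ (B (!e) ∩ C₁) *
        (T * VV Γ r T C₂ (B (!e) ∩ C₂)) := by
      rw [hVV (!e)]
      conv_lhs => rw [hC, VV_mul hΓm hd hun (hC ▸ hBC (!e))]
      ring
    have h2 : VV Γ r T C₂ (B (!e) ∩ C₂) ∈ homQ Q C₂.card :=
      VV_hom hT1 hhom Finset.inter_subset_right
    have h3 : IsUnit ((F (!e) (T * VV Γ r T C₂ (B (!e) ∩ C₂))).coeff (1 + C₂.card)) := by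
      rw [coeff_mul_hom hQ (gF (!e)) hT1 h2]
      exact (hTu (!e)).mul (h1 (!e))
    have h4 := hX _ _ _ (!e) hfac (homQ_mul hT1 h2) h3
    have h5 : (AL r (v (!e)) (insert m C) ∩ AL (fun a b => r b a) (v (!(!e))) (insert m C)) ⊆
        C₂ := by
      intro x hx
      rw [Finset.mem_inter] at hx
      by_cases hxm : x = m
      · subst hxm
        exfalso
        obtain ⟨q, hq, hqmax⟩ := exists_bot (r := fun a b => r b a) ht' hi hne₁
        apply (hmaxC q hq hqmax).2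
        exact (mem_AL.mp hx.1).2 q (Finset.mem_insert_of_mem (hC₁ hq)) x
          (Finset.mem_insert_self x C) (hm q (hC₁ hq)) (Or.inl rfl)
      · have h6 : x ∈ B (!e) := by
          rw [hB (!e), Finset.mem_erase]
          exact ⟨hxm, hx.2⟩
        have h7 : x ∈ C₁ ∪ C₂ := hC ▸ hBC (!e) h6
        rcases Finset.mem_union.mp h7 with h8 | h8
        · exact absurd (Finset.mem_inter.mpr ⟨h6, h8⟩)
            (Finset.eq_empty_iff_forall_notMem.mp hempty x)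
        · exact h8
    have h6 := Finset.card_le_card h5
    omega

end gam

section gam2
variable {P : Type*} [Fintype P] [DecidableEq P] {r : P → P → Prop} {v : Bool → P → ℤ}
variable {Q : Subring R} (hQ : ∀ F : R, F ∈ Q ↔ IsQS F) {Γ : Finset P → Q} {T : Q}

include hQ in
/-- The set below a greatest element cannot be disconnected. -/
theorem gamma
    (ht : ∀ x y z, r x y → r y z → r x z) (hi : ∀ x, ¬ r x x)
    (hv : ∀ c p, v (!c) p = - v c p) (hinj : Function.Injective (v true))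
    (hΓ0 : ∀ U, Γ U ≠ 0) (hhom : ∀ U, Γ U ∈ homQ Q U.card) (hT1 : T ∈ homQ Q 1)
    (hT : ∀ x, Γ {x} = T)
    (hΓm : ∀ U V : Finset P, Disjoint U V → (∀ x ∈ U, ∀ y ∈ V, ¬ r x y ∧ ¬ r y x) →
      Γ (U ∪ V) = Γ U * Γ V)
    {F : Bool → Q →+* Q[X]} {s : Bool → Q} (hF : ∀ c, PeelE Γ (s c) r (v c) (F c))
    (gF : ∀ c, Graded Q (F c)) (hTu : ∀ c, IsUnit ((F c T).coeff 1))
    {C : Finset P} {m : P} (hmC : m ∉ C) (hm : ∀ p ∈ C, r p m) {B : Bool → Finset P}
    (hB : ∀ e, B e = (AL (fun a b => r b a) (v (!e)) (insert m C)).erase m)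
    (hVV : ∀ e, Γ (insert m C) = T * VV Γ r T C (B e))
    (hOr : ∀ (G H : Q) (a b : ℕ), Γ (insert m C) = G * H → G ∈ homQ Q a → H ∈ homQ Q b →
      ∀ c, IsUnit ((F c G).coeff a) ∨ IsUnit ((F c H).coeff b))
    (hNoB : ∀ (G H : Q) (a b : ℕ), Γ (insert m C) = G * H → a ≠ 0 → b ≠ 0 → G ∈ homQ Q a →
      H ∈ homQ Q b → IsUnit ((F false G).coeff a) → IsUnit ((F true H).coeff b) → False)
    (hX : ∀ (G H : Q) (b : ℕ) (c : Bool), Γ (insert m C) = G * H → H ∈ homQ Q b →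
      IsUnit ((F c H).coeff b) → b ≤ (AL r (v c) (insert m C) ∩
        AL (fun a b => r b a) (v (!c)) (insert m C)).card)
    {C₁ C₂ : Finset P} (hC : C = C₁ ∪ C₂) (hd : Disjoint C₁ C₂)
    (hun : ∀ x ∈ C₁, ∀ y ∈ C₂, ¬ r x y ∧ ¬ r y x) (hne₁ : C₁.Nonempty) (hne₂ : C₂.Nonempty) :
    False := by
  have hC' : C = C₂ ∪ C₁ := by rw [hC, Finset.union_comm]
  have hun' : ∀ x ∈ C₂, ∀ y ∈ C₁, ¬ r x y ∧ ¬ r y x := fun x hx y hy => (hun y hy x hx).symm
  rcases both hQ ht hi hv hhom hT1 hΓm gF hTu hmC hm hB hVV hOr hNoB hC hd hun hne₁ hne₂ true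
    with h1 | h1
  · exact gamma_one hQ ht hi hv hinj hΓ0 hhom hT1 hT hΓm hF gF hTu hmC hm hB hVV hOr hNoB hX
      hC hd hun hne₁ hne₂ h1
  · exact gamma_one hQ ht hi hv hinj hΓ0 hhom hT1 hT hΓm hF gF hTu hmC hm hB hVV hOr hNoB hX
      hC' hd.symm hun' hne₂ hne₁ h1

end gam2

end Pool.Agent.Lib.MP_5bc52d_co.Key
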