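import Mathlib
import Pool.Agent.Lib.MP_5bc52d_co.Key.Gamma2

/-!
# The rules for a greatest or least element
-/

open Finset Polynomial

set_option linter.unusedSectionVars false

namespace Pool.Agent.Lib.MP_5bc52d_co.Key

open Splitting Cyc Cut

/-- `C` is a union of two nonempty parts without relations between them -/
def Splits {P : Type*} [DecidableEq P] (r : P → P → Prop) (C : Finset P) : Prop :=
  ∃ C₁ C₂ : Finset P, C = C₁ ∪ C₂ ∧ Disjoint C₁ C₂ ∧
    (∀ x ∈ C₁, ∀ y ∈ C₂, ¬ r x y ∧ ¬ r y x) ∧ C₁.Nonempty ∧ C₂.Nonempty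

/-- `B` is a forest for the relation `r`, and `C` is nonempty -/
def FC {P : Type*} (r : P → P → Prop) (C B : Finset P) : Prop :=
  OneUp (fun a b => r b a) B ∧ C.Nonempty

section
variable {P : Type*} [Fintype P] [DecidableEq P] [PartialOrder P]
variable {Q : Subring R} (hQ : ∀ F : R, F ∈ Q ↔ IsQS F)
include hQ

theorem GamQ_singleton (ω : P → ℕ) (x y : P) : GamQ hQ ω {y} = GamQ hQ ω {x} := by
  apply Subtype.ext
  change Gam ω {y} = Gam ω {x}
  rw [Gam_one, Gam_one]
  exact GP_one_eq y x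

theorem unit_T {ω : P → ℕ} (x : P) {r : P → P → Prop} (ht : ∀ x y z, r x y → r y z → r x z)
    (hi : ∀ x, ¬ r x x) {w : P → ℤ} {φ : Q →+* Q[X]} (gφ : Graded Q φ)
    (hφ : Peel (GamQ hQ ω) r w φ) : IsUnit ((φ (GamQ hQ ω {x})).coeff 1) := by
  have hD : IsDomain R := NoZeroDivisors.to_isDomain R
  have hDQ : IsDomain Q := inferInstance
  have h1 := Peel.lead ht hφ (GamQ_ne_zero hQ ω) {x}
  have h2 : AL r w ({x} : Finset P) = {x} := by
    apply Finset.Subset.antisymm AL_subset
    intro y hy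
    rw [mem_AL]
    refine ⟨hy, fun a ha b hb hab => ?_⟩
    rw [Finset.mem_singleton] at ha hb
    rw [ha, hb] at hab
    exact absurd hab (hi x)
  rw [h2, Finset.card_singleton, Finset.sdiff_self, GamQ_empty hQ ω x] at h1
  obtain ⟨u, hu⟩ := h1.2
  have h4 : IsUnit (φ (GamQ hQ ω {x})).leadingCoeff := IsUnit.of_mul_eq_one _ hu
  have h5 : (φ (GamQ hQ ω {x})).coeff 1 = (φ (GamQ hQ ω {x})).leadingCoeff := by
    rw [leadingCoeff, h1.1]
  rw [h5]
  exact h4

theorem cc_GamQ (ω : P → ℕ) (x : P) (U : Finset P) :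
    cc Q (GamQ hQ ω U) = if U = ∅ then 1 else 0 := by
  split_ifs with h
  · rw [h, GamQ_empty hQ ω x, map_one]
  · exact cc_homQ (GamQ_homQ hQ ω U) (Finset.card_pos.mpr (Finset.nonempty_iff_ne_empty.mpr h)).ne'

theorem wt_hv (ω : P → ℕ) (c : Bool) (p : P) : Cut.wt ω (!c) p = - Cut.wt ω c p := by
  rw [wt_not, Pi.neg_apply]

theorem conn_insert {C : Finset P} {m : P} (h : (∀ p ∈ C, p < m) ∨ ∀ p ∈ C, m < p) :
    Conn (insert m C) := by
  intro S hS hne hcl
  have hrel : ∀ p ∈ C, p < m ∨ m < p := by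
    intro p hp
    rcases h with h | h
    · exact Or.inl (h p hp)
    · exact Or.inr (h p hp)
  have hm : m ∈ S := by
    obtain ⟨x, hx⟩ := hne
    rcases Finset.mem_insert.mp (hS hx) with h1 | h1
    · exact h1 ▸ hx
    · exact hcl x hx m (Finset.mem_insert_self m C) (hrel x h1)
  apply Finset.Subset.antisymm hS
  intro p hp
  rcases Finset.mem_insert.mp hp with h1 | h1
  · exact h1 ▸ hm
  · exact hcl m hm p hp (hrel p h1).symm

/-- The rule for a greatest element. -/
theorem rule_top {ω : P → ℕ} (hω : Function.Injective ω) {C : Finset P} {m : P} (hmC : m ∉ C)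
    (hm : ∀ p ∈ C, p < m)
    (hirr : ∀ c, Irreducible (GamQ hQ ω ((insert m C) \
        AL (fun a b : P => a < b) (Cut.wt ω c) (insert m C))) ∨
      Irreducible (GamQ hQ ω ((insert m C) \
        AL (fun a b : P => b < a) (Cut.wt ω (!c)) (insert m C))))
    (hcase : Splits (fun a b : P => a < b) C ∨ ∃ e, FC (fun a b : P => a < b) C
      ((AL (fun a b : P => b < a) (Cut.wt ω (!e)) (insert m C)).erase m)) :
    Irreducible (GamQ hQ ω (insert m C)) := by
  have hD : IsDomain R := NoZeroDivisors.to_isDomain R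
  have hDQ : IsDomain Q := inferInstance
  have hconn : Conn (insert m C) := conn_insert hQ (Or.inl hm)
  have hinj : Function.Injective (Cut.wt ω true) := wt_inj hω true
  apply two_letters hQ hω (insert m C) hconn m (Finset.mem_insert_self m C) hirr
  rintro ⟨G₀, H₀, b₀, hK, -, hb₀, hH₀, hu₀⟩
  have hval := fun c => values_zero hQ hω m hK hb₀ hH₀ hu₀ c
  rcases hcase with ⟨C₁, C₂, hC, hd, hun, hne₁, hne₂⟩ | ⟨e, hone, hCne⟩
  · refine gamma hQ (r := fun a b : P => a < b) (v := Cut.wt ω) (Γ := GamQ hQ ω)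
      (T := GamQ hQ ω {m}) (fun x y z h1 h2 => lt_trans h1 h2) (fun x => lt_irrefl x)
      (wt_hv hQ ω) hinj (GamQ_ne_zero hQ ω) (GamQ_homQ hQ ω) ?_
      (fun y => GamQ_singleton hQ ω m y) (fun U V hd h => GamQ_mul hQ ω U V hd h)
      (F := lo hQ) (s := sg Q) (peelE_lo hQ hω) (lo_graded hQ)
      (fun c => unit_T hQ m (r := fun a b : P => a < b) (fun x y z h1 h2 => lt_trans h1 h2)
        (fun x => lt_irrefl x) (lo_graded hQ c) (peel_lo hQ hω c)) hmC hm
      (B := fun e => (AL (fun a b : P => b < a) (Cut.wt ω (!e)) (insert m C)).erase m)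
      (fun e => rfl) ?_ ?_ ?_ ?_ hC hd hun hne₁ hne₂
    · have := GamQ_homQ hQ ω {m}
      rwa [Finset.card_singleton] at this
    · intro e
      have h1 := eval_top (Γ := GamQ hQ ω) (s := sg Q) (r := fun a b : P => a < b)
        (v := Cut.wt ω) (G := hi hQ) (fun x y z h1 h2 => lt_trans h1 h2)
        (fun x => lt_irrefl x) rfl rfl (peelE_hi hQ hω) hmC hm (GamQ hQ ω {m}) e
      rw [(hval e).2] at h1
      exact sub_eq_zero.mp h1.symm
    · intro G H a b hK hG hH c
      exact letter_or hQ hω hK hG hH c (hirr c)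
    · intro G H a b hK ha hb hG hH h1 h2
      exact no_caseB hQ hω hconn hK ha hb hG hH h1 h2
    · intro G H b c hK hH h1
      exact deg_le_Xc hQ hω hK hH c h1
  · by_cases hiso : ∀ q ∈ (AL (fun a b : P => b < a) (Cut.wt ω (!e)) (insert m C)).erase m,
        ∃ y ∈ C, q < y ∨ y < q
    · exact value_top (Γ := GamQ hQ ω) (s := sg Q) (r := fun a b : P => a < b)
        (v := Cut.wt ω) (F := lo hQ) (G := hi hQ) (cc := cc Q)
        (fun x y z h1 h2 => lt_trans h1 h2) (fun x => lt_irrefl x) rfl rfl (cc_GamQ hQ ω m)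
        (peelE_lo hQ hω) (peelE_hi hQ hω) hmC hm (wt_hv hQ ω) hinj m rfl hone hCne hiso
        (hval e).2
    · push Not at hiso
      obtain ⟨q, hq, hq'⟩ := hiso
      have h1 := eval_top (Γ := GamQ hQ ω) (s := sg Q) (r := fun a b : P => a < b)
        (v := Cut.wt ω) (G := hi hQ) (fun x y z h1 h2 => lt_trans h1 h2)
        (fun x => lt_irrefl x) rfl rfl (peelE_hi hQ hω) hmC hm (GamQ hQ ω {m}) e
      rw [(hval e).2, VV_zero (r := fun a b : P => a < b)
        (fun U V hd h => GamQ_mul hQ ω U V hd h) (fun y => GamQ_singleton hQ ω m y)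
        (B_sub (r := fun a b : P => a < b) (v := Cut.wt ω) (wt_hv hQ ω) hmC hm rfl) hq hq',
        mul_zero, sub_zero] at h1
      exact GamQ_ne_zero hQ ω _ h1.symm

/-- The rule for a least element. -/
theorem rule_bot {ω : P → ℕ} (hω : Function.Injective ω) {C : Finset P} {m : P} (hmC : m ∉ C)
    (hm : ∀ p ∈ C, m < p)
    (hirr : ∀ c, Irreducible (GamQ hQ ω ((insert m C) \
        AL (fun a b : P => a < b) (Cut.wt ω c) (insert m C))) ∨
      Irreducible (GamQ hQ ω ((insert m C) \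
        AL (fun a b : P => b < a) (Cut.wt ω (!c)) (insert m C))))
    (hcase : Splits (fun a b : P => b < a) C ∨ ∃ e, FC (fun a b : P => b < a) C
      ((AL (fun a b : P => a < b) (Cut.wt ω e) (insert m C)).erase m)) :
    Irreducible (GamQ hQ ω (insert m C)) := by
  have hD : IsDomain R := NoZeroDivisors.to_isDomain R
  have hDQ : IsDomain Q := inferInstance
  have hconn : Conn (insert m C) := conn_insert hQ (Or.inr hm)
  have hnn : ∀ c, Cut.wt ω (!(!c)) = Cut.wt ω c := fun c => by rw [Bool.not_not]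
  have hv' : ∀ (c : Bool) (p : P), (fun c => Cut.wt ω (!c)) (!c) p =
      - (fun c => Cut.wt ω (!c)) c p := fun c p => wt_hv hQ ω (!c) p
  have hinj : Function.Injective ((fun c => Cut.wt ω (!c)) true) := wt_inj hω false
  have ht : ∀ x y z : P, y < x → z < y → z < x := fun x y z h1 h2 => lt_trans h2 h1
  have hi' : ∀ x : P, ¬ x < x := fun x => lt_irrefl x
  have hG : ∀ c, PeelE (GamQ hQ ω) (sg Q c) (fun a b : P => a < b)
      ((fun c => Cut.wt ω (!c)) (!c)) (lo hQ c) := by
    intro c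
    change PeelE (GamQ hQ ω) (sg Q c) (fun a b : P => a < b) (Cut.wt ω (!(!c))) (lo hQ c)
    rw [hnn]
    exact peelE_lo hQ hω c
  apply two_letters hQ hω (insert m C) hconn m (Finset.mem_insert_self m C) hirr
  rintro ⟨G₀, H₀, b₀, hK, -, hb₀, hH₀, hu₀⟩
  have hval := fun c => values_zero hQ hω m hK hb₀ hH₀ hu₀ c
  rcases hcase with ⟨C₁, C₂, hC, hd, hun, hne₁, hne₂⟩ | ⟨e, hone, hCne⟩
  · refine gamma hQ (r := fun a b : P => b < a) (v := fun c => Cut.wt ω (!c)) (Γ := GamQ hQ ω)
      (T := GamQ hQ ω {m}) ht hi' hv' hinj (GamQ_ne_zero hQ ω) (GamQ_homQ hQ ω) ?_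
      (fun y => GamQ_singleton hQ ω m y)
      (fun U V hd h => GamQ_mul hQ ω U V hd (fun x hx y hy => (h x hx y hy).symm))
      (F := hi hQ) (s := sg Q) (peelE_hi hQ hω) (hi_graded hQ)
      (fun c => unit_T hQ m ht hi' (hi_graded hQ c) (peel_hi hQ hω c)) hmC hm
      (B := fun e => (AL (fun a b : P => a < b) (Cut.wt ω (!(!e))) (insert m C)).erase m)
      (fun e => rfl) ?_ ?_ ?_ ?_ hC hd hun hne₁ hne₂
    · have := GamQ_homQ hQ ω {m}
      rwa [Finset.card_singleton] at this
    · intro e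
      have h1 := eval_top (Γ := GamQ hQ ω) (s := sg Q) (r := fun a b : P => b < a)
        (v := fun c => Cut.wt ω (!c)) (G := lo hQ) ht hi' rfl rfl hG hmC hm
        (GamQ hQ ω {m}) e
      rw [(hval e).1] at h1
      exact sub_eq_zero.mp h1.symm
    · intro G H a b hK hG hH c
      rw [← lo_hi_pair hQ c a G hG, ← lo_hi_pair hQ c b H hH]
      exact letter_or hQ hω hK hG hH c (hirr c)
    · intro G H a b hK ha hb hG hH h1 h2
      rw [← lo_hi_pair hQ false a G hG] at h1
      rw [← lo_hi_pair hQ true b H hH] at h2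
      exact no_caseB hQ hω hconn hK ha hb hG hH h1 h2
    · intro G H b c hK hH h1
      rw [← lo_hi_pair hQ c b H hH] at h1
      have h2 := deg_le_Xc hQ hω hK hH c h1
      rw [Xc, Finset.inter_comm] at h2
      have h3 : (fun a b : P => a < b) = fun a b : P => a < b := rfl
      change b ≤ (AL (fun a b : P => b < a) (Cut.wt ω (!c)) (insert m C) ∩
        AL (fun a b : P => a < b) (Cut.wt ω (!(!c))) (insert m C)).card
      rw [hnn]
      exact h2
  · have hB : (AL (fun a b : P => a < b) (Cut.wt ω e) (insert m C)).erase m =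
        (AL (fun a b : P => a < b) ((fun c => Cut.wt ω (!c)) (!e)) (insert m C)).erase m := by
      change _ = (AL (fun a b : P => a < b) (Cut.wt ω (!(!e))) (insert m C)).erase m
      rw [hnn]
    by_cases hiso : ∀ q ∈ (AL (fun a b : P => a < b) (Cut.wt ω e) (insert m C)).erase m,
        ∃ y ∈ C, y < q ∨ q < y
    · exact value_top (Γ := GamQ hQ ω) (s := sg Q) (r := fun a b : P => b < a)
        (v := fun c => Cut.wt ω (!c)) (F := hi hQ) (G := lo hQ) (cc := cc Q)
        ht hi' rfl rfl (cc_GamQ hQ ω m) (peelE_hi hQ hω) hG hmC hm hv' hinj m hB hone hCne hiso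
        (hval e).1
    · push Not at hiso
      obtain ⟨q, hq, hq'⟩ := hiso
      have h1 := eval_top (Γ := GamQ hQ ω) (s := sg Q) (r := fun a b : P => b < a)
        (v := fun c => Cut.wt ω (!c)) (G := lo hQ) ht hi' rfl rfl hG hmC hm (GamQ hQ ω {m}) e
      rw [(hval e).1, ← hB, VV_zero (r := fun a b : P => b < a)
        (fun U V hd h => GamQ_mul hQ ω U V hd (fun x hx y hy => (h x hx y hy).symm))
        (fun y => GamQ_singleton hQ ω m y)
        (B_sub (r := fun a b : P => b < a) (v := fun c => Cut.wt ω (!c)) hv' hmC hm hB) hq hq',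
        mul_zero, sub_zero] at h1
      exact GamQ_ne_zero hQ ω _ h1.symm

end

end Pool.Agent.Lib.MP_5bc52d_co.Key
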