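import Mathlib
import Pool.Agent.Lib.MP_5bc52d_co.Key.TopRule

/-!
# Classes of posets with a greatest element, for an abstract relation
-/

open Finset Polynomial

set_option linter.unusedSectionVars false

namespace Pool.Agent.Lib.MP_5bc52d_co.Key

open Splitting Cyc Cut

/-- series-parallel sets -/
inductive SPr {P : Type*} [DecidableEq P] (r : P → P → Prop) : Finset P → Prop
  | single (x : P) : SPr r {x}
  | par (X Y : Finset P) : SPr r X → SPr r Y → Disjoint X Y →
      (∀ x ∈ X, ∀ y ∈ Y, ¬ r x y ∧ ¬ r y x) → SPr r (X ∪ Y)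
  | ser (X Y : Finset P) : SPr r X → SPr r Y → (∀ x ∈ X, ∀ y ∈ Y, r x y) → SPr r (X ∪ Y)

section
variable {P : Type*} [Fintype P] [DecidableEq P] {r : P → P → Prop} {v : Bool → P → ℤ}

theorem SPr.nonempty {X : Finset P} (h : SPr r X) : X.Nonempty := by
  induction h with
  | single x => exact Finset.singleton_nonempty x
  | par X Y _ _ _ _ ih _ => exact ih.mono Finset.subset_union_left
  | ser X Y _ _ _ ih _ => exact ih.mono Finset.subset_union_left

theorem SPr.sub {X : Finset P} (h : SPr r X) : ∀ X' ⊆ X, X'.Nonempty → SPr r X' := by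
  induction h with
  | single x =>
    intro X' hX' hne
    have : X' = {x} := (Finset.subset_singleton_iff.mp hX').resolve_left hne.ne_empty
    rw [this]
    exact SPr.single x
  | par X Y hX hY hd h ihX ihY =>
    intro X' hX' hne
    have e : X' = (X' ∩ X) ∪ (X' ∩ Y) := by
      rw [← Finset.inter_union_distrib_left, Finset.inter_eq_left.mpr hX']
    by_cases h1 : (X' ∩ X).Nonempty
    · by_cases h2 : (X' ∩ Y).Nonempty
      · rw [e]
        refine SPr.par _ _ (ihX _ Finset.inter_subset_right h1)
          (ihY _ Finset.inter_subset_right h2)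
          (Finset.disjoint_of_subset_left Finset.inter_subset_right
            (Finset.disjoint_of_subset_right Finset.inter_subset_right hd)) ?_
        intro x hx y hy
        exact h x (Finset.mem_inter.mp hx).2 y (Finset.mem_inter.mp hy).2
      · rw [Finset.not_nonempty_iff_eq_empty] at h2
        rw [h2, Finset.union_empty] at e
        rw [e]
        exact ihX _ Finset.inter_subset_right h1
    · rw [Finset.not_nonempty_iff_eq_empty] at h1
      rw [h1, Finset.empty_union] at e
      have h2 : (X' ∩ Y).Nonempty := e ▸ hne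
      rw [e]
      exact ihY _ Finset.inter_subset_right h2
  | ser X Y hX hY h ihX ihY =>
    intro X' hX' hne
    have e : X' = (X' ∩ X) ∪ (X' ∩ Y) := by
      rw [← Finset.inter_union_distrib_left, Finset.inter_eq_left.mpr hX']
    by_cases h1 : (X' ∩ X).Nonempty
    · by_cases h2 : (X' ∩ Y).Nonempty
      · rw [e]
        refine SPr.ser _ _ (ihX _ Finset.inter_subset_right h1)
          (ihY _ Finset.inter_subset_right h2) ?_
        intro x hx y hy
        exact h x (Finset.mem_inter.mp hx).2 y (Finset.mem_inter.mp hy).2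
      · rw [Finset.not_nonempty_iff_eq_empty] at h2
        rw [h2, Finset.union_empty] at e
        rw [e]
        exact ihX _ Finset.inter_subset_right h1
    · rw [Finset.not_nonempty_iff_eq_empty] at h1
      rw [h1, Finset.empty_union] at e
      have h2 : (X' ∩ Y).Nonempty := e ▸ hne
      rw [e]
      exact ihY _ Finset.inter_subset_right h2

/-- one of the conditions under which the top element can be treated -/
def Step (r : P → P → Prop) (v : Bool → P → ℤ) (m : P) (C : Finset P) : Prop :=
  (∃ c e, Disjoint (AL r (v c) (insert m C)) (AL (fun a b => r b a) (v (!e)) (insert m C))) ∨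
  Splits r C ∨
  (∃ e, FC r C ((AL (fun a b => r b a) (v (!e)) (insert m C)).erase m)) ∨
  ∃ k, OneUp r (AL r (v k) (insert m C)) ∧ m ∉ AL r (v k) (insert m C)

variable (ht : ∀ x y z, r x y → r y z → r x z) (hi : ∀ x, ¬ r x x)
  (hv : ∀ c p, v (!c) p = - v c p) (hinj : Function.Injective (v true)) {m : P}
include ht hi hv hinj

/-- the induction over up-sets -/
theorem top_induct {Irr St : Finset P → Prop} (hbase : Irr {m})
    (hcorner : ∀ (U : Finset P) (c e : Bool),
      Disjoint (AL r (v c) U) (AL (fun a b => r b a) (v (!e)) U) → Irr (U \ AL r (v c) U) → Irr U)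
    (hrule : ∀ C : Finset P, m ∉ C → (∀ p ∈ C, r p m) → C.Nonempty →
      (∀ c, m ∉ AL r (v c) (insert m C)) →
      (∀ c, Irr ((insert m C) \ AL r (v c) (insert m C))) → St C → Irr (insert m C))
    {K : Finset P → Prop}
    (hK : ∀ C, K C → ∀ A ⊆ C, (∀ a ∈ C, ∀ b ∈ A, r a b → a ∈ A) → K (C \ A))
    (hstep : ∀ C, m ∉ C → (∀ p ∈ C, r p m) → C.Nonempty →
      (∀ c, m ∉ AL r (v c) (insert m C)) → K C →
      (∃ c e, Disjoint (AL r (v c) (insert m C))
        (AL (fun a b => r b a) (v (!e)) (insert m C))) ∨ St C) (n : ℕ) :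
    ∀ C : Finset P, C.card ≤ n → m ∉ C → (∀ p ∈ C, r p m) → K C → Irr (insert m C) := by
  classical
  induction n with
  | zero =>
    intro C hC _ _ _
    have : C = ∅ := Finset.card_eq_zero.mp (by omega)
    subst this
    exact hbase
  | succ n ih =>
    intro C hC hmC hm hKC
    by_cases hCe : C = ∅
    · subst hCe
      exact hbase
    have hne : C.Nonempty := Finset.nonempty_iff_ne_empty.mpr hCe
    -- the smaller up-sets
    have hsmall : ∀ c, m ∉ AL r (v c) (insert m C) →
        Irr ((insert m C) \ AL r (v c) (insert m C)) := by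
      intro c hmA
      have hsub : AL r (v c) (insert m C) ⊆ C := by
        intro x hx
        rcases Finset.mem_insert.mp (AL_subset hx) with h | h
        · exact absurd (h ▸ hx) hmA
        · exact h
      have e1 : (insert m C) \ AL r (v c) (insert m C) =
          insert m (C \ AL r (v c) (insert m C)) := by
        rw [Finset.insert_sdiff_of_notMem _ hmA]
      have hdn : ∀ a ∈ C, ∀ b ∈ AL r (v c) (insert m C), r a b →
          a ∈ AL r (v c) (insert m C) := fun a ha b hb hab =>
        ((Wk_AL ht).2 a (Finset.mem_insert_of_mem ha) b hb hab).1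
      obtain ⟨x, hx, hxmin⟩ := exists_bot ht hi hne
      have hxA : x ∈ AL r (v c) (insert m C) := by
        rw [mem_AL]
        refine ⟨Finset.mem_insert_of_mem hx, fun a ha b hb hab h => ?_⟩
        exfalso
        have hax : r a x := by
          rcases h with h | h
          · exact h ▸ hab
          · exact ht _ _ _ hab h
        rcases Finset.mem_insert.mp ha with h1 | h1
        · subst h1
          exact hi a (ht _ _ _ hax (hm x hx))
        · exact hxmin a h1 hax
      have hlt : (C \ AL r (v c) (insert m C)).card < C.card := by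
        apply Finset.card_lt_card
        rw [Finset.ssubset_iff_of_subset Finset.sdiff_subset]
        exact ⟨x, hx, fun h => (Finset.mem_sdiff.mp h).2 hxA⟩
      rw [e1]
      exact ih _ (by omega) (fun h => hmC (Finset.mem_sdiff.mp h).1)
        (fun p hp => hm p (Finset.mem_sdiff.mp hp).1) (hK C hKC _ hsub hdn)
    by_cases hmA : ∃ c, m ∈ AL r (v c) (insert m C)
    · obtain ⟨c, hmc⟩ := hmA
      have hmc' := (mem_AL.mp hmc).2
      have hallc : ∀ a ∈ insert m C, ∀ b ∈ insert m C, r a b → v c a < v c b := by
        intro a ha b hb hab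
        refine hmc' a ha b hb hab ?_
        rcases Finset.mem_insert.mp hb with h | h
        · exact Or.inl h
        · exact Or.inr (hm b h)
      have hno : ∀ a ∈ insert m C, ∀ b ∈ insert m C, r a b → ¬ v (!c) a < v (!c) b := by
        intro a ha b hb hab h
        have h1 := hallc a ha b hb hab
        rw [hv, hv] at h
        omega
      have hmnot : m ∉ AL r (v (!c)) (insert m C) := by
        intro h
        obtain ⟨x, hx⟩ := hne
        exact hno x (Finset.mem_insert_of_mem hx) m (Finset.mem_insert_self m C) (hm x hx)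
          ((mem_AL.mp h).2 x (Finset.mem_insert_of_mem hx) m (Finset.mem_insert_self m C)
            (hm x hx) (Or.inl rfl))
      refine hcorner _ (!c) (!c) ?_ (hsmall (!c) hmnot)
      rw [Finset.disjoint_left]
      intro x hx hx'
      -- `x` has no relation below, and none above, so it is not `m`
      by_cases hxm : x = m
      · subst hxm
        exact hmnot hx
      · have hxC : x ∈ C := (Finset.mem_insert.mp (AL_subset hx)).resolve_left hxm
        have h1 := (mem_AL.mp hx').2 m (Finset.mem_insert_self m C) x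
          (Finset.mem_insert_of_mem hxC) (hm x hxC) (Or.inl rfl)
        rw [Bool.not_not] at h1
        have h2 := hallc x (Finset.mem_insert_of_mem hxC) m (Finset.mem_insert_self m C)
          (hm x hxC)
        omega
    · push Not at hmA
      rcases hstep C hmC hm hne hmA hKC with ⟨c, e, hd⟩ | h
      · exact hcorner _ c e hd (hsmall c (hmA c))
      · exact hrule C hmC hm hne hmA (fun c => hsmall c (hmA c)) h

/-! ### the classes -/

variable {C : Finset P} (hmC : m ∉ C) (hm : ∀ p ∈ C, r p m) (hne : C.Nonempty)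
include hmC hm hne

omit ht hi hinj hne in
theorem B_disj {x : P} (h1 : x ∈ (AL (fun a b => r b a) (v (!true)) (insert m C)).erase m)
    (h2 : x ∈ (AL (fun a b => r b a) (v (!false)) (insert m C)).erase m) : False := by
  have h3 := B_top (e := true) hv hmC hm rfl h1
  have h4 := B_top (e := false) hv hmC hm rfl h2
  have h5 := hv true x
  have h6 := hv true m
  simp only [Bool.not_true] at h5 h6
  omega

omit hinj hne in
theorem B_unrel {x y : P} (h1 : x ∈ (AL (fun a b => r b a) (v (!true)) (insert m C)).erase m)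
    (h2 : y ∈ (AL (fun a b => r b a) (v (!false)) (insert m C)).erase m) :
    x ≠ y ∧ ¬ r x y ∧ ¬ r y x := by
  have hx := B_sub (e := true) hv hmC hm rfl h1
  have hy := B_sub (e := false) hv hmC hm rfl h2
  refine ⟨fun h => B_disj hv hmC hm h1 (h ▸ h2), fun h => ?_, fun h => ?_⟩
  · exact B_disj hv hmC hm (B_up (e := true) ht hi hv hmC hm rfl h1 hy h) h2
  · exact B_disj hv hmC hm h1 (B_up (e := false) ht hi hv hmC hm rfl h2 hx h)

omit ht hi hv hinj hmC hm hne in
/-- a chain is a forest -/
theorem one_chain {B : Finset P} (hB : ∀ x ∈ B, ∀ y ∈ B, x = y ∨ r x y ∨ r y x) :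
    OneUp (fun a b => r b a) B := by
  intro x _ y hy z hz hxy hxz hyc hzc
  rcases hB y hy z hz with h | h | h
  · exact h
  · exact absurd h (hyc z hz hxz)
  · exact absurd h (hzc y hy hxy)

omit hinj hne in
/-- at most three pairwise unrelated elements -/
theorem one_width (hW : ∀ s ⊆ C, (∀ x ∈ s, ∀ y ∈ s, ¬ r x y) → s.card ≤ 3) :
    ∃ e, OneUp (fun a b => r b a)
      ((AL (fun a b => r b a) (v (!e)) (insert m C)).erase m) := by
  classical
  by_contra hcon
  push Not at hcon
  have hnc : ∀ e, ∃ x ∈ (AL (fun a b => r b a) (v (!e)) (insert m C)).erase m,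
      ∃ y ∈ (AL (fun a b => r b a) (v (!e)) (insert m C)).erase m,
        x ≠ y ∧ ¬ r x y ∧ ¬ r y x := by
    intro e
    by_contra h
    push Not at h
    apply hcon e
    apply one_chain
    intro x hx y hy
    by_cases hxy : x = y
    · exact Or.inl hxy
    · by_cases hr : r x y
      · exact Or.inr (Or.inl hr)
      · exact Or.inr (Or.inr (h x hx y hy hxy hr))
  obtain ⟨x, hx, y, hy, hxy, hxy1, hxy2⟩ := hnc true
  obtain ⟨z, hz, w, hw, hzw, hzw1, hzw2⟩ := hnc false
  have h1 := B_unrel ht hi hv hmC hm hx hz
  have h2 := B_unrel ht hi hv hmC hm hx hw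
  have h3 := B_unrel ht hi hv hmC hm hy hz
  have h4 := B_unrel ht hi hv hmC hm hy hw
  have hcard : ({x, y, z, w} : Finset P).card = 4 := by
    rw [Finset.card_insert_of_notMem, Finset.card_insert_of_notMem,
      Finset.card_insert_of_notMem, Finset.card_singleton]
    · simpa using hzw
    · simp only [Finset.mem_insert, Finset.mem_singleton, not_or]
      exact ⟨h3.1, h4.1⟩
    · simp only [Finset.mem_insert, Finset.mem_singleton, not_or]
      exact ⟨hxy, h1.1, h2.1⟩
  have hsub : ({x, y, z, w} : Finset P) ⊆ C := by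
    intro t ht'
    simp only [Finset.mem_insert, Finset.mem_singleton] at ht'
    rcases ht' with rfl | rfl | rfl | rfl
    · exact B_sub (e := true) hv hmC hm rfl hx
    · exact B_sub (e := true) hv hmC hm rfl hy
    · exact B_sub (e := false) hv hmC hm rfl hz
    · exact B_sub (e := false) hv hmC hm rfl hw
  have := hW _ hsub (by
    intro a ha b hb
    simp only [Finset.mem_insert, Finset.mem_singleton] at ha hb
    rcases ha with rfl | rfl | rfl | rfl <;> rcases hb with rfl | rfl | rfl | rfl
    · exact hi _
    · exact hxy1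
    · exact h1.2.1
    · exact h2.2.1
    · exact hxy2
    · exact hi _
    · exact h3.2.1
    · exact h4.2.1
    · exact h1.2.2
    · exact h3.2.2
    · exact hi _
    · exact hzw1
    · exact h2.2.2
    · exact h4.2.2
    · exact hzw2
    · exact hi _)
  omega

omit hinj hne in
/-- no two unrelated pairs -/
theorem one_22 (hI : ∀ a ∈ C, ∀ b ∈ C, ∀ c ∈ C, ∀ d ∈ C, r a b → r c d → r a d ∨ r c b) :
    ∃ e, OneUp (fun a b => r b a)
      ((AL (fun a b => r b a) (v (!e)) (insert m C)).erase m) := by
  classical
  have hanti : ∃ e, ∀ x ∈ (AL (fun a b => r b a) (v (!e)) (insert m C)).erase m,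
      ∀ y ∈ (AL (fun a b => r b a) (v (!e)) (insert m C)).erase m, ¬ r x y := by
    by_contra hcon
    push Not at hcon
    obtain ⟨a, ha, b, hb, hab⟩ := hcon true
    obtain ⟨c, hc, d, hd, hcd⟩ := hcon false
    rcases hI a (B_sub (e := true) hv hmC hm rfl ha) b (B_sub (e := true) hv hmC hm rfl hb) c
      (B_sub (e := false) hv hmC hm rfl hc) d (B_sub (e := false) hv hmC hm rfl hd) hab hcd
      with h | h
    · exact (B_unrel ht hi hv hmC hm ha hd).2.1 h
    · exact (B_unrel ht hi hv hmC hm hb hc).2.2 h
  obtain ⟨e, he⟩ := hanti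
  refine ⟨e, ?_⟩
  intro x hx y hy z _ hxy _ _ _
  exact absurd hxy (he y hy x hx)

omit hinj hne in
/-- Any two incomparable pairs, each of them with an upper bound, are connected from above. -/
theorem one_pairs (hL : ∀ x ∈ C, ∀ y ∈ C, ∀ z ∈ C, r y x → r z x → y ≠ z → ¬ r y z → ¬ r z y →
    ∀ x' ∈ C, ∀ y' ∈ C, ∀ z' ∈ C, r y' x' → r z' x' → y' ≠ z' → ¬ r y' z' → ¬ r z' y' →
    ∃ a ∈ C, (y = a ∨ r y a ∨ z = a ∨ r z a) ∧ (y' = a ∨ r y' a ∨ z' = a ∨ r z' a)) :
    ∃ e, OneUp (fun a b => r b a)
      ((AL (fun a b => r b a) (v (!e)) (insert m C)).erase m) := by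
  classical
  by_contra hcon
  push Not at hcon
  have hnc : ∀ e, ∃ x ∈ (AL (fun a b => r b a) (v (!e)) (insert m C)).erase m,
      ∃ y ∈ (AL (fun a b => r b a) (v (!e)) (insert m C)).erase m,
      ∃ z ∈ (AL (fun a b => r b a) (v (!e)) (insert m C)).erase m,
        r y x ∧ r z x ∧ y ≠ z ∧ ¬ r y z ∧ ¬ r z y := by
    intro e
    have h := hcon e
    unfold OneUp at h
    push Not at h
    obtain ⟨x, hx, y, hy, z, hz, hxy, hxz, hyc, hzc, hyz⟩ := h
    exact ⟨x, hx, y, hy, z, hz, hxy, hxz, hyz, hyc z hz hxz, hzc y hy hxy⟩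
  obtain ⟨x, hx, y, hy, z, hz, h1, h2, h3, h4, h5⟩ := hnc true
  obtain ⟨x', hx', y', hy', z', hz', h1', h2', h3', h4', h5'⟩ := hnc false
  have hs := B_sub (e := true) hv hmC hm rfl
  have hs' := B_sub (e := false) hv hmC hm rfl
  obtain ⟨a, ha, h6, h7⟩ := hL x (hs hx) y (hs hy) z (hs hz) h1 h2 h3 h4 h5 x' (hs' hx') y'
    (hs' hy') z' (hs' hz') h1' h2' h3' h4' h5'
  have ha1 : a ∈ (AL (fun a b => r b a) (v (!true)) (insert m C)).erase m := by
    rcases h6 with h | h | h | h
    · exact h ▸ hy
    · exact B_up (e := true) ht hi hv hmC hm rfl hy ha h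
    · exact h ▸ hz
    · exact B_up (e := true) ht hi hv hmC hm rfl hz ha h
  have ha2 : a ∈ (AL (fun a b => r b a) (v (!false)) (insert m C)).erase m := by
    rcases h7 with h | h | h | h
    · exact h ▸ hy'
    · exact B_up (e := false) ht hi hv hmC hm rfl hy' ha h
    · exact h ▸ hz'
    · exact B_up (e := false) ht hi hv hmC hm rfl hz' ha h
  exact B_disj hv hmC hm ha1 ha2

omit ht hi hinj hne in
/-- the elements below any element form a chain -/
theorem one_forest (hFo : ∀ x ∈ C, ∀ y ∈ C, ∀ z ∈ C, r y x → r z x →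
    y = z ∨ r y z ∨ r z y) : ∃ e, OneUp (fun a b => r b a)
      ((AL (fun a b => r b a) (v (!e)) (insert m C)).erase m) := by
  refine ⟨true, ?_⟩
  intro x hx y hy z hz hxy hxz hyc hzc
  have hsub : (AL (fun a b => r b a) (v (!true)) (insert m C)).erase m ⊆ C :=
    B_sub (e := true) hv hmC hm rfl
  rcases hFo x (hsub hx) y (hsub hy) z (hsub hz) hxy hxz with h | h | h
  · exact h
  · exact absurd h (hyc z hz hxz)
  · exact absurd h (hzc y hy hxy)

/-- series-parallel sets -/
theorem step_sp (hmA : ∀ c, m ∉ AL r (v c) (insert m C)) (hSP : SPr r C) : Step r v m C := by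
  classical
  cases hSP with
  | single x =>
    -- one of the two sets `B` is empty
    right; right; left
    by_cases hx : v true x < v true m
    · refine ⟨false, one_chain ?_, hne⟩
      intro a ha b hb
      exfalso
      have h1 := B_sub (e := false) hv hmC hm rfl ha
      have h2 := B_top (e := false) hv hmC hm rfl ha
      rw [Finset.mem_singleton] at h1
      subst h1
      have h3 := hv true a
      have h4 := hv true m
      simp only [Bool.not_true] at h3 h4
      omega
    · refine ⟨true, one_chain ?_, hne⟩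
      intro a ha b hb
      exfalso
      have h1 := B_sub (e := true) hv hmC hm rfl ha
      have h2 := B_top (e := true) hv hmC hm rfl ha
      rw [Finset.mem_singleton] at h1
      subst h1
      exact hx h2
  | par X Y hX hY hd h =>
    right; left
    exact ⟨X, Y, rfl, hd, h, hX.nonempty, hY.nonempty⟩
  | ser X Y hX hY h =>
    left
    by_contra hcon
    push Not at hcon
    have hne' : ∀ c, ∃ p ∈ X ∪ Y, p ∈ AL r (v c) (insert m (X ∪ Y)) ∧
        p ∈ AL (fun a b => r b a) (v (!c)) (insert m (X ∪ Y)) := by
      intro c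
      obtain ⟨p, hp1, hp2⟩ := Finset.not_disjoint_iff.mp (hcon c c)
      refine ⟨p, ?_, hp1, hp2⟩
      rcases Finset.mem_insert.mp (AL_subset hp1) with h1 | h1
      · exact absurd (h1 ▸ hp1) (hmA c)
      · exact h1
    have hneg : ∀ a b : P, v true a < v true b → v false a < v false b → False := by
      intro a b h1 h2
      have h3 := hv true a
      have h4 := hv true b
      simp only [Bool.not_true] at h3 h4
      omega
    -- the relations above an element of the final part
    have habove : ∀ c p, p ∈ X ∪ Y →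
        p ∈ AL (fun a b => r b a) (v (!c)) (insert m (X ∪ Y)) →
        ∀ y ∈ X ∪ Y, (y = p ∨ r p y) → v c y < v c m := by
      intro c p hp hpA y hy hpy
      have h1 := (mem_AL.mp hpA).2 m (Finset.mem_insert_self m _) y
        (Finset.mem_insert_of_mem hy) (hm y hy) (by
          rcases hpy with h2 | h2
          · exact Or.inl h2
          · exact Or.inr h2)
      rw [hv, hv] at h1
      omega
    obtain ⟨p, hp, hp1, hp2⟩ := hne' true
    obtain ⟨q, hq, hq1, hq2⟩ := hne' false
    obtain ⟨y₀, hy₀⟩ := hY.nonempty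
    obtain ⟨x₀, hx₀⟩ := hX.nonempty
    rcases Finset.mem_union.mp hp with hpX | hpY
    · rcases Finset.mem_union.mp hq with hqX | hqY
      · exact hneg y₀ m (habove true p hp hp2 y₀ (Finset.mem_union_right _ hy₀)
          (Or.inr (h p hpX y₀ hy₀))) (habove false q hq hq2 y₀ (Finset.mem_union_right _ hy₀)
          (Or.inr (h q hqX y₀ hy₀)))
      · exact hneg q m (habove true p hp hp2 q hq (Or.inr (h p hpX q hqY)))
          (habove false q hq hq2 q hq (Or.inl rfl))
    · rcases Finset.mem_union.mp hq with hqX | hqY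
      · exact hneg p m (habove true p hp hp2 p hp (Or.inl rfl))
          (habove false q hq hq2 p hp (Or.inr (h q hqX p hpY)))
      · have hx₀C : x₀ ∈ X ∪ Y := Finset.mem_union_left _ hx₀
        have h1 := (mem_AL.mp hp1).2 x₀ (Finset.mem_insert_of_mem hx₀C) p
          (Finset.mem_insert_of_mem hp) (h x₀ hx₀ p hpY) (Or.inl rfl)
        have h2 := (mem_AL.mp hq1).2 x₀ (Finset.mem_insert_of_mem hx₀C) q
          (Finset.mem_insert_of_mem hq) (h x₀ hx₀ q hqY) (Or.inl rfl)
        exact hneg x₀ m (h1.trans (habove true p hp hp2 p hp (Or.inl rfl)))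
          (h2.trans (habove false q hq hq2 q hq (Or.inl rfl)))

omit hi hv hinj hmC hm hne in
/-- at most one upper cover of kind `k` -/
theorem step_cover (k : Bool) (hmA : ∀ c, m ∉ AL r (v c) (insert m C))
    (hc : ∀ x ∈ insert m C, ∀ y ∈ insert m C, ∀ z ∈ insert m C, r x y → r x z →
      (∀ t ∈ insert m C, r x t → ¬ r t y) → (∀ t ∈ insert m C, r x t → ¬ r t z) →
      v k x < v k y → v k x < v k z → y = z) : Step r v m C := by
  right; right; right
  refine ⟨k, ?_, hmA k⟩
  intro x hx y hy z hz hxy hxz hyc hzc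
  have hdn := fun a ha b hb hab => ((Wk_AL (w := v k) (U := insert m C) ht).2 a ha b hb hab).1
  refine hc x (AL_subset hx) y (AL_subset hy) z (AL_subset hz) hxy hxz ?_ ?_ ?_ ?_
  · intro t htU hxt hty
    exact hyc t (hdn t htU y hy hty) hxt hty
  · intro t htU hxt htz
    exact hzc t (hdn t htU z hz htz) hxt htz
  · exact (mem_AL.mp hy).2 x (AL_subset hx) y (AL_subset hy) hxy (Or.inl rfl)
  · exact (mem_AL.mp hz).2 x (AL_subset hx) z (AL_subset hz) hxz (Or.inl rfl)

end

end Pool.Agent.Lib.MP_5bc52d_co.Key
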