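import Mathlib
import Pool.Agent.Lib.MP_5bc52d_co.Key.Classes

/-!
# The classes of posets with a greatest or a least element
-/

open Finset Polynomial

set_option linter.unusedSectionVars false

namespace Pool.Agent.Lib.MP_5bc52d_co.Key

open Splitting Cyc Cut

/-- the conditions on `C`, the set below the greatest element `m` -/
def KK {P : Type*} [Fintype P] [DecidableEq P] (r : P → P → Prop) (v : Bool → P → ℤ) (m : P)
    (C : Finset P) : Prop :=
  (∃ e, OneUp (fun a b => r b a) ((AL (fun a b => r b a) (v (!e)) (insert m C)).erase m)) ∨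
  (C = ∅ ∨ SPr r C) ∨
  ∃ k, ∀ x ∈ insert m C, ∀ y ∈ insert m C, ∀ z ∈ insert m C, r x y → r x z →
      (∀ t ∈ insert m C, r x t → ¬ r t y) → (∀ t ∈ insert m C, r x t → ¬ r t z) →
      v k x < v k y → v k x < v k z → y = z

section
variable {P : Type*} [Fintype P] [DecidableEq P] {r : P → P → Prop} {v : Bool → P → ℤ}
  (ht : ∀ x y z, r x y → r y z → r x z) (hi : ∀ x, ¬ r x x)
  (hv : ∀ c p, v (!c) p = - v c p) (hinj : Function.Injective (v true)) {m : P}

include ht hi in
theorem KK_step {C : Finset P} (hmC : m ∉ C) (hm : ∀ p ∈ C, r p m) (hC : KK r v m C)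
    (A : Finset P) (hA : A ⊆ C) (hdn : ∀ a ∈ C, ∀ b ∈ A, r a b → a ∈ A) :
    KK r v m (C \ A) := by
  have hs : C \ A ⊆ C := Finset.sdiff_subset
  rcases hC with ⟨e, h⟩ | h | ⟨k, h⟩
  · left
    refine ⟨e, ?_⟩
    have hmA : m ∉ A := fun h1 => hmC (hA h1)
    have hdn' : ∀ a ∈ insert m C, ∀ b ∈ A, r a b → a ∈ A := by
      intro a ha b hb hab
      rcases Finset.mem_insert.mp ha with h1 | h1
      · subst h1
        exact absurd (ht _ _ _ hab (hm b (hA hb))) (hi a)
      · exact hdn a h1 b hb hab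
    rw [← Finset.insert_sdiff_of_notMem _ hmA,
      AL_sdiff (r := r) (r' := fun a b => r b a) (fun x y => Iff.rfl) hdn']
    intro x hx y hy z hz hxy hxz hyc hzc
    rw [Finset.mem_erase, Finset.mem_sdiff] at hx hy hz
    refine h x (Finset.mem_erase.mpr ⟨hx.1, hx.2.1⟩) y (Finset.mem_erase.mpr ⟨hy.1, hy.2.1⟩) z
      (Finset.mem_erase.mpr ⟨hz.1, hz.2.1⟩) hxy hxz ?_ ?_
    · intro t ht' hxt hty
      rw [Finset.mem_erase] at ht'
      refine hyc t ?_ hxt hty
      rw [Finset.mem_erase, Finset.mem_sdiff]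
      exact ⟨ht'.1, ht'.2, fun htA => hy.2.2 (hdn' y (AL_subset hy.2.1) t htA hty)⟩
    · intro t ht' hxt htz
      rw [Finset.mem_erase] at ht'
      refine hzc t ?_ hxt htz
      rw [Finset.mem_erase, Finset.mem_sdiff]
      exact ⟨ht'.1, ht'.2, fun htA => hz.2.2 (hdn' z (AL_subset hz.2.1) t htA htz)⟩
  · right; left
    by_cases he : C \ A = ∅
    · exact Or.inl he
    · right
      rcases h with h | h
      · exact absurd (by rw [h, Finset.empty_sdiff]) he
      · exact h.sub _ hs (Finset.nonempty_iff_ne_empty.mpr he)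
  · right; right
    have hins : insert m (C \ A) ⊆ insert m C := Finset.insert_subset_insert m hs
    refine ⟨k, fun x hx y hy z hz hxy hxz hyc hzc => ?_⟩
    have hup : ∀ t ∈ insert m C, r x t → t ∈ insert m (C \ A) := by
      intro t ht' hxt
      rcases Finset.mem_insert.mp ht' with h1 | h1
      · rw [h1]
        exact Finset.mem_insert_self m _
      · refine Finset.mem_insert_of_mem (Finset.mem_sdiff.mpr ⟨h1, fun htA => ?_⟩)
        rcases Finset.mem_insert.mp hx with h2 | h2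
        · subst h2
          exact hi x (ht _ _ _ hxt (hm t h1))
        · exact (Finset.mem_sdiff.mp h2).2 (hdn x (Finset.mem_sdiff.mp h2).1 t htA hxt)
    exact h x (hins hx) y (hins hy) z (hins hz) hxy hxz
      (fun t ht' hxt => hyc t (hup t ht' hxt) hxt) (fun t ht' hxt => hzc t (hup t ht' hxt) hxt)

/-- blocks of `C` without relations between different blocks, each of which satisfies `KK` -/
def KB {P : Type*} [Fintype P] [DecidableEq P] (r : P → P → Prop) (v : Bool → P → ℤ) (m : P)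
    (C : Finset P) : Prop :=
  ∃ κ : P → ℕ, (∀ x ∈ C, ∀ y ∈ C, r x y → κ x = κ y) ∧
    ∀ x ∈ C, KK r v m (C.filter fun y => κ y = κ x)

include ht hi in
theorem KB_step {C : Finset P} (hmC : m ∉ C) (hm : ∀ p ∈ C, r p m) (hC : KB r v m C)
    (A : Finset P) (hA : A ⊆ C) (hdn : ∀ a ∈ C, ∀ b ∈ A, r a b → a ∈ A) :
    KB r v m (C \ A) := by
  obtain ⟨κ, hκ, h⟩ := hC
  refine ⟨κ, fun x hx y hy hxy => hκ x (Finset.mem_sdiff.mp hx).1 y (Finset.mem_sdiff.mp hy).1 hxy,
    fun x hx => ?_⟩
  have h1 : (C \ A).filter (fun y => κ y = κ x) =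
      (C.filter fun y => κ y = κ x) \ (A.filter fun y => κ y = κ x) := by
    ext y
    simp only [Finset.mem_filter, Finset.mem_sdiff]
    tauto
  rw [h1]
  refine KK_step ht hi (fun h => hmC (Finset.mem_filter.mp h).1)
    (fun p hp => hm p (Finset.mem_filter.mp hp).1) (h x (Finset.mem_sdiff.mp hx).1) _
    (Finset.filter_subset_filter _ hA) ?_
  intro a ha b hb hab
  rw [Finset.mem_filter] at ha hb ⊢
  exact ⟨hdn a ha.1 b hb.1 hab, ha.2⟩

/-- the cases in which the rule for the greatest element applies -/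
def St (r : P → P → Prop) (v : Bool → P → ℤ) (m : P) (C : Finset P) : Prop :=
  Splits r C ∨ (∃ e, FC r C ((AL (fun a b => r b a) (v (!e)) (insert m C)).erase m)) ∨
    ∃ k, OneUp r (AL r (v k) (insert m C)) ∧ m ∉ AL r (v k) (insert m C)

include ht hi hv hinj in
/-- the classes, for an abstract property -/
theorem class_abs {Irr : Finset P → Prop} (hbase : Irr {m})
    (hcorner : ∀ (U : Finset P) (c e : Bool),
      Disjoint (AL r (v c) U) (AL (fun a b => r b a) (v (!e)) U) → Irr (U \ AL r (v c) U) → Irr U)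
    (hrule : ∀ C : Finset P, m ∉ C → (∀ p ∈ C, r p m) → C.Nonempty →
      (∀ c, m ∉ AL r (v c) (insert m C)) →
      (∀ c, Irr ((insert m C) \ AL r (v c) (insert m C))) → St r v m C →
      Irr (insert m C)) {C : Finset P} (hmC : m ∉ C) (hm : ∀ p ∈ C, r p m)
    (hK : KB r v m C) : Irr (insert m C) := by
  refine top_induct ht hi hv hinj hbase hcorner (St := St r v m) hrule
    (K := fun C => m ∉ C ∧ (∀ p ∈ C, r p m) ∧ KB r v m C) ?_ ?_ C.card C le_rfl hmC hm
      ⟨hmC, hm, hK⟩
  · rintro C ⟨h0, h1, h2⟩ A hA hdn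
    exact ⟨fun h => h0 (Finset.mem_sdiff.mp h).1, fun p hp => h1 p (Finset.mem_sdiff.mp hp).1,
      KB_step ht hi h0 h1 h2 A hA hdn⟩
  · rintro C hmC hm hne hmA ⟨-, -, κ, hκ, hK⟩
    obtain ⟨x, hx⟩ := hne
    by_cases hall : ∀ y ∈ C, κ y = κ x
    · have h1 := hK x hx
      rw [Finset.filter_true_of_mem hall] at h1
      rcases h1 with ⟨e, h⟩ | h | ⟨k, h⟩
      · exact Or.inr (Or.inr (Or.inl ⟨e, h, x, hx⟩))
      · rcases h with h | h
        · rw [h] at hx
          exact absurd hx (Finset.notMem_empty x)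
        · exact step_sp ht hi hv hinj hmC hm ⟨x, hx⟩ hmA h
      · exact step_cover ht k hmA h
    · push Not at hall
      obtain ⟨y, hy, hyx⟩ := hall
      right; left
      refine ⟨C.filter (fun z => κ z = κ x), C.filter (fun z => ¬ κ z = κ x),
        (Finset.filter_union_filter_not_eq _ _).symm, Finset.disjoint_filter_filter_not _ _ _, ?_,
        ⟨x, Finset.mem_filter.mpr ⟨hx, rfl⟩⟩, ⟨y, Finset.mem_filter.mpr ⟨hy, hyx⟩⟩⟩
      intro a ha b hb
      rw [Finset.mem_filter] at ha hb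
      exact ⟨fun hab => hb.2 ((hκ a ha.1 b hb.1 hab).symm.trans ha.2),
        fun hba => hb.2 ((hκ b hb.1 a ha.1 hba).trans ha.2)⟩

include ht hi hv hinj in
/-- reduction to non-divisibility -/
theorem reduction_abs {Irr Dvd : Finset P → Prop} (hbase : Irr {m})
    (hcorner : ∀ (U : Finset P) (c e : Bool),
      Disjoint (AL r (v c) U) (AL (fun a b => r b a) (v (!e)) U) → Irr (U \ AL r (v c) U) → Irr U)
    (hrule : ∀ C : Finset P, m ∉ C → (∀ p ∈ C, r p m) →
      (∀ c, Irr ((insert m C) \ AL r (v c) (insert m C))) → ¬ Dvd (insert m C) →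
      Irr (insert m C)) {C : Finset P} (hmC : m ∉ C) (hm : ∀ p ∈ C, r p m)
    (hD : ∀ D ⊆ C, (∀ a ∈ D, ∀ b ∈ C, r a b → b ∈ D) → D.Nonempty → ¬ Dvd (insert m D)) :
    Irr (insert m C) := by
  refine top_induct ht hi hv hinj hbase hcorner (St := fun D => ¬ Dvd (insert m D))
    (fun C h1 h2 _ _ h3 h4 => hrule C h1 h2 h3 h4)
    (K := fun D => D ⊆ C ∧ ∀ a ∈ D, ∀ b ∈ C, r a b → b ∈ D) ?_ ?_ C.card C le_rfl hmC hm
      ⟨Finset.Subset.refl C, fun _ _ b hb _ => hb⟩
  · rintro D ⟨h0, h1⟩ A hA hdn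
    refine ⟨Finset.sdiff_subset.trans h0, fun a ha b hb hab => ?_⟩
    rw [Finset.mem_sdiff] at ha ⊢
    have h2 := h1 a ha.1 b hb hab
    exact ⟨h2, fun h3 => ha.2 (hdn a ha.1 b h3 hab)⟩
  · rintro D _ _ hne _ ⟨h0, h1⟩
    exact Or.inr (hD D h0 h1 hne)

end

section
variable {P : Type*} [Fintype P] [DecidableEq P] [PartialOrder P]
variable {Q : Subring R} (hQ : ∀ F : R, F ∈ Q ↔ IsQS F)
include hQ

/-- the function of a point is irreducible -/
theorem irr_point {ω : P → ℕ} (x : P) : Irreducible (GamQ hQ ω {x}) := by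
  have hD : IsDomain R := NoZeroDivisors.to_isDomain R
  have hDQ : IsDomain Q := inferInstance
  refine ⟨nonunit_of_nonempty hQ (GamQ_ne_zero hQ ω) (GamQ_homQ hQ ω)
    (Finset.singleton_nonempty x), fun G H hK => ?_⟩
  have h0 : G * H ≠ 0 := by
    rw [← hK]
    exact GamQ_ne_zero hQ ω {x}
  have h1 : G * H ∈ homQ Q 1 := by
    rw [← hK]
    have := GamQ_homQ hQ ω {x}
    rwa [Finset.card_singleton] at this
  obtain ⟨a, b, hab, hG, hH⟩ := homQ_factor hQ h0 h1
  rcases Nat.eq_zero_or_pos a with h | h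
  · subst h
    exact Or.inl (isUnit_of_homQ_zero hQ hG (left_ne_zero_of_mul h0))
  · have hb : b = 0 := by omega
    subst hb
    exact Or.inr (isUnit_of_homQ_zero hQ hH (right_ne_zero_of_mul h0))

/-- at most one upper cover of kind `k` inside the initial part of kind `k` -/
theorem rule_cover_lo {ω : P → ℕ} (hω : Function.Injective ω) {U : Finset P} (hconn : Conn U)
    (hne : U.Nonempty) (k : Bool)
    (hirr : ∀ c, Irreducible (GamQ hQ ω (U \ AL (fun a b : P => a < b) (Cut.wt ω c) U)) ∨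
      Irreducible (GamQ hQ ω (U \ AL (fun a b : P => b < a) (Cut.wt ω (!c)) U)))
    (hone : OneUp (fun a b : P => a < b) (AL (fun a b : P => a < b) (Cut.wt ω k) U))
    (habove : ∀ a ∈ AL (fun a b : P => a < b) (Cut.wt ω k) U,
      ∃ b ∈ U, b ∉ AL (fun a b : P => a < b) (Cut.wt ω k) U ∧ a < b) :
    Irreducible (GamQ hQ ω U) := by
  obtain ⟨x, hx⟩ := hne
  exact rule_cert hQ hω U hconn x hx hirr ⟨k, Or.inl (value_lo hQ hω x k U hone habove)⟩

theorem rule_cover_hi {ω : P → ℕ} (hω : Function.Injective ω) {U : Finset P} (hconn : Conn U)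
    (hne : U.Nonempty) (k : Bool)
    (hirr : ∀ c, Irreducible (GamQ hQ ω (U \ AL (fun a b : P => a < b) (Cut.wt ω c) U)) ∨
      Irreducible (GamQ hQ ω (U \ AL (fun a b : P => b < a) (Cut.wt ω (!c)) U)))
    (hone : OneUp (fun a b : P => b < a) (AL (fun a b : P => b < a) (Cut.wt ω (!k)) U))
    (hbelow : ∀ a ∈ AL (fun a b : P => b < a) (Cut.wt ω (!k)) U,
      ∃ b ∈ U, b ∉ AL (fun a b : P => b < a) (Cut.wt ω (!k)) U ∧ b < a) :
    Irreducible (GamQ hQ ω U) := by
  obtain ⟨x, hx⟩ := hne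
  exact rule_cert hQ hω U hconn x hx hirr ⟨k, Or.inr (value_hi hQ hω x k U hone hbelow)⟩

/-- Irreducible, or divisible by the function of a point. -/
theorem rule_dvd {ω : P → ℕ} (hω : Function.Injective ω) {U : Finset P} (hconn : Conn U)
    (x : P) (hx : x ∈ U)
    (hirr : ∀ c, Irreducible (GamQ hQ ω (U \ AL (fun a b : P => a < b) (Cut.wt ω c) U)) ∨
      Irreducible (GamQ hQ ω (U \ AL (fun a b : P => b < a) (Cut.wt ω (!c)) U))) :
    Irreducible (GamQ hQ ω U) ∨ GamQ hQ ω {x} ∣ GamQ hQ ω U := by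
  by_cases h : GamQ hQ ω {x} ∣ GamQ hQ ω U
  · exact Or.inr h
  · left
    apply two_letters hQ hω U hconn x hx hirr
    rintro ⟨G, H, b, hK, -, hb, hH, hu⟩
    have h1 := (values_zero hQ hω x hK hb hH hu true).1
    apply h
    have h2 : (X : Q[X]) ∣ lo hQ true (GamQ hQ ω U) - C ((lo hQ true (GamQ hQ ω U)).coeff 0) :=
      X_dvd_sub_C
    rw [lo_zero] at h2
    obtain ⟨q, hq⟩ := h2
    have h3 := congrArg (fun p : Q[X] => p.eval (-(sg Q true * GamQ hQ ω {x}))) hq
    simp only [eval_sub, eval_C, eval_mul, eval_X, h1, zero_sub] at h3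
    refine ⟨sg Q true * q.eval (-(sg Q true * GamQ hQ ω {x})), ?_⟩
    linear_combination -h3

/-- The classes with a greatest element. -/
theorem class_top {ω : P → ℕ} (hω : Function.Injective ω) {C : Finset P} {m : P} (hmC : m ∉ C)
    (hm : ∀ p ∈ C, p < m) (hK : KB (fun a b : P => a < b) (Cut.wt ω) m C) :
    Irreducible (GamQ hQ ω (insert m C)) := by
  refine class_abs (r := fun a b : P => a < b) (v := Cut.wt ω)
    (Irr := fun U => Irreducible (GamQ hQ ω U)) (fun x y z h1 h2 => lt_trans h1 h2)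
    (fun x => lt_irrefl x) (wt_hv hQ ω) (wt_inj hω true) (irr_point hQ m) ?_ ?_ hmC hm hK
  · intro U c e hd hU
    exact rule_low hQ hω U c e hd hU
  · intro C hmC hm _ _ hirr hcase
    rcases hcase with h | h | ⟨k, hone, hmk⟩
    · exact rule_top hQ hω hmC hm (fun c => Or.inl (hirr c)) (Or.inl h)
    · exact rule_top hQ hω hmC hm (fun c => Or.inl (hirr c)) (Or.inr h)
    · refine rule_cover_lo hQ hω (conn_insert hQ (Or.inl hm)) ⟨m, Finset.mem_insert_self m C⟩ k
        (fun c => Or.inl (hirr c)) hone ?_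
      intro a ha
      refine ⟨m, Finset.mem_insert_self m C, hmk, ?_⟩
      rcases Finset.mem_insert.mp (AL_subset ha) with h | h
      · exact absurd (h ▸ ha) hmk
      · exact hm a h

/-- The classes with a least element. -/
theorem class_bot {ω : P → ℕ} (hω : Function.Injective ω) {C : Finset P} {m : P} (hmC : m ∉ C)
    (hm : ∀ p ∈ C, m < p) (hK : KB (fun a b : P => b < a) (fun c => Cut.wt ω (!c)) m C) :
    Irreducible (GamQ hQ ω (insert m C)) := by
  have hnn : ∀ c, Cut.wt ω (!(!c)) = Cut.wt ω c := fun c => by rw [Bool.not_not]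
  have hv' : ∀ (c : Bool) (p : P), (fun c => Cut.wt ω (!c)) (!c) p =
      - (fun c => Cut.wt ω (!c)) c p := fun c p => wt_hv hQ ω (!c) p
  have hinj : Function.Injective ((fun c => Cut.wt ω (!c)) true) := wt_inj hω false
  have ht : ∀ x y z : P, y < x → z < y → z < x := fun x y z h1 h2 => lt_trans h2 h1
  have hi' : ∀ x : P, ¬ x < x := fun x => lt_irrefl x
  refine class_abs (r := fun a b : P => b < a) (v := fun c => Cut.wt ω (!c))
    (Irr := fun U => Irreducible (GamQ hQ ω U)) ht hi' hv' hinj (irr_point hQ m) ?_ ?_ hmC hm hK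
  · intro U c e hd hU
    have hd' : Disjoint (AL (fun a b : P => b < a) (Cut.wt ω (!c)) U)
        (AL (fun a b : P => a < b) (Cut.wt ω (!(!e))) U) := hd
    rw [hnn] at hd'
    exact rule_high hQ hω U e c hd'.symm hU
  · intro C hmC hm _ _ hirr hcase
    have hirr' : ∀ c, Irreducible (GamQ hQ ω ((insert m C) \
        AL (fun a b : P => a < b) (Cut.wt ω c) (insert m C))) ∨
      Irreducible (GamQ hQ ω ((insert m C) \
        AL (fun a b : P => b < a) (Cut.wt ω (!c)) (insert m C))) := fun c => Or.inr (hirr c)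
    rcases hcase with h | ⟨e, h⟩ | ⟨k, hone, hmk⟩
    · exact rule_bot hQ hω hmC hm hirr' (Or.inl h)
    · refine rule_bot hQ hω hmC hm hirr' (Or.inr ⟨e, ?_⟩)
      have h' : FC (fun a b : P => b < a) C
        ((AL (fun a b : P => a < b) (Cut.wt ω (!(!e))) (insert m C)).erase m) := h
      rw [hnn] at h'
      exact h'
    · refine rule_cover_hi hQ hω (conn_insert hQ (Or.inr hm)) ⟨m, Finset.mem_insert_self m C⟩ k
        hirr' hone ?_
      intro a ha
      refine ⟨m, Finset.mem_insert_self m C, hmk, ?_⟩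
      rcases Finset.mem_insert.mp (AL_subset ha) with h | h
      · exact absurd (h ▸ ha) hmk
      · exact hm a h

end

end Pool.Agent.Lib.MP_5bc52d_co.Key
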