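import Mathlib
import Pool.Agent.Lib.MP_5bc52d_co.H3.Class

/-!
# Posets with an element comparable to all others
-/

open Finset Polynomial

set_option linter.unusedSectionVars false

namespace Pool.Agent.Lib.MP_5bc52d_co.Key

open Splitting Cyc Cut

section
variable {P : Type*} [Fintype P] [DecidableEq P] [PartialOrder P]
variable {Q : Subring R} (hQ : ∀ F : R, F ∈ Q ↔ IsQS F)
include hQ

omit [Fintype P] [DecidableEq P] [PartialOrder P] hQ in
theorem AL_min {P : Type*} [Fintype P] [DecidableEq P] {r : P → P → Prop} {v : P → ℤ}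
    (ht : ∀ x y z, r x y → r y z → r x z) (hi : ∀ x, ¬ r x x) {U : Finset P}
    (hne : U.Nonempty) : ∃ x ∈ U, x ∈ AL r v U := by
  obtain ⟨x, hx, hmin⟩ := exists_bot ht hi hne
  refine ⟨x, hx, mem_AL.mpr ⟨hx, fun a ha b hb hab h => ?_⟩⟩
  exfalso
  rcases h with h | h
  · exact hmin a ha (h ▸ hab)
  · exact hmin a ha (ht _ _ _ hab h)

/-- one of the two corners of pure kind is empty -/
theorem corner_middle {ω : P → ℕ} {U : Finset P} {m : P} (hmU : m ∈ U)
    (hcomp : ∀ x ∈ U, x ≠ m → x < m ∨ m < x) (hA : ∃ x ∈ U, x < m) (hB : ∃ x ∈ U, m < x) :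
    ∃ c, Disjoint (AL (fun a b : P => a < b) (Cut.wt ω c) U)
      (AL (fun a b : P => b < a) (Cut.wt ω (!c)) U) := by
  obtain ⟨a, haU, ham⟩ := hA
  obtain ⟨b, hbU, hmb⟩ := hB
  by_contra hcon
  push Not at hcon
  have key : ∀ c, Cut.wt ω c a < Cut.wt ω c m ∨ Cut.wt ω c m < Cut.wt ω c b ∨ True := fun c =>
    Or.inr (Or.inr trivial)
  -- an element of the corner of kind `c` gives relations at `m`
  have h1 : ∀ c, ∃ p ∈ U, (p = m ∨ p < m ∨ m < p) ∧
      (∀ x ∈ U, ∀ y ∈ U, x < y → y ≤ p → Cut.wt ω c x < Cut.wt ω c y) ∧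
      (∀ x ∈ U, ∀ y ∈ U, x < y → p ≤ x → Cut.wt ω c x < Cut.wt ω c y) := by
    intro c
    have h := hcon c
    rw [Finset.not_disjoint_iff] at h
    obtain ⟨p, hp1, hp2⟩ := h
    rw [mem_AL] at hp1 hp2
    refine ⟨p, hp1.1, ?_, fun x hx y hy hxy hyp => hp1.2 x hx y hy hxy hyp.eq_or_lt,
      fun x hx y hy hxy hpx => ?_⟩
    · by_cases hpm : p = m
      · exact Or.inl hpm
      · exact Or.inr (hcomp p hp1.1 hpm)
    · have h2 := hp2.2 y hy x hx hxy (hpx.eq_or_lt.imp Eq.symm id)
      rw [wt_hv hQ, wt_hv hQ] at h2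
      omega
  obtain ⟨p, hp, hpm, hp1, hp2⟩ := h1 true
  obtain ⟨q, hq, hqm, hq1, hq2⟩ := h1 false
  have hv : ∀ x y : P, Cut.wt ω false x < Cut.wt ω false y →
      ¬ Cut.wt ω true x < Cut.wt ω true y := by
    intro x y h h'
    have h3 := wt_hv hQ ω true x
    have h4 := wt_hv hQ ω true y
    simp only [Bool.not_true] at h3 h4
    omega
  rcases hpm with rfl | hpm | hpm
  · rcases hqm with rfl | hqm | hqm
    · exact hv _ _ (hq1 a haU _ hmU ham le_rfl) (hp1 a haU _ hmU ham le_rfl)
    · exact hv _ _ (hq2 q hq _ hmU hqm le_rfl) (hp1 q hq _ hmU hqm le_rfl)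
    · exact hv _ _ (hq1 _ hmU q hq hqm le_rfl) (hp2 _ hmU q hq hqm le_rfl)
  · rcases hqm with rfl | hqm | hqm
    · exact hv _ _ (hq1 p hp _ hmU hpm le_rfl) (hp2 p hp _ hmU hpm le_rfl)
    · exact hv _ _ (hq2 m hmU b hbU hmb hqm.le) (hp2 m hmU b hbU hmb hpm.le)
    · exact hv _ _ (hq1 p hp m hmU hpm hqm.le) (hp2 p hp m hmU hpm le_rfl)
  · rcases hqm with rfl | hqm | hqm
    · exact hv _ _ (hq2 _ hmU p hp hpm le_rfl) (hp1 _ hmU p hp hpm le_rfl)
    · exact hv _ _ (hq2 m hmU p hp hpm hqm.le) (hp1 m hmU p hp hpm le_rfl)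
    · exact hv _ _ (hq1 a haU m hmU ham hqm.le) (hp1 a haU m hmU ham hpm.le)

/-- The classes with an element comparable to all others. -/
theorem class_middle {ω : P → ℕ} (hω : Function.Injective ω) {m : P} (n : ℕ) :
    ∀ A B : Finset P, A.card + B.card ≤ n → (∀ p ∈ A, p < m) → (∀ p ∈ B, m < p) →
      KG (fun a b : P => a < b) (Cut.wt ω) m A →
      KG (fun a b : P => b < a) (fun c => Cut.wt ω (!c)) m B →
      Irreducible (GamQ hQ ω (insert m (A ∪ B))) := by
  have ht : ∀ x y z : P, x < y → y < z → x < z := fun x y z h1 h2 => lt_trans h1 h2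
  have ht' : ∀ x y z : P, y < x → z < y → z < x := fun x y z h1 h2 => lt_trans h2 h1
  have hi : ∀ x : P, ¬ x < x := fun x => lt_irrefl x
  induction n with
  | zero =>
    intro A B hn hA hB _ _
    have h1 : A = ∅ := Finset.card_eq_zero.mp (by omega)
    have h2 : B = ∅ := Finset.card_eq_zero.mp (by omega)
    subst h1 h2
    simpa using irr_point hQ (ω := ω) m
  | succ n ih =>
    intro A B hn hA hB hKA hKB
    have hmA : m ∉ A := fun h => lt_irrefl m (hA m h)
    have hmB : m ∉ B := fun h => lt_irrefl m (hB m h)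
    rcases A.eq_empty_or_nonempty with hAe | ⟨a, ha⟩
    · rw [hAe, Finset.empty_union]
      exact class_bot3 hQ hω hmB hB hKB
    rcases B.eq_empty_or_nonempty with hBe | ⟨b, hb⟩
    · rw [hBe, Finset.union_empty]
      exact class_top3 hQ hω hmA hA hKA
    set U := insert m (A ∪ B) with hU
    have hmU : m ∈ U := Finset.mem_insert_self _ _
    have haU : a ∈ U := Finset.mem_insert_of_mem (Finset.mem_union_left _ ha)
    have hbU : b ∈ U := Finset.mem_insert_of_mem (Finset.mem_union_right _ hb)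
    have hUm : ∀ x ∈ U, x = m ∨ x ∈ A ∨ x ∈ B := fun x hx => by
      rwa [hU, Finset.mem_insert, Finset.mem_union] at hx
    obtain ⟨c, hc⟩ := corner_middle hQ (ω := ω) hmU (fun x hx hxm => by
      rcases hUm x hx with h | h | h
      · exact absurd h hxm
      · exact Or.inl (hA x h)
      · exact Or.inr (hB x h)) ⟨a, haU, hA a ha⟩ ⟨b, hbU, hB b hb⟩
    set L := AL (fun a b : P => a < b) (Cut.wt ω c) U with hL
    set H := AL (fun a b : P => b < a) (Cut.wt ω (!c)) U with hH
    have hLdn : ∀ x ∈ U, ∀ y ∈ L, x < y → x ∈ L := fun x hx y hy hxy =>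
      ((Wk_AL ht).2 x hx y hy hxy).1
    have hHup : ∀ x ∈ U, ∀ y ∈ H, y < x → x ∈ H := fun x hx y hy hxy =>
      ((Wk_AL ht').2 x hx y hy hxy).1
    by_cases hmL : m ∈ L
    · have hmH : m ∉ H := fun h => (Finset.disjoint_left.mp hc) hmL h
      have hHB : H ⊆ B := by
        intro x hx
        rcases hUm x (AL_subset hx) with h | h | h
        · exact absurd (h ▸ hx) hmH
        · exact absurd (hHup m hmU x hx (hA x h)) hmH
        · exact h
      obtain ⟨x, hxU, hxH⟩ := AL_min (r := fun a b : P => b < a) (v := Cut.wt ω (!c)) ht' hi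
        ⟨m, hmU⟩
      have hcard : (B \ H).card < B.card := by
        apply Finset.card_lt_card
        rw [Finset.ssubset_iff_of_subset Finset.sdiff_subset]
        exact ⟨x, hHB hxH, fun h => (Finset.mem_sdiff.mp h).2 hxH⟩
      have h1 := ih A (B \ H) (by omega) hA
        (fun p hp => hB p (Finset.mem_sdiff.mp hp).1) hKA
        (KG_step (r := fun a b : P => b < a) ht' hi hmB hB hKB H hHB (fun x hx y hy hxy =>
          hHup x (Finset.mem_insert_of_mem (Finset.mem_union_right _ hx)) y hy hxy))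
      have h2 : insert m (A ∪ B \ H) = U \ H := by
        ext y
        rw [Finset.mem_insert, Finset.mem_union, Finset.mem_sdiff, Finset.mem_sdiff, hU,
          Finset.mem_insert, Finset.mem_union]
        constructor
        · rintro (h | h | h)
          · exact ⟨Or.inl h, h ▸ hmH⟩
          · exact ⟨Or.inr (Or.inl h), fun h' => absurd (hA y h) (lt_asymm (hB y (hHB h')))⟩
          · exact ⟨Or.inr (Or.inr h.1), h.2⟩
        · rintro ⟨h | h | h, h'⟩
          · exact Or.inl h
          · exact Or.inr (Or.inl h)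
          · exact Or.inr (Or.inr ⟨h, h'⟩)
      rw [h2] at h1
      exact rule_high hQ hω U c c hc h1
    · have hLA : L ⊆ A := by
        intro x hx
        rcases hUm x (AL_subset hx) with h | h | h
        · exact absurd (h ▸ hx) hmL
        · exact h
        · exact absurd (hLdn m hmU x hx (hB x h)) hmL
      obtain ⟨x, hxU, hxL⟩ := AL_min (r := fun a b : P => a < b) (v := Cut.wt ω c) ht hi
        ⟨m, hmU⟩
      have hcard : (A \ L).card < A.card := by
        apply Finset.card_lt_card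
        rw [Finset.ssubset_iff_of_subset Finset.sdiff_subset]
        exact ⟨x, hLA hxL, fun h => (Finset.mem_sdiff.mp h).2 hxL⟩
      have h1 := ih (A \ L) B (by omega)
        (fun p hp => hA p (Finset.mem_sdiff.mp hp).1) hB
        (KG_step (r := fun a b : P => a < b) ht hi hmA hA hKA L hLA (fun x hx y hy hxy =>
          hLdn x (Finset.mem_insert_of_mem (Finset.mem_union_left _ hx)) y hy hxy)) hKB
      have h2 : insert m (A \ L ∪ B) = U \ L := by
        ext y
        rw [Finset.mem_insert, Finset.mem_union, Finset.mem_sdiff, Finset.mem_sdiff, hU,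
          Finset.mem_insert, Finset.mem_union]
        constructor
        · rintro (h | h | h)
          · exact ⟨Or.inl h, h ▸ hmL⟩
          · exact ⟨Or.inr (Or.inl h.1), h.2⟩
          · exact ⟨Or.inr (Or.inr h), fun h' => absurd (hA y (hLA h')) (lt_asymm (hB y h))⟩
        · rintro ⟨h | h | h, h'⟩
          · exact Or.inl h
          · exact Or.inr (Or.inl ⟨h, h'⟩)
          · exact Or.inr (Or.inr h)
      rw [h2] at h1
      exact rule_low hQ hω U c c hc h1

end

end Pool.Agent.Lib.MP_5bc52d_co.Key
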